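import Mathlib
import Pool.Agent.H21.Wick
import Pool.Agent.H21.QuatDet
import Pool.Agent.H21.DetWick

set_option autoImplicit false
open scoped ComplexOrder
open MeasureTheory Matrix

namespace Pool.H30.MV.Decomposable

open Pool.Agent.H21.Wick Pool.Agent.H21.QuatDet Pool.Agent.H21.DetWick

/-! ## A perturbation lemma at a point of maximal rank -/

lemma rank_lemma {n K : Type} [Fintype n] [DecidableEq n] (N : (K → ℂ) → Matrix n n ℂ)
    (hlin : ∀ (z z' : K → ℂ) (ε : ℝ), N (z + (ε : ℂ) • z') = N z + (ε : ℂ) • N z') (z₀ : K → ℂ)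
    (hmax : ∀ z, (N z).rank ≤ (N z₀).rank) (k u : n → ℂ) (hk : N z₀ *ᵥ k = 0)
    (hu : u ᵥ* N z₀ = 0) (z' : K → ℂ) : u ⬝ᵥ (N z' *ᵥ k) = 0 := by
  by_contra hne
  set R := LinearMap.range (N z₀).mulVecLin with hR
  let b := Module.finBasis ℂ R
  have hx : ∀ i, ∃ x : n → ℂ, N z₀ *ᵥ x = (b i : n → ℂ) := fun i => (b i).2
  choose x hx using hx
  let F : ℝ → (Option (Fin (Module.finrank ℂ R)) → n → ℂ) := fun ε o =>
    o.elim (N z' *ᵥ k) (fun i => N z₀ *ᵥ x i + (ε : ℂ) • (N z' *ᵥ x i))
  have hF0 : LinearIndependent ℂ (F 0) := by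
    have h1 : F 0 = fun o => Option.casesOn' o (N z' *ᵥ k) (fun i => (b i : n → ℂ)) := by
      funext o
      cases o with
      | none => rfl
      | some i => simp [F, hx]
    rw [h1, linearIndependent_option']
    constructor
    · exact b.linearIndependent.map' R.subtype (Submodule.ker_subtype R)
    · intro hmem
      have h2 : Submodule.span ℂ (Set.range fun i => (b i : n → ℂ)) ≤ R := by
        rw [Submodule.span_le]
        rintro _ ⟨i, rfl⟩
        exact (b i).2
      obtain ⟨y, hy⟩ := h2 hmem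
      apply hne
      rw [← hy, mulVecLin_apply, dotProduct_mulVec, hu, zero_dotProduct]
  have hFc : Continuous F := by
    refine continuous_pi fun o => ?_
    cases o with
    | none => exact continuous_const
    | some i =>
      exact continuous_const.add (Complex.continuous_ofReal.smul continuous_const)
  have hev : ∀ᶠ ε in nhds (0 : ℝ), LinearIndependent ℂ (F ε) :=
    hFc.continuousAt.eventually (isOpen_setOfPred_linearIndependent.mem_nhds hF0)
  obtain ⟨δ, hδ, hball⟩ := Metric.eventually_nhds_iff.mp hev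
  have hli : LinearIndependent ℂ (F (δ / 2)) := by
    apply hball
    rw [Real.dist_eq, sub_zero, abs_of_pos (by positivity)]
    linarith
  have hε : ((δ / 2 : ℝ) : ℂ) ≠ 0 := by
    exact_mod_cast (by positivity : (δ / 2 : ℝ) ≠ 0)
  have hrank := hmax (z₀ + ((δ / 2 : ℝ) : ℂ) • z')
  have hspan : Submodule.span ℂ (Set.range (F (δ / 2))) ≤
      LinearMap.range (N (z₀ + ((δ / 2 : ℝ) : ℂ) • z')).mulVecLin := by
    rw [Submodule.span_le]
    rintro _ ⟨o, rfl⟩
    cases o with
    | none =>
      refine ⟨(((δ / 2 : ℝ) : ℂ))⁻¹ • k, ?_⟩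
      rw [mulVecLin_apply, mulVec_smul, hlin, add_mulVec, hk, zero_add, smul_mulVec, smul_smul,
        inv_mul_cancel₀ hε, one_smul]
      rfl
    | some i =>
      refine ⟨x i, ?_⟩
      rw [mulVecLin_apply, hlin, add_mulVec, smul_mulVec]
      rfl
  have h3 := Submodule.finrank_mono hspan
  rw [finrank_span_eq_card hli, Fintype.card_option, Fintype.card_fin] at h3
  rw [Matrix.rank, Matrix.rank] at hrank
  rw [← hR] at hrank
  omega

section Decomp

variable {α K₁ K₂ : Type} [Fintype α] [DecidableEq α] [Fintype K₁] [DecidableEq K₁] [Fintype K₂]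
  [DecidableEq K₂]

/-- coefficients of `z` in the first block column -/
def cA (C : K₁ → Matrix α α ℂ) (D : K₂ → Matrix α α ℂ) : (K₁ ⊕ K₂) → (α ⊕ α) → α → ℂ :=
  fun v x k => Sum.elim (fun s => Sum.elim (fun a => C s a k) (fun _ => 0) x)
    (fun t => Sum.elim (fun _ => 0) (fun b => star (D t b k)) x) v

/-- coefficients of `star z` in the second block column -/
def cA' (C : K₁ → Matrix α α ℂ) (D : K₂ → Matrix α α ℂ) : (K₁ ⊕ K₂) → (α ⊕ α) → α → ℂ :=
  fun v x l => Sum.elim (fun s => Sum.elim (fun _ => 0) (fun b => star (C s b l)) x)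
    (fun t => Sum.elim (fun a => - D t a l) (fun _ => 0) x) v

lemma NN_eq (C : K₁ → Matrix α α ℂ) (D : K₂ → Matrix α α ℂ) (z : (K₁ ⊕ K₂) → ℂ) :
    NN (cA C D) (cA' C D) z = fromBlocks
      (Matrix.of fun a k => ∑ s, C s a k * z (Sum.inl s))
      (-((Matrix.of fun b k => ∑ t, star (D t b k) * z (Sum.inr t)).map star))
      (Matrix.of fun b k => ∑ t, star (D t b k) * z (Sum.inr t))
      ((Matrix.of fun a k => ∑ s, C s a k * z (Sum.inl s)).map star) := by
  ext x y
  rcases x with a | a <;> rcases y with b | b <;>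
    simp [NN, cA, cA', Fintype.sum_sum_type, star_sum, Finset.sum_neg_distrib]

lemma NN_nonneg (C : K₁ → Matrix α α ℂ) (D : K₂ → Matrix α α ℂ) (z : (K₁ ⊕ K₂) → ℂ) :
    0 ≤ (NN (cA C D) (cA' C D) z).det := by
  rw [NN_eq]
  exact det_quat_nonneg _ _

lemma NN_comm (C : K₁ → Matrix α α ℂ) (D : K₂ → Matrix α α ℂ) (z : (K₁ ⊕ K₂) → ℂ)
    (x : α ⊕ α → ℂ) :
    NN (cA C D) (cA' C D) z *ᵥ (jmap α x) = jmap α (NN (cA C D) (cA' C D) z *ᵥ x) := by
  rw [NN_eq]
  exact commute_jmap _ _ x

lemma NN_lin {K : Type} [Fintype K] (A A' : K → (α ⊕ α) → α → ℂ) (z z' : K → ℂ) (ε : ℝ) :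
    NN A A' (z + (ε : ℂ) • z') = NN A A' z + (ε : ℂ) • NN A A' z' := by
  ext x y
  rcases y with b | b
  · simp only [NN, Matrix.of_apply, Matrix.add_apply, Matrix.smul_apply, Sum.elim_inl,
      Pi.add_apply, Pi.smul_apply, smul_eq_mul, Finset.mul_sum, ← Finset.sum_add_distrib]
    exact Finset.sum_congr rfl fun v _ => by ring
  · simp only [NN, Matrix.of_apply, Matrix.add_apply, Matrix.smul_apply, Sum.elim_inr,
      Pi.add_apply, Pi.smul_apply, smul_eq_mul, Finset.mul_sum, ← Finset.sum_add_distrib,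
      star_add, star_mul']
    refine Finset.sum_congr rfl fun v _ => ?_
    have : star (ε : ℂ) = ε := by simp
    rw [this]
    ring

lemma NN_cont {K : Type} [Fintype K] (A A' : K → (α ⊕ α) → α → ℂ) :
    Continuous (fun z => (NN A A' z).det) := by
  refine Continuous.matrix_det ?_
  refine continuous_matrix fun x y => ?_
  rcases y with b | b
  · simp only [NN, Matrix.of_apply, Sum.elim_inl]
    fun_prop
  · simp only [NN, Matrix.of_apply, Sum.elim_inr]
    fun_prop

lemma coeff_zero {K : Type} [Fintype K] [DecidableEq K] (A A' : K → (α ⊕ α) → α → ℂ)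
    (u k : α ⊕ α → ℂ) (h : ∀ z', u ⬝ᵥ (NN A A' z' *ᵥ k) = 0) (v : K) :
    (∑ x, ∑ l, u x * A v x l * k (Sum.inl l) = 0) ∧
    (∑ x, ∑ l, u x * A' v x l * k (Sum.inr l) = 0) := by
  have hc : ∀ c : ℂ, c * (∑ x, ∑ l, u x * A v x l * k (Sum.inl l)) +
      star c * (∑ x, ∑ l, u x * A' v x l * k (Sum.inr l)) = 0 := by
    intro c
    have := h (Pi.single v c)
    rw [← this]
    simp only [dotProduct, mulVec, Fintype.sum_sum_type (α₁ := α) (α₂ := α), NN, Matrix.of_apply,
      Sum.elim_inl, Sum.elim_inr]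
    have e1 : ∀ f : K → ℂ, ∑ w, f w * (Pi.single v c : K → ℂ) w = f v * c := by
      intro f
      rw [Finset.sum_eq_single v]
      · simp
      · intro w _ hw
        simp [hw]
      · simp
    have e2 : ∀ f : K → ℂ, ∑ w, f w * star ((Pi.single v c : K → ℂ) w) = f v * star c := by
      intro f
      rw [Finset.sum_eq_single v]
      · simp
      · intro w _ hw
        simp [hw]
      · simp
    simp only [e1, e2, Finset.mul_sum, mul_add, Finset.sum_add_distrib]
    have e3 : ∀ w : α ⊕ α, ∀ l, c * (u w * A v w l * k (Sum.inl l)) =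
      u w * (A v w l * c * k (Sum.inl l)) := fun w l => by ring
    have e4 : ∀ w : α ⊕ α, ∀ l, star c * (u w * A' v w l * k (Sum.inr l)) =
      u w * (A' v w l * star c * k (Sum.inr l)) := fun w l => by ring
    simp only [e3, e4]
    ring
  have h1 := hc 1
  have h2 := hc Complex.I
  rw [star_one] at h1
  rw [Complex.star_def, Complex.conj_I] at h2
  have hI : Complex.I * Complex.I = -1 := Complex.I_mul_I
  constructor
  · linear_combination (1 / 2) * h1 - (1 / 2) * Complex.I * h2 + (1 / 2) *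
      ((∑ x, ∑ l, u x * A v x l * k (Sum.inl l)) - (∑ x, ∑ l, u x * A' v x l * k (Sum.inr l))) * hI
  · linear_combination (1 / 2) * h1 + (1 / 2) * Complex.I * h2 - (1 / 2) *
      ((∑ x, ∑ l, u x * A v x l * k (Sum.inl l)) - (∑ x, ∑ l, u x * A' v x l * k (Sum.inr l))) * hI

lemma exists_det_ne_zero (C : K₁ → Matrix α α ℂ) (D : K₂ → Matrix α α ℂ)
    (hyp : ∀ y b : α → ℂ, y ≠ 0 → b ≠ 0 → (∀ s, ∑ a, ∑ l, b a * C s a l * y l = 0) →
      (∀ t, ∑ a, ∑ l, b a * D t a l * star (y l) = 0) → False) :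
    ∃ z, (NN (cA C D) (cA' C D) z).det ≠ 0 := by
  by_contra hcon
  push Not at hcon
  set N := NN (cA C D) (cA' C D) with hN
  -- a point of maximal rank
  obtain ⟨z₀, hz₀⟩ : ∃ z₀, ∀ z, (N z).rank ≤ (N z₀).rank := by
    let g : ((K₁ ⊕ K₂) → ℂ) → ℕ := fun z => Fintype.card (α ⊕ α) - (N z).rank
    obtain ⟨z₀, hz₀⟩ : ∃ z₀, ∀ z, g z₀ ≤ g z :=
      ⟨Function.argmin g, fun z => Function.argmin_le g z⟩
    refine ⟨z₀, fun z => ?_⟩
    have h1 := hz₀ z
    have h2 := (N z).rank_le_card_height
    have h3 := (N z₀).rank_le_card_height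
    simp only [g] at h1
    omega
  obtain ⟨k, hk0, hk⟩ := Matrix.exists_mulVec_eq_zero_iff.mpr (hcon z₀)
  obtain ⟨u, hu0, hu⟩ := Matrix.exists_vecMul_eq_zero_iff.mpr (hcon z₀)
  have hjk : N z₀ *ᵥ (jmap α k) = 0 := by
    rw [hN, NN_comm, ← hN, hk, map_zero]
  have r1 := fun z' => rank_lemma N (NN_lin _ _) z₀ hz₀ k u hk hu z'
  have r2 := fun z' => rank_lemma N (NN_lin _ _) z₀ hz₀ (jmap α k) u hjk hu z'
  have c1 := coeff_zero _ _ u k r1
  have c2 := coeff_zero _ _ u (jmap α k) r2
  -- extract the eight relations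
  have a1 : ∀ s, ∑ a, ∑ l, u (Sum.inl a) * C s a l * k (Sum.inl l) = 0 := by
    intro s
    have := (c1 (Sum.inl s)).1
    rw [Fintype.sum_sum_type] at this
    simpa [cA] using this
  have a2 : ∀ s, ∑ a, ∑ l, u (Sum.inr a) * star (C s a l) * k (Sum.inr l) = 0 := by
    intro s
    have := (c1 (Sum.inl s)).2
    rw [Fintype.sum_sum_type] at this
    simpa [cA'] using this
  have a3 : ∀ t, ∑ a, ∑ l, u (Sum.inr a) * star (D t a l) * k (Sum.inl l) = 0 := by
    intro t
    have := (c1 (Sum.inr t)).1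
    rw [Fintype.sum_sum_type] at this
    simpa [cA] using this
  have a4 : ∀ t, ∑ a, ∑ l, u (Sum.inl a) * D t a l * k (Sum.inr l) = 0 := by
    intro t
    have := (c1 (Sum.inr t)).2
    rw [Fintype.sum_sum_type] at this
    simpa [cA'] using this
  have b1 : ∀ s, ∑ a, ∑ l, u (Sum.inl a) * C s a l * star (k (Sum.inr l)) = 0 := by
    intro s
    have := (c2 (Sum.inl s)).1
    rw [Fintype.sum_sum_type] at this
    simpa [cA, jmap] using this
  have b2 : ∀ s, ∑ a, ∑ l, u (Sum.inr a) * star (C s a l) * star (k (Sum.inl l)) = 0 := by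
    intro s
    have := (c2 (Sum.inl s)).2
    rw [Fintype.sum_sum_type] at this
    simpa [cA', jmap] using this
  have b3 : ∀ t, ∑ a, ∑ l, u (Sum.inr a) * star (D t a l) * star (k (Sum.inr l)) = 0 := by
    intro t
    have := (c2 (Sum.inr t)).1
    rw [Fintype.sum_sum_type] at this
    simpa [cA, jmap] using this
  have b4 : ∀ t, ∑ a, ∑ l, u (Sum.inl a) * D t a l * star (k (Sum.inl l)) = 0 := by
    intro t
    have := (c2 (Sum.inr t)).2
    rw [Fintype.sum_sum_type] at this
    simpa [cA', jmap] using this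
  have hstar : ∀ (M : Matrix α α ℂ) (p q : α → ℂ),
      ∑ a, ∑ l, p a * star (M a l) * q l = 0 → ∑ a, ∑ l, star (p a) * M a l * star (q l) = 0 := by
    intro M p q h
    have := congrArg star h
    simpa [star_sum, mul_comm, mul_left_comm, mul_assoc] using this
  by_cases hk1 : (fun a => k (Sum.inl a)) = 0
  · have hk2 : (fun a => star (k (Sum.inr a))) ≠ 0 := by
      intro h
      apply hk0
      funext x
      rcases x with a | a
      · exact congrFun hk1 a
      · have := congrFun h a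
        simpa using this
    by_cases hu1 : (fun a => u (Sum.inl a)) = 0
    · have hu2 : (fun a => star (u (Sum.inr a))) ≠ 0 := by
        intro h
        apply hu0
        funext x
        rcases x with a | a
        · exact congrFun hu1 a
        · have := congrFun h a
          simpa using this
      refine hyp _ _ hk2 hu2 (fun s => hstar _ _ _ (a2 s)) (fun t => ?_)
      have := hstar _ _ _ (b3 t)
      simpa using this
    · refine hyp _ _ hk2 hu1 b1 (fun t => ?_)
      simpa using a4 t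
  · by_cases hu1 : (fun a => u (Sum.inl a)) = 0
    · have hu2 : (fun a => star (u (Sum.inr a))) ≠ 0 := by
        intro h
        apply hu0
        funext x
        rcases x with a | a
        · exact congrFun hu1 a
        · have := congrFun h a
          simpa using this
      refine hyp _ _ hk1 hu2 (fun s => ?_) (fun t => hstar _ _ _ (a3 t))
      have := hstar _ _ _ (b2 s)
      simpa using this
    · exact hyp _ _ hk1 hu1 a1 b4

/-- the Gaussian average of the determinant is positive -/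
lemma integral_pos (A A' : (K₁ ⊕ K₂) → (α ⊕ α) → α → ℂ) (hnn : ∀ z, 0 ≤ (NN A A' z).det)
    (z₀ : (K₁ ⊕ K₂) → ℂ) (hz₀ : (NN A A' z₀).det ≠ 0) :
    0 < ∫ z : (K₁ ⊕ K₂) → ℂ, (NN A A' z).det * wt z := by
  let f : ((K₁ ⊕ K₂) → ℂ) → ℝ := fun z => ((NN A A' z).det).re * ∏ v, Real.exp (-‖z v‖ ^ 2)
  have hf : ∀ z, (NN A A' z).det * wt z = ((f z : ℝ) : ℂ) := by
    intro z
    have h1 : (NN A A' z).det = (((NN A A' z).det).re : ℂ) := by
      have := Complex.le_def.mp (hnn z)
      apply Complex.ext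
      · simp
      · simpa using this.2.symm
    simp only [f, wt]
    push_cast
    rw [← h1]
  have hf0 : ∀ z, 0 ≤ f z := by
    intro z
    have := (Complex.le_def.mp (hnn z)).1
    exact mul_nonneg this (Finset.prod_nonneg fun v _ => (Real.exp_pos _).le)
  have hfc : Continuous f := by
    have h1 := NN_cont A A'
    have h2 : Continuous fun z => ((NN A A' z).det).re := Complex.continuous_re.comp h1
    refine h2.mul ?_
    fun_prop
  have hfi : Integrable f := by
    have h1 := (det_wick A A').1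
    simp only [hf] at h1
    simpa using h1.re
  simp only [hf]
  rw [integral_complex_ofReal]
  have h3 : 0 < ∫ z, f z := by
    rw [integral_pos_iff_support_of_nonneg hf0 hfi]
    have hopen : IsOpen (Function.support f) := hfc.isOpen_support
    refine hopen.measure_pos _ ⟨z₀, ?_⟩
    rw [Function.mem_support]
    intro h0
    apply hz₀
    have h4 := hf z₀
    rw [h0] at h4
    have h5 : wt z₀ ≠ 0 := by
      rw [wt]
      exact Finset.prod_ne_zero_iff.mpr fun v _ => by
        exact_mod_cast (Real.exp_pos _).ne'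
    have h6 : (NN A A' z₀).det * wt z₀ = 0 := by rw [h4]; simp
    exact (mul_eq_zero.mp h6).resolve_right h5
  exact_mod_cast h3

theorem main_pos (C : K₁ → Matrix α α ℂ) (D : K₂ → Matrix α α ℂ) (B : α → α → Matrix α α ℂ)
    (hB : ∀ i j a b, B i j a b = (∑ s, C s a i * star (C s b j)) + ∑ t, D t a j * star (D t b i))
    (hpos : ∀ ξ : α → ℂ, ξ ≠ 0 → (∑ i, ∑ j, (ξ i * star (ξ j)) • B i j).PosDef) :
    0 < ∑ σ : Equiv.Perm α, ((Equiv.Perm.sign σ : ℤ) : ℂ) *
      ∑ ρ : Equiv.Perm α, ∑ κ : Equiv.Perm α,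
        ((Equiv.Perm.sign ρ : ℤ) : ℂ) * ((Equiv.Perm.sign κ : ℤ) : ℂ) *
          ∏ k, B k (σ k) (ρ k) (κ k) := by
  have hid := det_wick_block (cA C D) (cA' C D) (fun k l a b => B k l a b)
    (by intro k l a b; simp [cA, cA']) (by intro k l a b; simp [cA, cA'])
    (by
      intro k l a b
      simp only [cA, cA', Fintype.sum_sum_type, Sum.elim_inl, Sum.elim_inr, mul_zero, zero_mul,
        Finset.sum_const_zero, add_zero, zero_add, hB]
      rw [sub_eq_add_neg, ← Finset.sum_neg_distrib]
      congr 1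
      exact Finset.sum_congr rfl fun t _ => by ring)
  have hyp : ∀ y b : α → ℂ, y ≠ 0 → b ≠ 0 → (∀ s, ∑ a, ∑ l, b a * C s a l * y l = 0) →
      (∀ t, ∑ a, ∑ l, b a * D t a l * star (y l) = 0) → False := by
    intro y b hy hb hC hD
    have hP := hpos y hy
    have hz : b ᵥ* (∑ i, ∑ j, (y i * star (y j)) • B i j) = 0 := by
      funext c
      simp only [vecMul, dotProduct, Matrix.sum_apply, Matrix.smul_apply, smul_eq_mul, hB,
        Pi.zero_apply]
      have e1 : ∑ a, b a * ∑ i, ∑ j, y i * star (y j) *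
          ((∑ s, C s a i * star (C s c j)) + ∑ t, D t a j * star (D t c i)) =
          (∑ s, ∑ j, star (y j) * star (C s c j) * ∑ a, ∑ i, b a * C s a i * y i) +
          ∑ t, ∑ i, y i * star (D t c i) * ∑ a, ∑ j, b a * D t a j * star (y j) := by
        simp only [Finset.mul_sum, mul_add, Finset.sum_add_distrib]
        congr 1
        · have s1 : ∀ a : α, ∑ i, ∑ j, ∑ s, b a * (y i * star (y j) * (C s a i * star (C s c j)))
              = ∑ s, ∑ j, ∑ i, star (y j) * star (C s c j) * (b a * C s a i * y i) := by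
            intro a
            rw [Finset.sum_comm]
            rw [Finset.sum_congr rfl fun j _ => Finset.sum_comm]
            rw [Finset.sum_comm]
            refine Finset.sum_congr rfl fun s _ => Finset.sum_congr rfl fun j _ =>
              Finset.sum_congr rfl fun i _ => by ring
          rw [Finset.sum_congr rfl fun a _ => s1 a]
          rw [Finset.sum_comm]
          refine Finset.sum_congr rfl fun s _ => ?_
          rw [Finset.sum_comm]
        · have s1 : ∀ a : α, ∑ i, ∑ j, ∑ t, b a * (y i * star (y j) * (D t a j * star (D t c i)))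
              = ∑ t, ∑ i, ∑ j, y i * star (D t c i) * (b a * D t a j * star (y j)) := by
            intro a
            rw [Finset.sum_congr rfl fun i _ => Finset.sum_comm]
            rw [Finset.sum_comm]
            refine Finset.sum_congr rfl fun t _ => Finset.sum_congr rfl fun i _ =>
              Finset.sum_congr rfl fun j _ => by ring
          rw [Finset.sum_congr rfl fun a _ => s1 a]
          rw [Finset.sum_comm]
          refine Finset.sum_congr rfl fun s _ => ?_
          rw [Finset.sum_comm]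
      rw [e1]
      simp only [hC, hD, mul_zero, Finset.sum_const_zero, add_zero]
    have hsb : star b ≠ 0 := by
      intro h
      exact hb (by simpa using congrArg star h)
    have h2 := hP.dotProduct_mulVec_pos hsb
    rw [star_star, dotProduct_mulVec, hz, zero_dotProduct] at h2
    exact lt_irrefl _ h2
  obtain ⟨z₀, hz₀⟩ := exists_det_ne_zero C D hyp
  have hint := integral_pos (cA C D) (cA' C D) (NN_nonneg C D) z₀ hz₀
  rw [hid] at hint
  have hpi : (0 : ℂ) < (Real.pi : ℂ) ^ Fintype.card (K₁ ⊕ K₂) := by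
    have : (0 : ℝ) < Real.pi ^ Fintype.card (K₁ ⊕ K₂) := pow_pos Real.pi_pos _
    exact_mod_cast this
  exact (mul_pos_iff_of_pos_left hpi).mp hint

end Decomp

/-- **The decomposable case of Q1, all `r`.**  `P` and `Q` are the Choi (block) matrices of the
completely positive and the completely copositive part. -/
theorem result :
    ∀ (r : ℕ) (P Q : Matrix (Fin r × Fin r) (Fin r × Fin r) ℂ), P.PosSemidef → Q.PosSemidef →
      ∀ B : Fin r → Fin r → Matrix (Fin r) (Fin r) ℂ,
      (∀ i j a b, B i j a b = P (i, a) (j, b) + Q (j, a) (i, b)) →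
      (∀ ξ : Fin r → ℂ, ξ ≠ 0 →
          (∑ i : Fin r, ∑ j : Fin r, (ξ i * star (ξ j)) • B i j).PosDef) →
      0 < ∑ σ : Equiv.Perm (Fin r),
            ((Equiv.Perm.sign σ : ℤ) : ℂ) *
              ((1 / (Nat.factorial r : ℂ)) *
                ∑ α : Equiv.Perm (Fin r), ∑ ρ : Equiv.Perm (Fin r),
                  ((Equiv.Perm.sign α : ℤ) : ℂ) * ((Equiv.Perm.sign ρ : ℤ) : ℂ) *
                    ∏ k : Fin r, B k (σ k) (α k) (ρ k)) := by
  intro r P Q hP hQ B hB hpos
  obtain ⟨m₁, M₁, hM₁⟩ := Matrix.posSemidef_iff_eq_sum_vecMulVec.mp hP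
  obtain ⟨m₂, M₂, hM₂⟩ := Matrix.posSemidef_iff_eq_sum_vecMulVec.mp hQ
  have hmain := main_pos (fun s : Fin m₁ => Matrix.of fun a i => M₁ s (i, a))
    (fun t : Fin m₂ => Matrix.of fun a i => M₂ t (i, a)) B (by
      intro i j a b
      rw [hB, hM₁, hM₂]
      simp [Matrix.sum_apply, Matrix.vecMulVec_apply]) hpos
  have e : ∑ σ : Equiv.Perm (Fin r),
            ((Equiv.Perm.sign σ : ℤ) : ℂ) *
              ((1 / (Nat.factorial r : ℂ)) *
                ∑ α : Equiv.Perm (Fin r), ∑ ρ : Equiv.Perm (Fin r),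
                  ((Equiv.Perm.sign α : ℤ) : ℂ) * ((Equiv.Perm.sign ρ : ℤ) : ℂ) *
                    ∏ k : Fin r, B k (σ k) (α k) (ρ k)) =
      (1 / (Nat.factorial r : ℂ)) * ∑ σ : Equiv.Perm (Fin r), ((Equiv.Perm.sign σ : ℤ) : ℂ) *
      ∑ ρ : Equiv.Perm (Fin r), ∑ κ : Equiv.Perm (Fin r),
        ((Equiv.Perm.sign ρ : ℤ) : ℂ) * ((Equiv.Perm.sign κ : ℤ) : ℂ) *
          ∏ k, B k (σ k) (ρ k) (κ k) := by
    rw [Finset.mul_sum]
    exact Finset.sum_congr rfl fun σ _ => by ring
  rw [e]
  refine mul_pos ?_ hmain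
  have h0 : (0 : ℝ) < 1 / (Nat.factorial r : ℝ) := by positivity
  have h1 : (0 : ℂ) < ((1 / (Nat.factorial r : ℝ) : ℝ) : ℂ) := by exact_mod_cast h0
  have h2 : ((1 / (Nat.factorial r : ℝ) : ℝ) : ℂ) = 1 / (Nat.factorial r : ℂ) := by push_cast; rfl
  rwa [h2] at h1

end Pool.H30.MV.Decomposable
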