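import Mathlib

/-!
# The objects of the question, in the field `ℚ(q) = RatFunc ℚ` with `q = RatFunc.X`: definitions of the statement
-/

set_option autoImplicit false

open Finset Polynomial

namespace Pool.H30.MV.Full

/-- the `q`-integer `[m] = (1 - q^m) / (1 - q)` -/
noncomputable def qInt (m : ℕ) : RatFunc ℚ := (1 - RatFunc.X ^ m) / (1 - RatFunc.X)

/-- the shifted factorial `(a; r)_k = (1 - a)(1 - a r) ⋯ (1 - a r^(k-1))` -/
noncomputable def qPoch (a r : RatFunc ℚ) (k : ℕ) : RatFunc ℚ := ∏ j ∈ range k, (1 - a * r ^ j)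

/-- the exponent `e_n(k) = k (n^2 - 2 n k - n - 2) / 4` -/
def expo (n k : ℕ) : ℤ := (k : ℤ) * ((n : ℤ) ^ 2 - 2 * n * k - n - 2) / 4

/-- `S_n(q) = ∑_{k=0}^{(n-1)/2} [4k+1] ((q;q^2)_k / (q^2;q^2)_k)^3 q^{e_n(k)}` -/
noncomputable def S (n : ℕ) : RatFunc ℚ :=
  ∑ k ∈ range ((n - 1) / 2 + 1),
    qInt (4 * k + 1) *
      (qPoch RatFunc.X (RatFunc.X ^ 2) k / qPoch (RatFunc.X ^ 2) (RatFunc.X ^ 2) k) ^ 3 *
      RatFunc.X ^ expo n k

/-- `A ≡ 0 (mod P)`: `A = U / V` with `U V ∈ ℤ[q]`, `V` coprime to `P` and `P ∣ U` in `ℤ[q]` -/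
def CongrZero (A : RatFunc ℚ) (P : ℤ[X]) : Prop :=
  ∃ U V : ℤ[X], IsRelPrime V P ∧ P ∣ U ∧
    A = algebraMap ℚ[X] (RatFunc ℚ) (U.map (Int.castRingHom ℚ)) /
      algebraMap ℚ[X] (RatFunc ℚ) (V.map (Int.castRingHom ℚ))

end Pool.H30.MV.Full
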