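import Mathlib
import Pool.Agent.H30.MV.FullDefs

/-!
# The objects of the question, in the field `ℚ(q) = RatFunc ℚ` with `q = RatFunc.X`: the proof
-/

set_option autoImplicit false

open Finset Polynomial

namespace Pool.H30.MV.Full

section identity

variable {K : Type*} [Field K]

/-- the factor -/
def ff (a b c p : K) (N j : ℕ) : K :=
  (1 - a * p ^ j) * (1 - b * p ^ j) * (1 - c * p ^ j) * (p ^ N - p ^ j) * (a * p) /
    ((1 - p ^ (j + 1)) * (b - a * p ^ (j + 1)) * (c - a * p ^ (j + 1)) * (1 - a * p ^ (N + 1 + j)))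

def PP (a b c p : K) (N k : ℕ) : K := ∏ j ∈ range k, ff a b c p N j

lemma PP_succ (a b c p : K) (N k : ℕ) : PP a b c p N (k + 1) = PP a b c p N k * ff a b c p N k :=
  prod_range_succ _ _

lemma PP_shift (a b c p : K) (hp : ∀ j, 1 - p ^ (j + 1) ≠ 0) (hb : ∀ j, b - a * p ^ (j + 1) ≠ 0)
    (hc : ∀ j, c - a * p ^ (j + 1) ≠ 0) (ha : ∀ j, 1 - a * p ^ (j + 1) ≠ 0) (N k : ℕ) :
    PP a b c p (N + 1) (k + 1) = PP a b c p N k *
      ((p ^ (N + 1) - 1) * p ^ k * (1 - a * p ^ (N + 1)) * (1 - a * p ^ k) * (1 - b * p ^ k) *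
        (1 - c * p ^ k) * (a * p) /
        ((1 - p ^ (k + 1)) * (b - a * p ^ (k + 1)) * (c - a * p ^ (k + 1)) *
          (1 - a * p ^ (N + 1 + k)) * (1 - a * p ^ (N + 2 + k)))) := by
  induction k with
  | zero =>
    have h1 := hp 0
    have h2 := hb 0
    have h3 := hc 0
    have h4 := ha N
    have h5 := ha (N + 1)
    have e : N + 2 + 0 = N + 1 + 1 := by ring
    rw [PP_succ]
    simp only [PP, range_zero, prod_empty, ff, e, add_zero]
    field_simp
  | succ k ih =>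
    have h1 := hp k
    have h1' := hp (k + 1)
    have h2 := hb k
    have h2' := hb (k + 1)
    have h3 := hc k
    have h3' := hc (k + 1)
    have h4 : 1 - a * p ^ (N + 1 + k) ≠ 0 := by have := ha (N + k); rwa [show N + k + 1 = N + 1 + k by ring] at this
    have h5 : 1 - a * p ^ (N + 2 + k) ≠ 0 := by have := ha (N + k + 1); rwa [show N + k + 1 + 1 = N + 2 + k by ring] at this
    have h6 : 1 - a * p ^ (N + 3 + k) ≠ 0 := by have := ha (N + k + 2); rwa [show N + k + 2 + 1 = N + 3 + k by ring] at this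
    rw [PP_succ a b c p (N + 1) (k + 1), ih, PP_succ a b c p N k, ff, ff]
    rw [show N + 1 + 1 + (k + 1) = N + 3 + k by ring, show N + 1 + (k + 1) = N + 2 + k by ring]
    rw [mul_assoc (PP a b c p N k), mul_assoc (PP a b c p N k)]
    congr 1
    have e1 : p ^ (N + 1) - p ^ (k + 1) = p * (p ^ N - p ^ k) := by ring
    have e2 : p ^ (k + 1) = p * p ^ k := by ring
    rw [e1]
    generalize 1 - p ^ (k + 1) = X1 at *
    generalize 1 - p ^ (k + 1 + 1) = X2 at *
    generalize b - a * p ^ (k + 1) = X3 at *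
    generalize b - a * p ^ (k + 1 + 1) = X4 at *
    generalize c - a * p ^ (k + 1) = X5 at *
    generalize c - a * p ^ (k + 1 + 1) = X6 at *
    generalize 1 - a * p ^ (N + 1 + k) = X7 at *
    generalize 1 - a * p ^ (N + 2 + k) = X8 at *
    generalize 1 - a * p ^ (N + 3 + k) = X9 at *
    generalize 1 - a * p ^ k = Y1 at *
    generalize 1 - b * p ^ k = Y2 at *
    generalize 1 - c * p ^ k = Y3 at *
    generalize 1 - a * p ^ (k + 1) = Y4 at *
    generalize 1 - b * p ^ (k + 1) = Y5 at *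
    generalize 1 - c * p ^ (k + 1) = Y6 at *
    generalize 1 - a * p ^ (N + 1) = Y7 at *
    generalize p ^ (N + 1) - 1 = Y8 at *
    generalize p ^ N - p ^ k = Y9 at *
    rw [e2, div_mul_div_comm, div_mul_div_comm, div_eq_div_iff (by simp only [ne_eq, mul_eq_zero, not_or]; tauto)
      (by simp only [ne_eq, mul_eq_zero, not_or]; tauto)]
    ring

lemma tele (a b c p : K) (hp : ∀ j, 1 - p ^ (j + 1) ≠ 0) (hb : ∀ j, b - a * p ^ (j + 1) ≠ 0)
    (hc : ∀ j, c - a * p ^ (j + 1) ≠ 0) (ha : ∀ j, 1 - a * p ^ (j + 1) ≠ 0) (N m : ℕ) :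
    ∑ k ∈ range (m + 1), ((b - a * p ^ (N + 1)) * (c - a * p ^ (N + 1)) * ((1 - a * p ^ (2 * k)) * PP a b c p (N + 1) k)
      - (1 - a * p ^ (N + 1)) * (b * c - a * p ^ (N + 1)) * ((1 - a * p ^ (2 * k)) * PP a b c p N k)) =
    p ^ (N + 1) * a * (1 - a * p ^ (N + 1)) * (1 - a * p ^ m) * (1 - b * p ^ m) * (1 - c * p ^ m) /
      (1 - a * p ^ (N + 1 + m)) * PP a b c p N m := by
  induction m with
  | zero =>
    have h4 := ha N
    simp only [zero_add, range_one, sum_singleton, PP, range_zero, prod_empty, mul_zero, pow_zero, mul_one, add_zero]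
    field_simp
    ring
  | succ m ih =>
    rw [sum_range_succ, ih, PP_shift a b c p hp hb hc ha, PP_succ, ff]
    have h1 := hp m
    have h2 := hb m
    have h3 := hc m
    have h4 : 1 - a * p ^ (N + 1 + m) ≠ 0 := by have := ha (N + m); rwa [show N + m + 1 = N + 1 + m by ring] at this
    have h5 : 1 - a * p ^ (N + 2 + m) ≠ 0 := by have := ha (N + m + 1); rwa [show N + m + 1 + 1 = N + 2 + m by ring] at this
    rw [show N + 1 + (m + 1) = N + 2 + m by ring]
    field_simp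
    ring

def RR (a b c p : K) (N : ℕ) : K := (1 - a) * ∏ j ∈ range N,
  ((1 - a * p ^ (j + 1)) * (b * c - a * p ^ (j + 1)) / ((b - a * p ^ (j + 1)) * (c - a * p ^ (j + 1))))

/-- terminating 6φ5 -/
theorem sixfive (a b c p : K) (hp : ∀ j, 1 - p ^ (j + 1) ≠ 0) (hb : ∀ j, b - a * p ^ (j + 1) ≠ 0)
    (hc : ∀ j, c - a * p ^ (j + 1) ≠ 0) (ha : ∀ j, 1 - a * p ^ (j + 1) ≠ 0) (N : ℕ) :
    ∑ k ∈ range (N + 1), (1 - a * p ^ (2 * k)) * PP a b c p N k = RR a b c p N := by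
  induction N with
  | zero => simp [PP, RR]
  | succ N ih =>
    have h := tele a b c p hp hb hc ha N (N + 1)
    have hz : PP a b c p N (N + 1) = 0 := by
      rw [PP_succ, ff, sub_self]; simp
    rw [hz, mul_zero, sum_sub_distrib, ← mul_sum, ← mul_sum, sub_eq_zero] at h
    rw [sum_range_succ (fun k => (1 - a * p ^ (2 * k)) * PP a b c p N k), hz, mul_zero, add_zero, ih] at h
    have h2 := hb N
    have h3 := hc N
    rw [RR, prod_range_succ]
    rw [RR] at h
    have h23 : (b - a * p ^ (N + 1)) * (c - a * p ^ (N + 1)) ≠ 0 := mul_ne_zero h2 h3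
    apply mul_left_cancel₀ h23
    rw [h]
    field_simp

end identity

section spec

variable {R : Type*} [CommRing R]

def nn (Q : R) (N j : ℕ) : R :=
  (1 - Q ^ (4 * j + 2)) * (Q ^ (4 * N + 2) - Q ^ (4 * j + 2)) * (1 - Q ^ (4 * N + 4 * j + 4))

def dd (Q : R) (N j : ℕ) : R :=
  (1 - Q ^ (4 * j + 4)) * (Q ^ (4 * N + 2) - Q ^ (4 * j + 4)) * (1 - Q ^ (4 * N + 4 * j + 6)) * Q

def TT (Q : R) (N k : ℕ) : R :=
  (1 - Q ^ (8 * k + 2)) * ((∏ j ∈ range k, nn Q N j) * ∏ j ∈ Ico k N, dd Q N j)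

/-- statement (P) -/
def PState (Q : R) (N : ℕ) : Prop :=
  (∏ j ∈ range N, (1 - Q ^ (4 * j + 3))) * ∑ k ∈ range (N + 1), TT Q N k =
    (1 - Q ^ 2) * ∏ j ∈ range N, ((1 - Q ^ (4 * j + 6)) * (Q ^ (4 * N + 2) - Q ^ (4 * j + 1)) *
      (1 - Q ^ (4 * j + 4)) * (1 - Q ^ (4 * N + 4 * j + 6)) * Q)

end spec

section ring

variable {R : Type*} [CommRing R]

/-- X_k -/
def XX (Q : R) (N k : ℕ) : R :=
  (∏ j ∈ range k, (1 - Q ^ (4 * j + 2))) * ∏ j ∈ Ico k N, (1 - Q ^ (4 * j + 4))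

def cc (Q : R) (N k : ℕ) : R := (1 - Q ^ (8 * k + 2)) * XX Q N k ^ 3 * Q ^ (N - k)

lemma TT_eq (Q : R) (N k : ℕ) (hk : k ≤ N) (h : (Q ^ (4 * N + 2) - 1) ^ 2 = 0) :
    TT Q N k = (Q ^ (4 * N + 2)) ^ N * cc Q N k := by
  have h1 : ∀ j, nn Q N j = Q ^ (4 * N + 2) * (1 - Q ^ (4 * j + 2)) ^ 3 := by
    intro j
    rw [nn]
    have : Q ^ (4 * N + 4 * j + 4) = Q ^ (4 * N + 2) * Q ^ (4 * j + 2) := by ring
    rw [this]
    generalize Q ^ (4 * N + 2) = x at *
    generalize Q ^ (4 * j + 2) = y at *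
    linear_combination (-y * (1 - y)) * h
  have h2 : ∀ j, dd Q N j = Q ^ (4 * N + 2) * (1 - Q ^ (4 * j + 4)) ^ 3 * Q := by
    intro j
    rw [dd]
    have : Q ^ (4 * N + 4 * j + 6) = Q ^ (4 * N + 2) * Q ^ (4 * j + 4) := by ring
    rw [this]
    generalize Q ^ (4 * N + 2) = x at *
    generalize Q ^ (4 * j + 4) = y at *
    linear_combination (-y * (1 - y) * Q) * h
  rw [TT, cc, XX]
  simp_rw [h1, h2]
  rw [prod_mul_distrib, prod_mul_distrib, prod_mul_distrib, prod_const, prod_const, prod_const,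
    card_range, Nat.card_Ico, prod_pow, prod_pow]
  obtain ⟨l, rfl⟩ := Nat.exists_eq_add_of_le hk
  rw [Nat.add_sub_cancel_left]
  ring

lemma XX_symm (Q : R) (m k l : ℕ) (hkl : k + l = 2 * m) (h : Q ^ (4 * m + 1) = 1) :
    Q ^ (2 * k) * XX Q (2 * m) k = Q ^ (2 * m) * XX Q (2 * m) l := by
  have h1 : ∏ j ∈ range k, (1 - Q ^ (4 * j + 2)) =
      (∏ j ∈ range k, (- Q ^ (4 * j + 2))) * ∏ j ∈ Ico l (2 * m), (1 - Q ^ (4 * j + 4)) := by
    have : ∏ j ∈ Ico l (2 * m), (1 - Q ^ (4 * j + 4)) =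
        ∏ j ∈ range k, (1 - Q ^ (4 * (2 * m - 1 - j) + 4)) := by
      rcases Nat.eq_zero_or_pos m with rfl | hm
      · have : k = 0 := by omega
        have : l = 0 := by omega
        subst_vars; simp
      rw [range_eq_Ico, prod_Ico_reflect (fun i => 1 - Q ^ (4 * i + 4)) 0 (by omega)]
      congr 2 <;> omega
    rw [this, ← prod_mul_distrib]
    refine prod_congr rfl fun j hj => ?_
    have hj' := mem_range.1 hj
    have e : Q ^ (4 * j + 2) * Q ^ (4 * (2 * m - 1 - j) + 4) = 1 := by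
      rw [← pow_add, show 4 * j + 2 + (4 * (2 * m - 1 - j) + 4) = (4 * m + 1) * 2 by omega, pow_mul, h, one_pow]
    linear_combination (-1 : R) * e
  have h2 : ∏ j ∈ Ico k (2 * m), (1 - Q ^ (4 * j + 4)) =
      (∏ j ∈ Ico k (2 * m), (- Q ^ (4 * j + 4))) * ∏ j ∈ range l, (1 - Q ^ (4 * j + 2)) := by
    have : ∏ j ∈ range l, (1 - Q ^ (4 * j + 2)) =
        ∏ j ∈ Ico k (2 * m), (1 - Q ^ (4 * (2 * m - 1 - j) + 2)) := by
      rcases Nat.eq_zero_or_pos m with rfl | hm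
      · have : k = 0 := by omega
        have : l = 0 := by omega
        subst_vars; simp
      rw [range_eq_Ico, prod_Ico_reflect (fun i => 1 - Q ^ (4 * i + 2)) k (by omega)]
      congr 2 <;> omega
    rw [this, ← prod_mul_distrib]
    refine prod_congr rfl fun j hj => ?_
    have hj' := mem_Ico.1 hj
    have e : Q ^ (4 * j + 4) * Q ^ (4 * (2 * m - 1 - j) + 2) = 1 := by
      rw [← pow_add, show 4 * j + 4 + (4 * (2 * m - 1 - j) + 2) = (4 * m + 1) * 2 by omega, pow_mul, h, one_pow]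
    linear_combination (-1 : R) * e
  have h3 : Q ^ (2 * k) * ((∏ j ∈ range k, (- Q ^ (4 * j + 2))) * ∏ j ∈ Ico k (2 * m), (- Q ^ (4 * j + 4)))
      = Q ^ (2 * m) := by
    have key : ∀ l k : ℕ, Q ^ (2 * k) * ((∏ j ∈ range k, (- Q ^ (4 * j + 2))) *
        ∏ j ∈ Ico k (k + l), (- Q ^ (4 * j + 4))) = (-1) ^ (k + l) * Q ^ (2 * (k + l) * (k + l + 1)) := by
      intro l
      induction l with
      | zero =>
        intro k
        have : ∏ j ∈ range k, (- Q ^ (4 * j + 2)) = (-1) ^ k * Q ^ (2 * k ^ 2) := by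
          induction k with
          | zero => simp
          | succ k ih => rw [prod_range_succ, ih]; ring
        rw [add_zero, this, Ico_self, prod_empty]
        ring
      | succ l ih =>
        intro k
        rw [← add_assoc, prod_Ico_succ_top (by omega), ← mul_assoc, ← mul_assoc,
          mul_assoc (Q ^ (2 * k)), ih]
        ring
    have := key l k
    rw [hkl] at this
    rw [this, pow_mul, neg_one_sq, one_pow, one_mul]
    rw [show 2 * (2 * m) * (2 * m + 1) = (4 * m + 1) * (2 * m) + 2 * m by ring, pow_add, pow_mul, h,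
      one_pow, one_mul]
  rw [XX, XX, h1, h2, ← h3]
  ring

lemma cc_symm (Q : R) (m k l : ℕ) (hkl : k + l = 2 * m) (h : Q ^ (4 * m + 1) = 1) :
    cc Q (2 * m) k + cc Q (2 * m) l = 0 := by
  have hX := XX_symm Q m k l hkl h
  have hinv : Q * Q ^ (4 * m) = 1 := by rw [← h]; ring
  have hcan : ∀ x : R, Q ^ (6 * m) * x = 0 → x = 0 := by
    intro x hx
    have : (Q * Q ^ (4 * m)) ^ (6 * m) * x = (Q ^ (4 * m)) ^ (6 * m) * (Q ^ (6 * m) * x) := by
      rw [mul_pow]; ring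
    rw [hx, hinv, one_pow, one_mul, mul_zero] at this
    exact this
  apply hcan
  rw [cc, cc, show 2 * m - k = l by omega, show 2 * m - l = k by omega]
  have e1 : Q ^ (6 * m) * XX Q (2 * m) l ^ 3 = Q ^ (6 * k) * XX Q (2 * m) k ^ 3 := by
    have := congrArg (· ^ 3) hX
    simp only [mul_pow, ← pow_mul] at this
    rw [show 6 * m = 2 * m * 3 by ring, show 6 * k = 2 * k * 3 by ring]
    exact this.symm
  have e2 : Q ^ (7 * k) = Q ^ (11 * k + 4 * l + 2) := by
    have : Q ^ (11 * k + 4 * l + 2) = (Q ^ (4 * m + 1)) ^ 2 * Q ^ (7 * k) := by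
      rw [← pow_mul, ← pow_add]; congr 1; omega
    rw [this, h, one_pow, one_mul]
  have e3 : Q ^ (3 * k + 4 * l) = Q ^ (8 * l + 2 + 7 * k) := by
    have : Q ^ (8 * l + 2 + 7 * k) = (Q ^ (4 * m + 1)) ^ 2 * Q ^ (3 * k + 4 * l) := by
      rw [← pow_mul, ← pow_add]; congr 1; omega
    rw [this, h, one_pow, one_mul]
  have e4 : Q ^ (6 * m) = Q ^ (3 * k + 3 * l) := by congr 1; omega
  calc Q ^ (6 * m) * ((1 - Q ^ (8 * k + 2)) * XX Q (2 * m) k ^ 3 * Q ^ l +
        (1 - Q ^ (8 * l + 2)) * XX Q (2 * m) l ^ 3 * Q ^ k)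
      = Q ^ (6 * m) * ((1 - Q ^ (8 * k + 2)) * XX Q (2 * m) k ^ 3 * Q ^ l) +
        (Q ^ (6 * m) * XX Q (2 * m) l ^ 3) * ((1 - Q ^ (8 * l + 2)) * Q ^ k) := by ring
    _ = Q ^ (3 * k + 3 * l) * ((1 - Q ^ (8 * k + 2)) * XX Q (2 * m) k ^ 3 * Q ^ l) +
        (Q ^ (6 * k) * XX Q (2 * m) k ^ 3) * ((1 - Q ^ (8 * l + 2)) * Q ^ k) := by rw [e1, e4]
    _ = XX Q (2 * m) k ^ 3 * ((Q ^ (3 * k + 4 * l) - Q ^ (11 * k + 4 * l + 2)) +
          (Q ^ (7 * k) - Q ^ (8 * l + 2 + 7 * k))) := by ring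
    _ = 0 := by rw [e2, e3]; ring

lemma one_add_pow_sq_zero (d : R) (hd : d ^ 2 = 0) (r : ℕ) : (1 + d) ^ r = 1 + r * d := by
  induction r with
  | zero => simp
  | succ r ih =>
    rw [pow_succ, ih]
    push_cast
    linear_combination (r : R) * hd

/-- main ring statement -/
theorem ring_main (Q : R) (m : ℕ) (hm : 1 ≤ m) (hP : PState Q (2 * m))
    (hδ : (Q ^ (4 * m + 1) - 1) ^ 2 = 0)
    (hu : ∀ j, ¬ (4 * m + 1) ∣ j → IsUnit (1 - Q ^ j)) (h2 : IsUnit (2 : R)) :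
    ∑ k ∈ range (2 * m + 1), (1 - Q ^ (8 * k + 2)) * XX Q (2 * m) k ^ 3 *
      Q ^ ((2 * m - k) * (1 + (4 * m + 1) * k)) = 0 := by
  set d := Q ^ (4 * m + 1) - 1 with hd
  have hQn : Q ^ (4 * m + 1) = 1 + d := by rw [hd]; ring
  have hQunit : IsUnit Q := by
    have : Q * (Q ^ (4 * m) * (1 - d)) = 1 := by
      have : Q * (Q ^ (4 * m) * (1 - d)) = Q ^ (4 * m + 1) * (1 - d) := by ring
      rw [this, hQn]
      linear_combination (-1 : R) * hδ
    exact IsUnit.of_mul_eq_one _ this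
  have hx : (Q ^ (4 * (2 * m) + 2) - 1) ^ 2 = 0 := by
    have : Q ^ (4 * (2 * m) + 2) = (Q ^ (4 * m + 1)) ^ 2 := by ring
    rw [this, hQn]
    linear_combination (4 + 4 * d + d ^ 2) * hδ
  -- first sum
  have hS1 : ∑ k ∈ range (2 * m + 1), cc Q (2 * m) k = 0 := by
    have hT : ∑ k ∈ range (2 * m + 1), TT Q (2 * m) k = 0 := by
      have hprod : IsUnit (∏ j ∈ range (2 * m), (1 - Q ^ (4 * j + 3))) := by
        refine Finset.prod_induction _ IsUnit (fun _ _ => IsUnit.mul) isUnit_one ?_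
        intro j hj
        apply hu
        intro hdvd
        have hj' := mem_range.1 hj
        obtain ⟨c, hc⟩ := hdvd
        have : c < 2 := by
          by_contra h
          have : (4 * m + 1) * 2 ≤ (4 * m + 1) * c := Nat.mul_le_mul_left _ (by omega)
          omega
        interval_cases c <;> omega
      have hz : (1 - Q ^ 2) * ∏ j ∈ range (2 * m), ((1 - Q ^ (4 * j + 6)) *
          (Q ^ (4 * (2 * m) + 2) - Q ^ (4 * j + 1)) *
          (1 - Q ^ (4 * j + 4)) * (1 - Q ^ (4 * (2 * m) + 4 * j + 6)) * Q) = 0 := by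
        rw [prod_mul_distrib, prod_mul_distrib, prod_mul_distrib, prod_mul_distrib]
        have f1 : ∃ A : R, ∏ j ∈ range (2 * m), (1 - Q ^ (4 * j + 6)) = d * A := by
          have hmem : 2 * m - 1 ∈ range (2 * m) := mem_range.2 (by omega)
          rw [← mul_prod_erase _ _ hmem]
          rw [show 4 * (2 * m - 1) + 6 = (4 * m + 1) * 2 by omega, pow_mul, hQn]
          exact ⟨(-2 - d) * _, by rw [← mul_assoc]; congr 1; ring⟩
        have f2 : ∃ A : R, ∏ j ∈ range (2 * m), (Q ^ (4 * (2 * m) + 2) - Q ^ (4 * j + 1)) = d * A := by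
          have hmem : m ∈ range (2 * m) := mem_range.2 (by omega)
          rw [← mul_prod_erase _ _ hmem]
          rw [show 4 * (2 * m) + 2 = (4 * m + 1) * 2 by ring, pow_mul, hQn]
          exact ⟨(1 + d) * _, by rw [← mul_assoc]; congr 1; ring⟩
        obtain ⟨A, hA⟩ := f1
        obtain ⟨B, hB⟩ := f2
        rw [hA, hB]
        have : (d * A) * (d * B) = 0 := by linear_combination (A * B) * hδ
        rw [this]; ring
      have := hP
      rw [PState, hz] at this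
      exact (hprod.mul_right_eq_zero).1 this
    rw [sum_congr rfl (fun k hk => TT_eq Q (2 * m) k (by have := mem_range.1 hk; omega) hx), ← mul_sum] at hT
    exact ((hQunit.pow _).pow _).mul_right_eq_zero.1 hT
  -- antisymmetry
  have hsym : ∀ k l, k + l = 2 * m → d * (cc Q (2 * m) k + cc Q (2 * m) l) = 0 := by
    intro k l hkl
    let I := Ideal.span ({d} : Set R)
    have hmem : cc Q (2 * m) k + cc Q (2 * m) l ∈ I := by
      rw [← Ideal.Quotient.eq_zero_iff_mem]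
      have hmap : ∀ i, Ideal.Quotient.mk I (cc Q (2 * m) i) = cc (Ideal.Quotient.mk I Q) (2 * m) i := by
        intro i
        simp [cc, XX, map_prod]
      rw [map_add, hmap, hmap]
      apply cc_symm _ _ _ _ hkl
      rw [← map_pow, hQn, map_add, map_one, (Ideal.Quotient.eq_zero_iff_mem).2 (Ideal.mem_span_singleton_self d), add_zero]
    obtain ⟨A, hA⟩ := Ideal.mem_span_singleton.1 hmem
    rw [hA]
    linear_combination A * hδ
  have hS2 : ∑ k ∈ range (2 * m + 1), ((k * (2 * m - k) : ℕ) : R) * (d * cc Q (2 * m) k) = 0 := by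
    apply h2.mul_right_eq_zero.1
    rw [two_mul]
    nth_rewrite 2 [← sum_range_reflect]
    rw [← sum_add_distrib]
    apply sum_eq_zero
    intro k hk
    have hk' := mem_range.1 hk
    have hkl : k + (2 * m - k) = 2 * m := by omega
    rw [show 2 * m + 1 - 1 - k = 2 * m - k by omega, show 2 * m - (2 * m - k) = k by omega, mul_comm (2 * m - k) k,
      ← mul_add, ← mul_add, hsym _ _ hkl, mul_zero]
  calc ∑ k ∈ range (2 * m + 1), (1 - Q ^ (8 * k + 2)) * XX Q (2 * m) k ^ 3 *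
      Q ^ ((2 * m - k) * (1 + (4 * m + 1) * k))
      = ∑ k ∈ range (2 * m + 1), (cc Q (2 * m) k + ((k * (2 * m - k) : ℕ) : R) * (d * cc Q (2 * m) k)) := by
        apply sum_congr rfl
        intro k _
        have e : Q ^ ((2 * m - k) * (1 + (4 * m + 1) * k)) =
            Q ^ (2 * m - k) * (Q ^ (4 * m + 1)) ^ (k * (2 * m - k)) := by
          rw [← pow_mul, ← pow_add]; congr 1; ring
        rw [e, hQn, one_add_pow_sq_zero d hδ, cc]
        ring
    _ = 0 := by rw [sum_add_distrib, hS1, hS2, add_zero]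

end ring

section field

variable {K : Type*} [Field K]

lemma PState_field (Q : K) (hQ0 : Q ≠ 0) (hQ : ∀ j : ℕ, Q ^ (j + 1) ≠ 1) (N : ℕ) : PState Q N := by
  have hne : ∀ i j : ℕ, i < j → Q ^ i - Q ^ j ≠ 0 := by
    intro i j hij h
    obtain ⟨l, rfl⟩ := Nat.exists_eq_add_of_lt hij
    have : Q ^ i * (1 - Q ^ (l + 1)) = 0 := by
      rw [← h]; ring
    rcases mul_eq_zero.1 this with h1 | h1
    · exact pow_ne_zero _ hQ0 h1
    · exact hQ l (sub_eq_zero.1 h1).symm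
  have hne' : ∀ i j : ℕ, i ≠ j → Q ^ i - Q ^ j ≠ 0 := by
    intro i j hij
    rcases lt_or_gt_of_ne hij with h | h
    · exact hne i j h
    · intro h0
      apply hne j i h
      rw [← neg_sub, h0, neg_zero]
  have hone : ∀ j : ℕ, 0 < j → 1 - Q ^ j ≠ 0 := by
    intro j hj
    have := hne' 0 j (by omega)
    rwa [pow_zero] at this
  have hp : ∀ j : ℕ, 1 - (Q ^ 4) ^ (j + 1) ≠ 0 := by
    intro j; rw [← pow_mul]; exact hone _ (by omega)
  have hb : ∀ j : ℕ, Q ^ (4 * N + 4) - Q ^ 2 * (Q ^ 4) ^ (j + 1) ≠ 0 := by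
    intro j; rw [← pow_mul, ← pow_add]; exact hne' _ _ (by omega)
  have hc : ∀ j : ℕ, Q ^ 3 - Q ^ 2 * (Q ^ 4) ^ (j + 1) ≠ 0 := by
    intro j; rw [← pow_mul, ← pow_add]; exact hne' _ _ (by omega)
  have ha : ∀ j : ℕ, 1 - Q ^ 2 * (Q ^ 4) ^ (j + 1) ≠ 0 := by
    intro j; rw [← pow_mul, ← pow_add]; exact hone _ (by omega)
  have main := sixfive (Q ^ 2) (Q ^ (4 * N + 4)) (Q ^ 3) (Q ^ 4) hp hb hc ha N
  have hdd : ∀ j : ℕ, dd Q N j ≠ 0 := by
    intro j
    rw [dd]
    exact mul_ne_zero (mul_ne_zero (mul_ne_zero (hone _ (by omega)) (hne' _ _ (by omega))) (hone _ (by omega))) hQ0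
  have hff : ∀ j : ℕ, ff (Q ^ 2) (Q ^ (4 * N + 4)) (Q ^ 3) (Q ^ 4) N j = nn Q N j / dd Q N j := by
    intro j
    have h1 := hone (4 * j + 4) (by omega)
    have h2 : Q ^ (4 * N + 2) - Q ^ (4 * j + 4) ≠ 0 := hne' _ _ (by omega)
    have h3 := hone (4 * N + 4 * j + 6) (by omega)
    have h4 := hone (4 * j + 3) (by omega)
    rw [ff, nn, dd]
    have e1 : 1 - Q ^ 2 * (Q ^ 4) ^ j = 1 - Q ^ (4 * j + 2) := by ring
    have e2 : 1 - Q ^ (4 * N + 4) * (Q ^ 4) ^ j = 1 - Q ^ (4 * N + 4 * j + 4) := by ring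
    have e3 : 1 - Q ^ 3 * (Q ^ 4) ^ j = 1 - Q ^ (4 * j + 3) := by ring
    have e4 : ((Q ^ 4) ^ N - (Q ^ 4) ^ j) * (Q ^ 2 * Q ^ 4) = Q ^ 4 * (Q ^ (4 * N + 2) - Q ^ (4 * j + 2)) := by ring
    have e5 : 1 - (Q ^ 4) ^ (j + 1) = 1 - Q ^ (4 * j + 4) := by ring
    have e6 : Q ^ (4 * N + 4) - Q ^ 2 * (Q ^ 4) ^ (j + 1) = Q ^ 2 * (Q ^ (4 * N + 2) - Q ^ (4 * j + 4)) := by ring
    have e7 : Q ^ 3 - Q ^ 2 * (Q ^ 4) ^ (j + 1) = Q ^ 3 * (1 - Q ^ (4 * j + 3)) := by ring
    have e8 : 1 - Q ^ 2 * (Q ^ 4) ^ (N + 1 + j) = 1 - Q ^ (4 * N + 4 * j + 6) := by ring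
    rw [e1, e2, e3, e5, e6, e7, e8, mul_assoc _ ((Q ^ 4) ^ N - (Q ^ 4) ^ j), e4]
    generalize 1 - Q ^ (4 * j + 4) = A1 at *
    generalize Q ^ (4 * N + 2) - Q ^ (4 * j + 4) = A2 at *
    generalize 1 - Q ^ (4 * N + 4 * j + 6) = A3 at *
    generalize 1 - Q ^ (4 * j + 3) = A4 at *
    generalize 1 - Q ^ (4 * j + 2) = A5 at *
    generalize 1 - Q ^ (4 * N + 4 * j + 4) = A6 at *
    generalize Q ^ (4 * N + 2) - Q ^ (4 * j + 2) = A7 at *
    rw [div_eq_div_iff (by simp only [ne_eq, mul_eq_zero, not_or, pow_eq_zero_iff (two_ne_zero), pow_eq_zero_iff (three_ne_zero)]; tauto)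
      (by simp only [ne_eq, mul_eq_zero, not_or]; tauto)]
    ring
  have hPP : ∀ k ∈ range (N + 1), (∏ j ∈ range N, dd Q N j) *
      ((1 - Q ^ 2 * (Q ^ 4) ^ (2 * k)) * PP (Q ^ 2) (Q ^ (4 * N + 4)) (Q ^ 3) (Q ^ 4) N k) = TT Q N k := by
    intro k hk
    have hk' : k ≤ N := by have := mem_range.1 hk; omega
    rw [PP, prod_congr rfl (fun j _ => hff j), prod_div_distrib, TT, ← prod_range_mul_prod_Ico _ hk']
    have h0 : ∏ j ∈ range k, dd Q N j ≠ 0 := prod_ne_zero_iff.2 fun j _ => hdd j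
    have e : 1 - Q ^ 2 * (Q ^ 4) ^ (2 * k) = 1 - Q ^ (8 * k + 2) := by ring
    rw [e]
    field_simp
  rw [PState, ← sum_congr rfl hPP, ← mul_sum, main, RR, ← mul_assoc, ← prod_mul_distrib,
    mul_left_comm, ← prod_mul_distrib]
  congr 1
  apply prod_congr rfl
  intro j _
  have h2 : Q ^ (4 * N + 2) - Q ^ (4 * j + 4) ≠ 0 := hne' _ _ (by omega)
  have h4 := hone (4 * j + 3) (by omega)
  have e1 : 1 - Q ^ 2 * (Q ^ 4) ^ (j + 1) = 1 - Q ^ (4 * j + 6) := by ring
  have e2 : Q ^ (4 * N + 4) * Q ^ 3 - Q ^ 2 * (Q ^ 4) ^ (j + 1) = Q ^ 5 * (Q ^ (4 * N + 2) - Q ^ (4 * j + 1)) := by ring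
  have e6 : Q ^ (4 * N + 4) - Q ^ 2 * (Q ^ 4) ^ (j + 1) = Q ^ 2 * (Q ^ (4 * N + 2) - Q ^ (4 * j + 4)) := by ring
  have e7 : Q ^ 3 - Q ^ 2 * (Q ^ 4) ^ (j + 1) = Q ^ 3 * (1 - Q ^ (4 * j + 3)) := by ring
  rw [e1, e2, e6, e7, dd]
  generalize 1 - Q ^ (4 * j + 4) = A1 at *
  generalize Q ^ (4 * N + 2) - Q ^ (4 * j + 4) = A2 at *
  generalize 1 - Q ^ (4 * j + 3) = A4 at *
  field_simp

end field

section poly

lemma PState_map {R S : Type*} [CommRing R] [CommRing S] (f : R →+* S) (Q : R) (N : ℕ)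
    (h : PState Q N) : PState (f Q) N := by
  have := congrArg f h
  simpa only [PState, TT, nn, dd, map_mul, map_prod, map_sum, map_sub, map_one, map_pow] using this

lemma PState_map_inj {R S : Type*} [CommRing R] [CommRing S] (f : R →+* S) (hf : Function.Injective f) (Q : R) (N : ℕ)
    (h : PState (f Q) N) : PState Q N := by
  apply hf
  simpa only [PState, TT, nn, dd, map_mul, map_prod, map_sum, map_sub, map_one, map_pow] using h

lemma PState_poly (N : ℕ) : PState (X : ℤ[X]) N := by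
  have hinj : Function.Injective (algebraMap ℤ[X] (FractionRing ℤ[X])) :=
    IsFractionRing.injective _ _
  apply PState_map_inj (algebraMap ℤ[X] (FractionRing ℤ[X])) hinj
  apply PState_field
  · intro h
    rw [map_eq_zero_iff _ hinj] at h
    exact X_ne_zero h
  · intro j h
    rw [← map_pow, ← map_one (algebraMap ℤ[X] (FractionRing ℤ[X]))] at h
    have h' := hinj h
    have := congrArg natDegree h'
    simp at this

theorem PState_all {R : Type*} [CommRing R] (Q : R) (N : ℕ) : PState Q N := by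
  have := PState_map (Polynomial.aeval (R := ℤ) Q).toRingHom X N (PState_poly N)
  simpa using this

end poly

section final

/-- numerator U (variable q = X) -/
noncomputable def WW (m k : ℕ) : ℤ[X] :=
  (∏ j ∈ range k, (1 - X ^ (2 * j + 1))) * ∏ j ∈ Ico k (2 * m), (1 - X ^ (2 * j + 2))

noncomputable def UU (m : ℕ) : ℤ[X] :=
  ∑ k ∈ range (2 * m + 1), (∑ i ∈ range (4 * k + 1), X ^ i) * WW m k ^ 3 *
    X ^ ((2 * m - k) * (1 + (4 * m + 1) * k) / 2)

noncomputable def VV (m : ℕ) : ℤ[X] :=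
  X ^ m * (∏ j ∈ range (2 * m), (1 - X ^ (2 * j + 2))) ^ 3

lemma even_exp (m k : ℕ) (hk : k ≤ 2 * m) : 2 * ((2 * m - k) * (1 + (4 * m + 1) * k) / 2) =
    (2 * m - k) * (1 + (4 * m + 1) * k) := by
  apply Nat.mul_div_cancel'
  rcases Nat.even_or_odd k with h | h
  · apply Dvd.dvd.mul_right
    obtain ⟨c, hc⟩ := h
    omega
  · apply Dvd.dvd.mul_left
    obtain ⟨c, hc⟩ := h
    subst hc
    exact ⟨1 + 2 * m + c + 4 * m * c, by ring⟩

/-- U(Q^2) = 0 in rings with (Q^n-1)^2=0 -/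
theorem UU_eval {R : Type*} [CommRing R] (Q : R) (m : ℕ) (hm : 1 ≤ m)
    (hδ : (Q ^ (4 * m + 1) - 1) ^ 2 = 0)
    (hu : ∀ j, ¬ (4 * m + 1) ∣ j → IsUnit (1 - Q ^ j)) (h2 : IsUnit (2 : R)) :
    aeval (Q ^ 2) (UU m) = 0 := by
  have hmain := ring_main Q m hm (PState_all Q (2 * m)) hδ hu h2
  have hunit : IsUnit (1 - Q ^ 2) := hu 2 (by
    intro h
    have := Nat.le_of_dvd (by norm_num) h
    omega)
  apply hunit.mul_right_eq_zero.1
  rw [← hmain, UU, map_sum, mul_sum]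
  apply sum_congr rfl
  intro k hk
  have hk' : k ≤ 2 * m := by have := mem_range.1 hk; omega
  have hW : aeval (Q ^ 2) (WW m k) = XX Q (2 * m) k := by
    simp only [WW, XX, map_mul, map_prod, map_sub, map_one, map_pow, aeval_X, ← pow_mul]
    congr 1
    · exact prod_congr rfl fun j _ => by rw [show 2 * (2 * j + 1) = 4 * j + 2 by ring]
    · exact prod_congr rfl fun j _ => by rw [show 2 * (2 * j + 2) = 4 * j + 4 by ring]
  have hgeo : (1 - Q ^ 2) * ∑ i ∈ range (4 * k + 1), (Q ^ 2) ^ i = 1 - Q ^ (8 * k + 2) := by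
    have := geom_sum_mul (Q ^ 2) (4 * k + 1)
    have e : (Q ^ 2) ^ (4 * k + 1) = Q ^ (8 * k + 2) := by rw [← pow_mul]; congr 1; ring
    rw [e] at this
    linear_combination (-1 : R) * this
  rw [map_mul, map_mul, map_pow, hW, map_sum, map_pow, aeval_X, ← pow_mul, even_exp m k hk', ← hgeo]
  simp only [map_pow, aeval_X]
  ring

/-- Φ_n^2 ∣ U -/
theorem dvd_UU (m : ℕ) (hm : 1 ≤ m) : cyclotomic (4 * m + 1) ℤ ^ 2 ∣ UU m := by
  set n := 4 * m + 1 with hn
  have hn0 : n ≠ 0 := by omega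
  have hnpos : 0 < n := by omega
  let ω : ℂ := Complex.exp (2 * Real.pi * Complex.I / n)
  have hω : IsPrimitiveRoot ω n := Complex.isPrimitiveRoot_exp n hn0
  have hζ : IsPrimitiveRoot (ω ^ 2) n := by
    apply hω.pow_of_coprime
    rw [Nat.coprime_comm, Nat.coprime_two_right]
    exact ⟨2 * m, by omega⟩
  have hω0 : ω ≠ 0 := hω.ne_zero hn0
  let ε : DualNumber ℂ := DualNumber.eps
  let o : DualNumber ℂ := algebraMap ℂ (DualNumber ℂ) ω
  have hε : ε * ε = 0 := DualNumber.eps_mul_eps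
  have hsq : ∀ x : DualNumber ℂ, x.fst = 0 → x ^ 2 = 0 := by
    intro x hx
    ext
    · simp [pow_two, hx]
    · simp [pow_two, hx]
  have hfst : ∀ j : ℕ, ((o + ε) ^ j).fst = ω ^ j := by
    intro j
    have h1 : (o + ε).fst = ω := by
      rw [TrivSqZeroExt.fst_add, DualNumber.fst_eps, add_zero]
      rfl
    rw [TrivSqZeroExt.fst_pow, h1]
  have hev : aeval ((o + ε) ^ 2) (UU m) = 0 := by
    apply UU_eval (o + ε) m hm
    · apply hsq
      rw [TrivSqZeroExt.fst_sub, hfst, ← hn, hω.pow_eq_one, TrivSqZeroExt.fst_one, sub_self]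
    · intro j hj
      rw [TrivSqZeroExt.isUnit_iff_isUnit_fst, TrivSqZeroExt.fst_sub, hfst, TrivSqZeroExt.fst_one,
        isUnit_iff_ne_zero, sub_ne_zero]
      intro h
      exact hj ((hω.pow_eq_one_iff_dvd j).1 h.symm)
    · rw [TrivSqZeroExt.isUnit_iff_isUnit_fst]
      have : (2 : DualNumber ℂ).fst = 2 := by
        have : (2 : DualNumber ℂ) = 1 + 1 := by norm_num
        rw [this, TrivSqZeroExt.fst_add, TrivSqZeroExt.fst_one]; norm_num
      rw [this]
      exact isUnit_iff_ne_zero.2 two_ne_zero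
  have hexp : (o + ε) ^ 2 = algebraMap ℂ (DualNumber ℂ) (ω ^ 2) + algebraMap ℂ (DualNumber ℂ) (2 * ω) * ε := by
    simp only [map_pow, map_mul, map_ofNat]
    linear_combination hε
  have hy : (algebraMap ℂ (DualNumber ℂ) (2 * ω) * ε) ^ 2 = 0 := by
    rw [mul_pow, pow_two ε, hε, mul_zero]
  rw [hexp, Polynomial.aeval_add_of_sq_eq_zero _ _ _ hy, aeval_algebraMap_apply, aeval_algebraMap_apply] at hev
  have h0 : aeval (ω ^ 2) (UU m) = 0 := by
    have := congrArg TrivSqZeroExt.fst hev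
    rw [TrivSqZeroExt.fst_add, TrivSqZeroExt.fst_mul, TrivSqZeroExt.fst_mul, DualNumber.fst_eps, mul_zero, mul_zero,
      add_zero, TrivSqZeroExt.fst_zero] at this
    exact this
  have h1 : aeval (ω ^ 2) (derivative (UU m)) = 0 := by
    have h2 : algebraMap ℂ (DualNumber ℂ) (aeval (ω ^ 2) (derivative (UU m))) *
        (algebraMap ℂ (DualNumber ℂ) (2 * ω) * ε) = 0 := by
      rw [h0, map_zero, zero_add] at hev
      exact hev
    rw [← mul_assoc, ← map_mul] at h2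
    have := congrArg TrivSqZeroExt.snd h2
    rw [DualNumber.snd_mul, DualNumber.snd_eps, mul_one, TrivSqZeroExt.snd_zero, DualNumber.fst_eps, mul_zero, add_zero] at this
    have h3 : aeval (ω ^ 2) (derivative (UU m)) * (2 * ω) = 0 := this
    exact (mul_eq_zero.1 h3).resolve_right (mul_ne_zero two_ne_zero hω0)
  have hmin : cyclotomic n ℤ = minpoly ℤ (ω ^ 2) := cyclotomic_eq_minpoly hζ hnpos
  have hint : IsIntegral ℤ (ω ^ 2) := hζ.isIntegral hnpos
  have hd : cyclotomic n ℤ ∣ UU m := by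
    rw [hmin]
    exact (minpoly.isIntegrallyClosed_dvd_iff hint _).1 h0
  obtain ⟨W, hW⟩ := hd
  have hΦ0 : aeval (ω ^ 2) (cyclotomic n ℤ) = 0 := by
    rw [hmin]; exact minpoly.aeval _ _
  have hΦ1 : aeval (ω ^ 2) (derivative (cyclotomic n ℤ)) ≠ 0 := by
    have : NeZero ((n : ℕ) : ℂ) := ⟨by exact_mod_cast hn0⟩
    have hsep := separable_cyclotomic n ℂ
    have h2 : aeval (ω ^ 2) (cyclotomic n ℂ) = 0 := by
      rw [← map_cyclotomic_int, ← algebraMap_int_eq, aeval_map_algebraMap]; exact hΦ0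
    have h3 := hsep.aeval_derivative_ne_zero h2
    rw [← map_cyclotomic_int, derivative_map, ← algebraMap_int_eq, aeval_map_algebraMap] at h3
    exact h3
  have hWz : aeval (ω ^ 2) W = 0 := by
    rw [hW, derivative_mul, map_add, map_mul, map_mul, hΦ0, zero_mul, add_zero] at h1
    exact (mul_eq_zero.1 h1).resolve_left hΦ1
  have hdW : cyclotomic n ℤ ∣ W := by
    rw [hmin]
    exact (minpoly.isIntegrallyClosed_dvd_iff hint _).1 hWz
  rw [hW, pow_two]
  exact mul_dvd_mul_left _ hdW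

theorem VV_relPrime (m : ℕ) : IsRelPrime (VV m) (cyclotomic (4 * m + 1) ℤ ^ 2) := by
  set n := 4 * m + 1 with hn
  have hn0 : n ≠ 0 := by omega
  have hnpos : 0 < n := by omega
  apply IsRelPrime.pow_right
  rw [isRelPrime_comm, (cyclotomic.irreducible hnpos).isRelPrime_iff_not_dvd]
  intro hdvd
  let ω : ℂ := Complex.exp (2 * Real.pi * Complex.I / n)
  have hω : IsPrimitiveRoot ω n := Complex.isPrimitiveRoot_exp n hn0
  have hmin : cyclotomic n ℤ = minpoly ℤ ω := cyclotomic_eq_minpoly hω hnpos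
  have h0 : aeval ω (cyclotomic n ℤ) = 0 := by
    rw [hmin]; exact minpoly.aeval _ _
  obtain ⟨W, hW⟩ := hdvd
  have h1 : aeval ω (VV m) = 0 := by rw [hW, map_mul, h0, zero_mul]
  simp only [VV, map_mul, map_pow, map_prod, map_sub, map_one, aeval_X] at h1
  rcases mul_eq_zero.1 h1 with h | h
  · exact hω.ne_zero hn0 (pow_eq_zero_iff (by
      rintro rfl
      simp at h) |>.1 h)
  · have h' := pow_eq_zero_iff (three_ne_zero) |>.1 h
    obtain ⟨j, hj, hj0⟩ := prod_eq_zero_iff.1 h'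
    have hj' := mem_range.1 hj
    have : n ∣ 2 * j + 2 := (hω.pow_eq_one_iff_dvd _).1 (sub_eq_zero.1 hj0).symm
    obtain ⟨c, hc⟩ := this
    have hc1 : c < 2 := by
      by_contra hcon
      have : n * 2 ≤ n * c := Nat.mul_le_mul_left _ (by omega)
      omega
    interval_cases c <;> omega

end final

section conclusion

/-- the ring map `ℤ[q] → ℚ(q)` -/
noncomputable def emb : ℤ[X] →+* RatFunc ℚ :=
  (algebraMap ℚ[X] (RatFunc ℚ)).comp (mapRingHom (Int.castRingHom ℚ))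

lemma emb_apply (p : ℤ[X]) : emb p = algebraMap ℚ[X] (RatFunc ℚ) (p.map (Int.castRingHom ℚ)) := rfl

lemma emb_X : emb X = RatFunc.X := by
  rw [emb_apply, map_X, RatFunc.algebraMap_X]

lemma emb_injective : Function.Injective emb := by
  have h1 : Function.Injective (algebraMap ℚ[X] (RatFunc ℚ)) := IsFractionRing.injective _ _
  have h2 : Function.Injective (mapRingHom (Int.castRingHom ℚ)) := map_injective _ Int.cast_injective
  exact h1.comp h2

lemma one_sub_X_pow_ne (j : ℕ) (hj : 0 < j) : (1 - (RatFunc.X : RatFunc ℚ) ^ j) ≠ 0 := by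
  rw [← emb_X, ← map_pow, ← map_one emb, ← map_sub]
  intro h
  rw [map_eq_zero_iff _ emb_injective, sub_eq_zero] at h
  have := congrArg natDegree h
  simp at this
  omega

lemma S_eq (m : ℕ) : S (4 * m + 1) = emb (UU m) / emb (VV m) := by
  have hX : (RatFunc.X : RatFunc ℚ) ≠ 0 := RatFunc.X_ne_zero
  rw [S, UU, map_sum, Finset.sum_div, show (4 * m + 1 - 1) / 2 = 2 * m by omega]
  apply sum_congr rfl
  intro k hk
  have hk' : k ≤ 2 * m := by have := mem_range.1 hk; omega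
  have h1 : qInt (4 * k + 1) = emb (∑ i ∈ range (4 * k + 1), X ^ i) := by
    rw [map_sum, qInt, div_eq_iff (by simpa using one_sub_X_pow_ne 1 one_pos)]
    simp only [map_pow, emb_X]
    have := geom_sum_mul (RatFunc.X : RatFunc ℚ) (4 * k + 1)
    linear_combination this
  have h2 : qPoch RatFunc.X (RatFunc.X ^ 2) k = ∏ j ∈ range k, (1 - (RatFunc.X : RatFunc ℚ) ^ (2 * j + 1)) := by
    rw [qPoch]
    exact prod_congr rfl fun j _ => by ring
  have h3 : ∀ i, qPoch (RatFunc.X ^ 2) (RatFunc.X ^ 2) i = ∏ j ∈ range i, (1 - (RatFunc.X : RatFunc ℚ) ^ (2 * j + 2)) := by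
    intro i
    rw [qPoch]
    exact prod_congr rfl fun j _ => by ring
  have h4 : emb (WW m k) = (∏ j ∈ range k, (1 - (RatFunc.X : RatFunc ℚ) ^ (2 * j + 1))) *
      ∏ j ∈ Ico k (2 * m), (1 - (RatFunc.X : RatFunc ℚ) ^ (2 * j + 2)) := by
    simp only [WW, map_mul, map_prod, map_sub, map_one, map_pow, emb_X]
  have h5 : emb (VV m) = RatFunc.X ^ m * (∏ j ∈ range (2 * m), (1 - (RatFunc.X : RatFunc ℚ) ^ (2 * j + 2))) ^ 3 := by
    simp only [VV, map_mul, map_prod, map_sub, map_one, map_pow, emb_X]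
  have h6 : expo (4 * m + 1) k = (((2 * m - k) * (1 + (4 * m + 1) * k) / 2 : ℕ) : ℤ) - (m : ℤ) := by
    have he := even_exp m k hk'
    rw [expo]
    apply Int.ediv_eq_of_eq_mul_right (by norm_num)
    have he' : (2 : ℤ) * (((2 * m - k) * (1 + (4 * m + 1) * k) / 2 : ℕ) : ℤ) =
        (2 * (m : ℤ) - k) * (1 + (4 * m + 1) * k) := by
      have := congrArg (Nat.cast (R := ℤ)) he
      rw [Nat.cast_mul, Nat.cast_mul, Nat.cast_sub hk'] at this
      push_cast at this ⊢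
      exact this
    push_cast at he' ⊢
    linear_combination (-2 : ℤ) * he'
  have hne : ∀ s : Finset ℕ, ∏ j ∈ s, (1 - (RatFunc.X : RatFunc ℚ) ^ (2 * j + 2)) ≠ 0 := by
    intro s
    exact prod_ne_zero_iff.2 fun j _ => one_sub_X_pow_ne _ (by omega)
  rw [map_mul, map_mul, map_pow emb (WW m k), ← h1, h2, h3, h4, h5, h6, map_pow, emb_X, zpow_sub₀ hX, zpow_natCast,
    zpow_natCast, ← prod_range_mul_prod_Ico _ hk']
  have hA := hne (range k)
  have hB := hne (Ico k (2 * m))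
  have hC : (RatFunc.X : RatFunc ℚ) ^ m ≠ 0 := pow_ne_zero _ hX
  generalize ∏ j ∈ range k, (1 - (RatFunc.X : RatFunc ℚ) ^ (2 * j + 2)) = A at *
  generalize ∏ j ∈ Ico k (2 * m), (1 - (RatFunc.X : RatFunc ℚ) ^ (2 * j + 2)) = B at *
  generalize (RatFunc.X : RatFunc ℚ) ^ m = C at *
  field_simp

/-- **Full answer to Q1.**  For `n ≡ 1 (mod 4)` the congruence `S_n(q) ≡ 0 (mod Φ_n(q)^2)`
holds for every `n ≠ 1`; for `n = 1` (where `S_1 = 1`) it fails. -/
theorem result (n : ℕ) (hn : n % 4 = 1) :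
    CongrZero (S n) (cyclotomic n ℤ ^ 2) ↔ n ≠ 1 := by
  obtain ⟨m, rfl⟩ : ∃ m, n = 4 * m + 1 := ⟨n / 4, by omega⟩
  constructor
  · rintro ⟨U, V, hrel, hdvd, hS⟩ h1
    have hm : m = 0 := by omega
    subst hm
    have hS1 : S (4 * 0 + 1) = 1 := by
      rw [S_eq]
      have : UU 0 = VV 0 := by simp [UU, VV, WW]
      rw [this]
      apply div_self
      rw [Ne, map_eq_zero_iff _ emb_injective]
      simp [VV]
    rw [hS1] at hS
    have hV : emb V ≠ 0 := by
      intro h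
      rw [← emb_apply, ← emb_apply, h, div_zero] at hS
      exact one_ne_zero hS
    rw [← emb_apply, ← emb_apply, eq_div_iff hV, one_mul] at hS
    have hUV := emb_injective hS
    rw [← hUV] at hdvd
    have hu := hrel hdvd dvd_rfl
    have hu' : IsUnit (cyclotomic (4 * 0 + 1) ℤ) := isUnit_of_dvd_unit (dvd_pow_self _ two_ne_zero) hu
    exact (cyclotomic.irreducible (n := 4 * 0 + 1) (by norm_num)).not_isUnit hu'
  · intro h1
    have hm : 1 ≤ m := by omega
    exact ⟨UU m, VV m, VV_relPrime m, dvd_UU m hm, S_eq m⟩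

end conclusion

end Pool.H30.MV.Full
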