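import Mathlib

/-!
# GrayTakagi: definitions of the statement
-/

namespace Pool.H30.MV.GrayTakagi

open MeasureTheory Set

/-- The Gray Takagi function: the sum over `n ≥ 0` of
`2^{-n} r_n(x) φ(2^n x)`, where `r_n(x) = (-1)^⌊2^n x⌋` is the `n`-th Rademacher function and
`φ(t) = |t - round t|` is the distance from `t` to the nearest integer. -/
noncomputable def grayTakagi (x : ℝ) : ℝ :=
  ∑' n : ℕ, (1 / 2 : ℝ) ^ n * ((-1 : ℝ) ^ ⌊(2 : ℝ) ^ n * x⌋ * |(2 : ℝ) ^ n * x - round ((2 : ℝ) ^ n * x)|)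

end Pool.H30.MV.GrayTakagi
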