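import Mathlib
import Pool.Agent.H30.MV.GrayTakagiDefs

/-!
# GrayTakagi: the proof
-/

namespace Pool.H30.MV.GrayTakagi

open MeasureTheory Set

/-- the single building block `(-1)^⌊t⌋ * dist(t, ℤ)` -/
noncomputable def blk (t : ℝ) : ℝ := (-1 : ℝ) ^ ⌊t⌋ * |t - round t|

lemma grayTakagi_eq (x : ℝ) : grayTakagi x = ∑' n : ℕ, (1 / 2 : ℝ) ^ n * blk ((2 : ℝ) ^ n * x) := rfl

lemma abs_blk_le (t : ℝ) : |blk t| ≤ 1 / 2 := by
  unfold blk
  rw [abs_mul, abs_abs, abs_zpow, abs_neg, abs_one, one_zpow, one_mul]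
  exact abs_sub_round t

lemma summable_term (x : ℝ) :
    Summable (fun n : ℕ => (1 / 2 : ℝ) ^ n * blk ((2 : ℝ) ^ n * x)) := by
  refine Summable.of_norm_bounded (g := fun n : ℕ => (1 / 2 : ℝ) ^ n)
    (summable_geometric_of_lt_one (by norm_num) (by norm_num)) ?_
  intro n
  rw [Real.norm_eq_abs, abs_mul, abs_of_pos (by positivity : (0 : ℝ) < (1 / 2) ^ n)]
  have := abs_blk_le ((2 : ℝ) ^ n * x)
  have h2 : (0 : ℝ) < (1 / 2) ^ n := by positivity
  nlinarith

lemma abs_grayTakagi_le (x : ℝ) : |grayTakagi x| ≤ 1 := by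
  rw [grayTakagi_eq]
  have h : ∀ n : ℕ, ‖(1 / 2 : ℝ) ^ n * blk ((2 : ℝ) ^ n * x)‖ ≤ (1 / 2 : ℝ) ^ n * (1 / 2) := by
    intro n
    rw [Real.norm_eq_abs, abs_mul, abs_of_pos (by positivity : (0 : ℝ) < (1 / 2) ^ n)]
    have := abs_blk_le ((2 : ℝ) ^ n * x)
    have h2 : (0 : ℝ) < (1 / 2) ^ n := by positivity
    nlinarith
  have hs : HasSum (fun n : ℕ => (1 / 2 : ℝ) ^ n * (1 / 2)) 1 := by
    have := (hasSum_geometric_of_lt_one (r := (1 / 2 : ℝ)) (by norm_num) (by norm_num)).mul_right (1 / 2)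
    norm_num at this ⊢
    exact this
  have := tsum_of_norm_bounded hs h
  simpa [Real.norm_eq_abs] using this

/-- splitting off the first term -/
lemma grayTakagi_split (x : ℝ) : grayTakagi x = blk x + 1 / 2 * grayTakagi (2 * x) := by
  rw [grayTakagi_eq, (summable_term x).tsum_eq_zero_add, grayTakagi_eq, ← tsum_mul_left]
  congr 1
  · simp
  · apply tsum_congr
    intro n
    rw [show (2 : ℝ) ^ n * (2 * x) = 2 ^ (n + 1) * x by ring]
    ring

lemma blk_two_pow_sub (n : ℕ) (y : ℝ) : blk ((2 : ℝ) ^ n * (2 - y)) = - blk ((2 : ℝ) ^ n * y) := by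
  set t : ℝ := (2 : ℝ) ^ n * y with ht
  have h1 : (2 : ℝ) ^ n * (2 - y) = ((2 ^ (n + 1) : ℤ) : ℝ) - t := by
    rw [ht]; push_cast; ring
  rw [h1]
  unfold blk
  by_cases hz : t = ⌊t⌋
  · rw [hz]
    have h3 : ((2 ^ (n + 1) : ℤ) : ℝ) - (⌊t⌋ : ℝ) = ((2 ^ (n + 1) - ⌊t⌋ : ℤ) : ℝ) := by
      push_cast; ring
    rw [h3, Int.floor_intCast, Int.floor_intCast, round_intCast, round_intCast]
    simp
  · -- non integer case
    have hfl : (⌊t⌋ : ℝ) < t := lt_of_le_of_ne (Int.floor_le t) (fun h => hz h.symm)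
    have hfl2 : t < ⌊t⌋ + 1 := Int.lt_floor_add_one t
    have h4 : ⌊((2 ^ (n + 1) : ℤ) : ℝ) - t⌋ = 2 ^ (n + 1) - 1 - ⌊t⌋ := by
      rw [Int.floor_eq_iff]
      constructor
      · push_cast; linarith
      · push_cast; linarith
    have h5 : |((2 ^ (n + 1) : ℤ) : ℝ) - t - round (((2 ^ (n + 1) : ℤ) : ℝ) - t)| = |t - round t| := by
      rw [← Real.norm_eq_abs, ← Real.norm_eq_abs]
      have e1 : ∀ s : ℝ, ‖s - round s‖ = ‖(s : UnitAddCircle)‖ := fun s => by
        rw [UnitAddCircle.norm_eq, Real.norm_eq_abs]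
      rw [e1, e1]
      have : (((((2 ^ (n + 1) : ℤ) : ℝ) - t : ℝ)) : UnitAddCircle) = - (t : UnitAddCircle) := by
        rw [AddCircle.coe_sub]
        have : ((((2 ^ (n + 1) : ℤ) : ℝ)) : UnitAddCircle) = 0 := by
          rw [AddCircle.coe_eq_zero_iff]
          exact ⟨2 ^ (n + 1), by simp⟩
        rw [this, zero_sub]
      rw [this, norm_neg]
    rw [h4, h5]
    have h6 : ((-1 : ℝ)) ^ ((2 : ℤ) ^ (n + 1) - 1 - ⌊t⌋) = - (-1 : ℝ) ^ ⌊t⌋ := by
      have hne : (-1 : ℝ) ≠ 0 := by norm_num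
      rw [zpow_sub₀ hne, zpow_sub₀ hne]
      have h7 : ((-1 : ℝ)) ^ ((2 : ℤ) ^ (n + 1)) = 1 := by
        apply Even.neg_one_zpow
        exact ⟨2 ^ n, by ring⟩
      rw [h7]
      rcases Int.even_or_odd ⌊t⌋ with he | ho
      · rw [he.neg_one_zpow]; norm_num
      · rw [ho.neg_one_zpow]; norm_num
    rw [h6]
    ring

lemma grayTakagi_two_sub (y : ℝ) : grayTakagi (2 - y) = - grayTakagi y := by
  rw [grayTakagi_eq, grayTakagi_eq, ← tsum_neg]
  apply tsum_congr
  intro n
  rw [blk_two_pow_sub]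
  ring

lemma grayTakagi_zero : grayTakagi 0 = 0 := by
  rw [grayTakagi_eq]
  simp [blk]

lemma blk_left {x : ℝ} (h0 : 0 ≤ x) (h1 : x ≤ 1 / 2) : blk x = x := by
  unfold blk
  rcases eq_or_lt_of_le h1 with h | h
  · subst h
    have : ⌊(1 / 2 : ℝ)⌋ = 0 := by norm_num
    rw [this]
    have h2 : round (1 / 2 : ℝ) = 1 := by
      rw [round_eq]; norm_num
    rw [h2]
    norm_num
  · have hf : ⌊x⌋ = 0 := by
      rw [Int.floor_eq_iff]; constructor <;> push_cast <;> linarith
    have hr : round x = 0 := by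
      rw [round_eq, Int.floor_eq_iff]; constructor <;> push_cast <;> linarith
    rw [hf, hr]
    simp [abs_of_nonneg h0]

lemma blk_right {x : ℝ} (h0 : 1 / 2 ≤ x) (h1 : x ≤ 1) : blk x = 1 - x := by
  unfold blk
  rcases eq_or_lt_of_le h1 with h | h
  · subst h
    simp
  · have hf : ⌊x⌋ = 0 := by
      rw [Int.floor_eq_iff]; constructor <;> push_cast <;> linarith
    have hr : round x = 1 := by
      rw [round_eq, Int.floor_eq_iff]; constructor <;> push_cast <;> linarith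
    rw [hf, hr]
    simp only [zpow_zero, Int.cast_one, one_mul]
    rw [abs_of_nonpos (by linarith)]
    ring

/-- functional equation on the left half -/
lemma gT_left {x : ℝ} (h0 : 0 ≤ x) (h1 : x ≤ 1 / 2) :
    grayTakagi x = x + 1 / 2 * grayTakagi (2 * x) := by
  rw [grayTakagi_split, blk_left h0 h1]

/-- functional equation on the right half -/
lemma gT_right {x : ℝ} (h0 : 1 / 2 ≤ x) (h1 : x ≤ 1) :
    grayTakagi x = 1 - x - 1 / 2 * grayTakagi (2 - 2 * x) := by
  rw [grayTakagi_split, blk_right h0 h1, grayTakagi_two_sub]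
  ring

/-- the tilted function `F_s(u) = s u + f(u)` -/
noncomputable def F (s : ℤ) (u : ℝ) : ℝ := s * u + grayTakagi u

lemma F_left (s : ℤ) {u : ℝ} (h0 : 0 ≤ u) (h1 : u ≤ 1 / 2) :
    2 * F s u = F (s + 1) (2 * u) := by
  unfold F
  rw [gT_left h0 h1]; push_cast; ring

lemma F_right (s : ℤ) {u : ℝ} (h0 : 1 / 2 ≤ u) (h1 : u ≤ 1) :
    2 * (s - F s u) = F (s - 1) (2 - 2 * u) := by
  unfold F
  rw [gT_right h0 h1]; push_cast; ring

/-- `B n s`: a set containing all values `F s u` for which the slope walk started at `s` vanishes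
at time `n` -/
def B : ℕ → ℤ → Set ℝ
  | 0, s => {y | s = 0 ∧ |y| ≤ 1}
  | n + 1, s => {y | 2 * y ∈ B n (s + 1) ∨ 2 * (s - y) ∈ B n (s - 1)}

lemma mem_B_zero (s : ℤ) (y : ℝ) : y ∈ B 0 s ↔ (s = 0 ∧ |y| ≤ 1) := Iff.rfl

lemma mem_B_succ (n : ℕ) (s : ℤ) (y : ℝ) :
    y ∈ B (n + 1) s ↔ (2 * y ∈ B n (s + 1) ∨ 2 * (s - y) ∈ B n (s - 1)) := Iff.rfl

/-- two step recursion -/
lemma mem_B_two (n : ℕ) (s : ℤ) (y : ℝ) :
    y ∈ B (n + 2) s ↔ (4 * y ∈ B n (s + 2) ∨ 2 * s + 2 - 4 * y ∈ B n s ∨ 4 * s - 4 * y ∈ B n s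
      ∨ 4 * y - 2 * s - 2 ∈ B n (s - 2)) := by
  rw [mem_B_succ, mem_B_succ, mem_B_succ]
  have e1 : 2 * (2 * y) = 4 * y := by ring
  have e2 : 2 * (((s + 1 : ℤ) : ℝ) - 2 * y) = 2 * s + 2 - 4 * y := by push_cast; ring
  have e3 : 2 * (2 * ((s : ℝ) - y)) = 4 * s - 4 * y := by ring
  have e4 : 2 * (((s - 1 : ℤ) : ℝ) - 2 * (s - y)) = 4 * y - 2 * s - 2 := by push_cast; ring
  rw [e1, e2, e3, e4]
  have f1 : s + 1 + 1 = s + 2 := by ring
  have f2 : s + 1 - 1 = s := by ring
  have f3 : s - 1 + 1 = s := by ring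
  have f4 : s - 1 - 1 = s - 2 := by ring
  rw [f1, f2, f3, f4]
  tauto

/-- the key duplication: at slope `0` one of the four quarters is redundant -/
lemma mem_B_key (n : ℕ) (y : ℝ) (h : y ∈ B (n + 3) 0) :
    4 * y ∈ B (n + 1) 2 ∨ - (4 * y) ∈ B (n + 1) 0 ∨ 4 * y - 2 ∈ B (n + 1) (-2) := by
  rw [mem_B_two] at h
  simp only [Int.cast_zero, mul_zero, zero_add, zero_sub, sub_zero] at h
  rcases h with h | h | h | h
  · exact Or.inl h
  · -- the redundant quarter
    rw [mem_B_succ] at h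
    rcases h with h | h
    · left
      rw [mem_B_succ]
      right
      have e : 2 * (((2 : ℤ) : ℝ) - 4 * y) = 2 * (2 - 4 * y) := by push_cast; ring
      rw [e]
      simpa using h
    · right; right
      rw [mem_B_succ]
      left
      have e : 2 * (4 * y - 2) = 2 * (((0 : ℤ) : ℝ) - (2 - 4 * y)) := by push_cast; ring
      rw [e]
      simpa using h
  · exact Or.inr (Or.inl h)
  · exact Or.inr (Or.inr h)

/-- measure of a preimage under an affine map with factor `±4` -/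
lemma vol_affine (S : Set ℝ) (c : ℝ) (a : ℝ) (ha : |a| = 4) :
    volume {y : ℝ | a * y + c ∈ S} = 4⁻¹ * volume S := by
  have ha0 : a ≠ 0 := by
    intro h; rw [h] at ha; norm_num at ha
  have h1 : {y : ℝ | a * y + c ∈ S} = (fun y => a * y) ⁻¹' ((fun z => z + c) ⁻¹' S) := rfl
  rw [h1, Real.volume_preimage_mul_left ha0, measure_preimage_add_right, abs_inv, ha]
  congr 1
  rw [ENNReal.ofReal_inv_of_pos (by norm_num)]
  norm_num

lemma vol_B_two (n : ℕ) (s : ℤ) :
    volume (B (n + 2) s) ≤ 4⁻¹ * (volume (B n (s + 2)) + 2 * volume (B n s) + volume (B n (s - 2))) := by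
  have hsub : B (n + 2) s ⊆ (({y : ℝ | 4 * y + 0 ∈ B n (s + 2)} ∪
      {y : ℝ | (-4) * y + (2 * s + 2) ∈ B n s}) ∪ {y : ℝ | (-4) * y + 4 * s ∈ B n s}) ∪
      {y : ℝ | 4 * y + (-2 * s - 2) ∈ B n (s - 2)} := by
    intro y hy
    rw [mem_B_two] at hy
    simp only [mem_union, mem_ofPred_eq]
    rcases hy with h | h | h | h
    · left; left; left; simpa using h
    · left; left; right
      rw [show (-4) * y + (2 * (s : ℝ) + 2) = 2 * s + 2 - 4 * y by ring]; exact h
    · left; right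
      rw [show (-4) * y + 4 * (s : ℝ) = 4 * s - 4 * y by ring]; exact h
    · right
      rw [show 4 * y + (-2 * (s : ℝ) - 2) = 4 * y - 2 * s - 2 by ring]; exact h
  calc volume (B (n + 2) s) ≤ _ := measure_mono hsub
    _ ≤ ((volume {y : ℝ | 4 * y + 0 ∈ B n (s + 2)} + volume {y : ℝ | (-4) * y + (2 * s + 2) ∈ B n s})
        + volume {y : ℝ | (-4) * y + 4 * s ∈ B n s}) + volume {y : ℝ | 4 * y + (-2 * s - 2) ∈ B n (s - 2)} := by
          refine (measure_union_le _ _).trans ?_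
          gcongr
          refine (measure_union_le _ _).trans ?_
          gcongr
          exact measure_union_le _ _
    _ = 4⁻¹ * (volume (B n (s + 2)) + 2 * volume (B n s) + volume (B n (s - 2))) := by
          rw [vol_affine _ _ 4 (by norm_num), vol_affine _ _ (-4) (by norm_num),
            vol_affine _ _ (-4) (by norm_num), vol_affine _ _ 4 (by norm_num)]
          ring

lemma vol_B_zero_slope (n : ℕ) :
    volume (B (n + 3) 0) ≤
      4⁻¹ * (volume (B (n + 1) (0 + 2)) + volume (B (n + 1) 0) + volume (B (n + 1) (0 - 2))) := by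
  have hsub : B (n + 3) 0 ⊆ ({y : ℝ | 4 * y + 0 ∈ B (n + 1) (0 + 2)} ∪
      {y : ℝ | (-4) * y + 0 ∈ B (n + 1) 0}) ∪ {y : ℝ | 4 * y + (-2) ∈ B (n + 1) (0 - 2)} := by
    intro y hy
    simp only [mem_union, mem_ofPred_eq]
    rcases mem_B_key n y hy with h | h | h
    · left; left; simpa using h
    · left; right
      rw [show (-4) * y + 0 = -(4 * y) by ring]; exact h
    · right
      rw [show 4 * y + (-2) = 4 * y - 2 by ring]; simpa using h
  calc volume (B (n + 3) 0) ≤ _ := measure_mono hsub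
    _ ≤ (volume {y : ℝ | 4 * y + 0 ∈ B (n + 1) (0 + 2)} + volume {y : ℝ | (-4) * y + 0 ∈ B (n + 1) 0})
        + volume {y : ℝ | 4 * y + (-2) ∈ B (n + 1) (0 - 2)} := by
          refine (measure_union_le _ _).trans ?_
          gcongr
          exact measure_union_le _ _
    _ = _ := by
          rw [vol_affine _ _ 4 (by norm_num), vol_affine _ _ (-4) (by norm_num),
            vol_affine _ _ 4 (by norm_num)]
          ring

/-- total mass at time `n` -/
noncomputable def W (n : ℕ) : ENNReal := ∑' s : ℤ, volume (B n s)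

lemma W_step (n : ℕ) : W (n + 3) + 4⁻¹ * volume (B (n + 1) 0) ≤ W (n + 1) := by
  have hshift1 : ∑' s : ℤ, volume (B (n + 1) (s + 2)) = W (n + 1) :=
    (Equiv.addRight (2 : ℤ)).tsum_eq (fun s => volume (B (n + 1) s))
  have hshift2 : ∑' s : ℤ, volume (B (n + 1) (s - 2)) = W (n + 1) :=
    (Equiv.subRight (2 : ℤ)).tsum_eq (fun s => volume (B (n + 1) s))
  have hpt : ∀ s : ℤ, volume (B (n + 3) s) + (if s = 0 then 4⁻¹ * volume (B (n + 1) 0) else 0) ≤
      4⁻¹ * (volume (B (n + 1) (s + 2)) + 2 * volume (B (n + 1) s) + volume (B (n + 1) (s - 2))) := by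
    intro s
    by_cases hs : s = 0
    · subst hs
      simp only [if_true]
      calc volume (B (n + 3) 0) + 4⁻¹ * volume (B (n + 1) 0)
          ≤ 4⁻¹ * (volume (B (n + 1) (0 + 2)) + volume (B (n + 1) 0) + volume (B (n + 1) (0 - 2)))
            + 4⁻¹ * volume (B (n + 1) 0) := by gcongr; exact vol_B_zero_slope n
        _ = _ := by ring
    · simp only [hs, if_false, add_zero]
      exact vol_B_two (n + 1) s
  have hsum : ∑' s : ℤ, (if s = 0 then 4⁻¹ * volume (B (n + 1) 0) else 0) = 4⁻¹ * volume (B (n + 1) 0) := by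
    rw [tsum_ite_eq]
  calc W (n + 3) + 4⁻¹ * volume (B (n + 1) 0)
      = ∑' s : ℤ, (volume (B (n + 3) s) + (if s = 0 then 4⁻¹ * volume (B (n + 1) 0) else 0)) := by
        rw [ENNReal.tsum_add, hsum]; rfl
    _ ≤ ∑' s : ℤ, 4⁻¹ * (volume (B (n + 1) (s + 2)) + 2 * volume (B (n + 1) s) + volume (B (n + 1) (s - 2))) :=
        ENNReal.tsum_le_tsum hpt
    _ = 4⁻¹ * (W (n + 1) + 2 * W (n + 1) + W (n + 1)) := by
        rw [ENNReal.tsum_mul_left, ENNReal.tsum_add, ENNReal.tsum_add, ENNReal.tsum_mul_left,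
          hshift1, hshift2]; rfl
    _ = W (n + 1) := by
        have : W (n + 1) + 2 * W (n + 1) + W (n + 1) = 4 * W (n + 1) := by ring
        rw [this, ← mul_assoc, ENNReal.inv_mul_cancel (by norm_num) (by norm_num), one_mul]

lemma volume_B_zero_ne_top : ∑' s : ℤ, volume (B 0 s) ≠ ⊤ := by
  have h : ∀ s : ℤ, s ≠ 0 → volume (B 0 s) = 0 := by
    intro s hs
    have : B 0 s = ∅ := by
      ext y; rw [mem_B_zero]; simp [hs]
    rw [this, measure_empty]
  rw [tsum_eq_single 0 h]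
  have : B 0 0 ⊆ Icc (-1 : ℝ) 1 := by
    intro y hy
    exact abs_le.mp ((mem_B_zero 0 y).mp hy).2
  exact ne_top_of_le_ne_top (by simp) (measure_mono this)

lemma vol_B_one (n : ℕ) (s : ℤ) :
    volume (B (n + 1) s) ≤ 2⁻¹ * (volume (B n (s + 1)) + volume (B n (s - 1))) := by
  have hsub : B (n + 1) s ⊆ {y : ℝ | 2 * y + 0 ∈ B n (s + 1)} ∪
      {y : ℝ | (-2) * y + (2 * s) ∈ B n (s - 1)} := by
    intro y hy
    rw [mem_B_succ] at hy
    simp only [mem_union, mem_ofPred_eq]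
    rcases hy with h | h
    · left; simpa using h
    · right
      rw [show (-2) * y + (2 * (s : ℝ)) = 2 * (s - y) by ring]; exact h
  have haff : ∀ (S : Set ℝ) (c a : ℝ), |a| = 2 →
      volume {y : ℝ | a * y + c ∈ S} = 2⁻¹ * volume S := by
    intro S c a ha
    have ha0 : a ≠ 0 := by
      intro h; rw [h] at ha; norm_num at ha
    have h1 : {y : ℝ | a * y + c ∈ S} = (fun y => a * y) ⁻¹' ((fun z => z + c) ⁻¹' S) := rfl
    rw [h1, Real.volume_preimage_mul_left ha0, measure_preimage_add_right, abs_inv, ha]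
    congr 1
    rw [ENNReal.ofReal_inv_of_pos (by norm_num)]
    norm_num
  calc volume (B (n + 1) s) ≤ _ := measure_mono hsub
    _ ≤ volume {y : ℝ | 2 * y + 0 ∈ B n (s + 1)} + volume {y : ℝ | (-2) * y + (2 * s) ∈ B n (s - 1)} :=
        measure_union_le _ _
    _ = _ := by
        rw [haff _ _ 2 (by norm_num), haff _ _ (-2) (by norm_num)]
        ring

lemma W_succ_le (n : ℕ) : W (n + 1) ≤ W n := by
  have hshift1 : ∑' s : ℤ, volume (B n (s + 1)) = W n :=
    (Equiv.addRight (1 : ℤ)).tsum_eq (fun s => volume (B n s))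
  have hshift2 : ∑' s : ℤ, volume (B n (s - 1)) = W n :=
    (Equiv.subRight (1 : ℤ)).tsum_eq (fun s => volume (B n s))
  calc W (n + 1) ≤ ∑' s : ℤ, 2⁻¹ * (volume (B n (s + 1)) + volume (B n (s - 1))) :=
        ENNReal.tsum_le_tsum (fun s => vol_B_one n s)
    _ = 2⁻¹ * (W n + W n) := by
        rw [ENNReal.tsum_mul_left, ENNReal.tsum_add, hshift1, hshift2]
    _ = W n := by
        rw [← two_mul, ← mul_assoc, ENNReal.inv_mul_cancel (by norm_num) (by norm_num), one_mul]

lemma W_ne_top (n : ℕ) : W n ≠ ⊤ := by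
  induction n with
  | zero => exact volume_B_zero_ne_top
  | succ n ih => exact ne_top_of_le_ne_top ih (W_succ_le n)

lemma sum_le (N : ℕ) :
    4⁻¹ * (∑ n ∈ Finset.range N, volume (B (n + 1) 0)) + W (N + 1) + W (N + 2) ≤ W 1 + W 2 := by
  induction N with
  | zero => simp
  | succ N ih =>
    rw [Finset.sum_range_succ, mul_add]
    calc 4⁻¹ * (∑ n ∈ Finset.range N, volume (B (n + 1) 0)) + 4⁻¹ * volume (B (N + 1) 0)
          + W (N + 1 + 1) + W (N + 1 + 2)
        = 4⁻¹ * (∑ n ∈ Finset.range N, volume (B (n + 1) 0)) +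
          (W (N + 3) + 4⁻¹ * volume (B (N + 1) 0)) + W (N + 2) := by ring
      _ ≤ 4⁻¹ * (∑ n ∈ Finset.range N, volume (B (n + 1) 0)) + W (N + 1) + W (N + 2) := by
          gcongr; exact W_step N
      _ ≤ _ := ih

lemma tsum_B_ne_top : ∑' n : ℕ, volume (B (n + 1) 0) ≠ ⊤ := by
  have h : ∑' n : ℕ, volume (B (n + 1) 0) ≤ 4 * (W 1 + W 2) := by
    rw [ENNReal.tsum_eq_iSup_nat]
    refine iSup_le fun N => ?_
    have h1 : 4⁻¹ * (∑ n ∈ Finset.range N, volume (B (n + 1) 0)) ≤ W 1 + W 2 := by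
      refine le_trans ?_ (sum_le N)
      rw [add_assoc]
      exact le_self_add
    calc (∑ n ∈ Finset.range N, volume (B (n + 1) 0))
        = 4 * (4⁻¹ * (∑ n ∈ Finset.range N, volume (B (n + 1) 0))) := by
          rw [← mul_assoc, ENNReal.mul_inv_cancel (by norm_num) (by norm_num), one_mul]
      _ ≤ _ := by gcongr
  refine ne_top_of_le_ne_top ?_ h
  exact ENNReal.mul_ne_top (by norm_num) (ENNReal.add_ne_top.mpr ⟨W_ne_top 1, W_ne_top 2⟩)

/-- almost every `y` lies in only finitely many of the sets `B n 0` -/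
lemma ae_avoid_B : ∀ᵐ y : ℝ, ∃ N : ℕ, ∀ n ≥ N, y ∉ B n 0 := by
  have h := MeasureTheory.ae_eventually_notMem (μ := (volume : Measure ℝ)) (s := fun n => B (n + 1) 0) tsum_B_ne_top
  filter_upwards [h] with y hy
  rw [Filter.eventually_atTop] at hy
  obtain ⟨N, hN⟩ := hy
  refine ⟨N + 1, fun n hn => ?_⟩
  obtain ⟨m, rfl⟩ : ∃ m, n = m + 1 := ⟨n - 1, by omega⟩
  exact hN m (by omega)

/-- If the value `y = F s u` avoids all `B n s`, it is within `2^{-k}` of the interval `[0, s]`. -/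
lemma near_interval (k : ℕ) : ∀ (s : ℤ) (u y : ℝ), u ∈ Icc (0 : ℝ) 1 → F s u = y →
    (∀ n, y ∉ B n s) →
    (min 0 (s : ℝ) - (1 / 2) ^ k ≤ y ∧ y ≤ max 0 (s : ℝ) + (1 / 2) ^ k) := by
  induction k with
  | zero =>
    intro s u y hu hy _
    have h1 := abs_le.mp (abs_grayTakagi_le u)
    have h2 : min 0 (s : ℝ) ≤ s * u ∧ s * u ≤ max 0 (s : ℝ) := by
      rcases le_total 0 (s : ℝ) with hs | hs
      · rw [min_eq_left hs, max_eq_right hs]
        constructor
        · exact mul_nonneg hs hu.1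
        · nlinarith [hu.2]
      · rw [min_eq_right hs, max_eq_left hs]
        constructor
        · nlinarith [hu.2, hu.1]
        · exact mul_nonpos_of_nonpos_of_nonneg hs hu.1
    unfold F at hy
    simp only [pow_zero]
    constructor <;> linarith [h2.1, h2.2, h1.1, h1.2]
  | succ k ih =>
    intro s u y hu hy hB
    have hs0 : s ≠ 0 := by
      intro hs
      subst hs
      apply hB 0
      rw [mem_B_zero]
      refine ⟨rfl, ?_⟩
      rw [← hy]
      unfold F
      simpa using abs_grayTakagi_le u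
    have hB' : ∀ n, 2 * y ∉ B n (s + 1) := fun n hn => hB (n + 1) ((mem_B_succ n s y).mpr (Or.inl hn))
    have hB'' : ∀ n, 2 * ((s : ℝ) - y) ∉ B n (s - 1) :=
      fun n hn => hB (n + 1) ((mem_B_succ n s y).mpr (Or.inr hn))
    have hpow : (1 / 2 : ℝ) ^ (k + 1) = 1 / 2 * (1 / 2) ^ k := by ring
    rw [hpow]
    rcases le_total u (1 / 2) with hu2 | hu2
    · have h1 := ih (s + 1) (2 * u) (2 * y) ⟨by linarith [hu.1], by linarith⟩
        (by rw [← hy, F_left s hu.1 hu2]) hB'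
      push_cast at h1
      rcases lt_or_gt_of_ne hs0 with hs | hs
      · have hs1 : (s : ℝ) ≤ -1 := by exact_mod_cast (by omega : s ≤ -1)
        rw [min_eq_right (by linarith : (s : ℝ) ≤ 0), max_eq_left (by linarith : (s : ℝ) ≤ 0)]
        rw [min_eq_right (by linarith : (s : ℝ) + 1 ≤ 0), max_eq_left (by linarith : (s : ℝ) + 1 ≤ 0)] at h1
        constructor <;> linarith [h1.1, h1.2]
      · have hs1 : (1 : ℝ) ≤ s := by exact_mod_cast (by omega : 1 ≤ s)
        rw [min_eq_left (by linarith : 0 ≤ (s : ℝ)), max_eq_right (by linarith : 0 ≤ (s : ℝ))]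
        rw [min_eq_left (by linarith : 0 ≤ (s : ℝ) + 1), max_eq_right (by linarith : 0 ≤ (s : ℝ) + 1)] at h1
        constructor <;> linarith [h1.1, h1.2]
    · have h1 := ih (s - 1) (2 - 2 * u) (2 * (s - y)) ⟨by linarith [hu.2], by linarith⟩
        (by rw [← hy, F_right s hu2 hu.2]) hB''
      push_cast at h1
      rcases lt_or_gt_of_ne hs0 with hs | hs
      · have hs1 : (s : ℝ) ≤ -1 := by exact_mod_cast (by omega : s ≤ -1)
        rw [min_eq_right (by linarith : (s : ℝ) ≤ 0), max_eq_left (by linarith : (s : ℝ) ≤ 0)]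
        rw [min_eq_right (by linarith : (s : ℝ) - 1 ≤ 0), max_eq_left (by linarith : (s : ℝ) - 1 ≤ 0)] at h1
        constructor <;> linarith [h1.1, h1.2]
      · have hs1 : (1 : ℝ) ≤ s := by exact_mod_cast (by omega : 1 ≤ s)
        rw [min_eq_left (by linarith : 0 ≤ (s : ℝ)), max_eq_right (by linarith : 0 ≤ (s : ℝ))]
        rw [min_eq_left (by linarith : 0 ≤ (s : ℝ) - 1), max_eq_right (by linarith : 0 ≤ (s : ℝ) - 1)] at h1
        constructor <;> linarith [h1.1, h1.2]

lemma mem_interval {s : ℤ} {u y : ℝ} (hu : u ∈ Icc (0 : ℝ) 1) (hy : F s u = y)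
    (hB : ∀ n, y ∉ B n s) : min 0 (s : ℝ) ≤ y ∧ y ≤ max 0 (s : ℝ) := by
  have hlim : Filter.Tendsto (fun k : ℕ => (1 / 2 : ℝ) ^ k) Filter.atTop (nhds 0) :=
    tendsto_pow_atTop_nhds_zero_of_lt_one (by norm_num) (by norm_num)
  constructor
  · have h1 : Filter.Tendsto (fun k : ℕ => min 0 (s : ℝ) - (1 / 2 : ℝ) ^ k) Filter.atTop
        (nhds (min 0 (s : ℝ))) := by
      simpa using (tendsto_const_nhds (x := min 0 (s : ℝ))).sub hlim
    exact le_of_tendsto' h1 (fun k => (near_interval k s u y hu hy hB).1)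
  · have h1 : Filter.Tendsto (fun k : ℕ => max 0 (s : ℝ) + (1 / 2 : ℝ) ^ k) Filter.atTop
        (nhds (max 0 (s : ℝ))) := by
      simpa using (tendsto_const_nhds (x := max 0 (s : ℝ))).add hlim
    exact ge_of_tendsto' h1 (fun k => (near_interval k s u y hu hy hB).2)

/-- `y` is a dyadic rational -/
def Dyadic (y : ℝ) : Prop := ∃ (k : ℤ) (n : ℕ), (2 : ℝ) ^ n * y = k

lemma Dyadic.of_two_mul {y : ℝ} (h : Dyadic (2 * y)) : Dyadic y := by
  obtain ⟨k, n, hk⟩ := h
  exact ⟨k, n + 1, by rw [← hk]; ring⟩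

lemma Dyadic.of_reflect {y : ℝ} {s : ℤ} (h : Dyadic (2 * (s - y))) : Dyadic y := by
  obtain ⟨k, n, hk⟩ := h
  refine ⟨2 ^ (n + 1) * s - k, n + 1, ?_⟩
  push_cast
  rw [← hk]; ring

/-- at most one solution once the slope walk never returns to zero -/
lemma unique_solution (k : ℕ) : ∀ (s : ℤ) (u v y : ℝ), u ∈ Icc (0 : ℝ) 1 → v ∈ Icc (0 : ℝ) 1 →
    F s u = y → F s v = y → (∀ n, y ∉ B n s) → ¬ Dyadic y → |u - v| ≤ (1 / 2) ^ k := by
  induction k with
  | zero =>
    intro s u v y hu hv _ _ _ _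
    rw [pow_zero, abs_le]
    constructor <;> linarith [hu.1, hu.2, hv.1, hv.2]
  | succ k ih =>
    have key : ∀ (s : ℤ) (u v y : ℝ), u ∈ Icc (0 : ℝ) 1 → v ∈ Icc (0 : ℝ) 1 →
      F s u = y → F s v = y → (∀ n, y ∉ B n s) → ¬ Dyadic y → u ≤ v → |u - v| ≤ (1 / 2) ^ (k + 1) := by
      intro s u v y hu hv hFu hFv hB hD huv
      have hB' : ∀ n, 2 * y ∉ B n (s + 1) := fun n hn => hB (n + 1) ((mem_B_succ n s y).mpr (Or.inl hn))
      have hB'' : ∀ n, 2 * ((s : ℝ) - y) ∉ B n (s - 1) :=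
        fun n hn => hB (n + 1) ((mem_B_succ n s y).mpr (Or.inr hn))
      have hD1 : ¬ Dyadic (2 * y) := fun h => hD h.of_two_mul
      have hD2 : ¬ Dyadic (2 * ((s : ℝ) - y)) := fun h => hD h.of_reflect
      have hpow : (1 / 2 : ℝ) ^ (k + 1) = 1 / 2 * (1 / 2) ^ k := by ring
      rcases le_total v (1 / 2) with hv2 | hv2
      · -- both left
        have hu2 : u ≤ 1 / 2 := huv.trans hv2
        have h := ih (s + 1) (2 * u) (2 * v) (2 * y) ⟨by linarith [hu.1], by linarith⟩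
          ⟨by linarith [hv.1], by linarith⟩ (by rw [← hFu, F_left s hu.1 hu2])
          (by rw [← hFv, F_left s hv.1 hv2]) hB' hD1
        rw [hpow]
        have e : 2 * u - 2 * v = 2 * (u - v) := by ring
        rw [e, abs_mul, abs_of_pos (by norm_num : (0 : ℝ) < 2)] at h
        linarith
      · rcases le_total u (1 / 2) with hu2 | hu2
        · -- separated: contradiction
          exfalso
          have hL := mem_interval (s := s + 1) (u := 2 * u) (y := 2 * y) ⟨by linarith [hu.1], by linarith⟩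
            (by rw [← hFu, F_left s hu.1 hu2]) hB'
          have hR := mem_interval (s := s - 1) (u := 2 - 2 * v) (y := 2 * (s - y))
            ⟨by linarith [hv.2], by linarith⟩ (by rw [← hFv, F_right s hv2 hv.2]) hB''
          push_cast at hL hR
          have hs0 : s ≠ 0 := by
            intro hs
            subst hs
            apply hB 0
            rw [mem_B_zero]
            refine ⟨rfl, ?_⟩
            rw [← hFu]
            unfold F
            simpa using abs_grayTakagi_le u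
          have hyv : 2 * y = s + 1 := by
            rcases lt_or_gt_of_ne hs0 with hs | hs
            · have hs1 : (s : ℝ) ≤ -1 := by exact_mod_cast (by omega : s ≤ -1)
              rw [min_eq_right (by linarith : (s : ℝ) + 1 ≤ 0), max_eq_left (by linarith : (s : ℝ) + 1 ≤ 0)] at hL
              rw [min_eq_right (by linarith : (s : ℝ) - 1 ≤ 0), max_eq_left (by linarith : (s : ℝ) - 1 ≤ 0)] at hR
              apply le_antisymm <;> linarith [hL.1, hL.2, hR.1, hR.2]
            · have hs1 : (1 : ℝ) ≤ s := by exact_mod_cast (by omega : 1 ≤ s)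
              rw [min_eq_left (by linarith : 0 ≤ (s : ℝ) + 1), max_eq_right (by linarith : 0 ≤ (s : ℝ) + 1)] at hL
              rw [min_eq_left (by linarith : 0 ≤ (s : ℝ) - 1), max_eq_right (by linarith : 0 ≤ (s : ℝ) - 1)] at hR
              apply le_antisymm <;> linarith [hL.1, hL.2, hR.1, hR.2]
          exact hD ⟨s + 1, 1, by push_cast; rw [pow_one, hyv]⟩
        · -- both right
          have h := ih (s - 1) (2 - 2 * u) (2 - 2 * v) (2 * (s - y)) ⟨by linarith [hu.2], by linarith⟩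
            ⟨by linarith [hv.2], by linarith⟩ (by rw [← hFu, F_right s hu2 hu.2])
            (by rw [← hFv, F_right s hv2 hv.2]) hB'' hD2
          rw [hpow]
          have e : 2 - 2 * u - (2 - 2 * v) = -(2 * (u - v)) := by ring
          rw [e, abs_neg, abs_mul, abs_of_pos (by norm_num : (0 : ℝ) < 2)] at h
          linarith
    intro s u v y hu hv hFu hFv hB hD
    rcases le_total u v with h | h
    · exact key s u v y hu hv hFu hFv hB hD h
    · rw [abs_sub_comm]
      exact key s v u y hv hu hFv hFu hB hD h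

lemma finite_of_avoid (N : ℕ) : ∀ (s : ℤ) (y : ℝ), (∀ n ≥ N, y ∉ B n s) → ¬ Dyadic y →
    {u : ℝ | u ∈ Icc (0 : ℝ) 1 ∧ F s u = y}.Finite := by
  induction N with
  | zero =>
    intro s y hB hD
    apply Set.Subsingleton.finite
    intro u hu v hv
    have hlim : Filter.Tendsto (fun k : ℕ => (1 / 2 : ℝ) ^ k) Filter.atTop (nhds 0) :=
      tendsto_pow_atTop_nhds_zero_of_lt_one (by norm_num) (by norm_num)
    have h : |u - v| ≤ 0 := ge_of_tendsto' hlim
      (fun k => unique_solution k s u v y hu.1 hv.1 hu.2 hv.2 (fun n => hB n (Nat.zero_le n)) hD)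
    have h2 : u - v = 0 := abs_eq_zero.mp (le_antisymm h (abs_nonneg _))
    linarith
  | succ N ih =>
    intro s y hB hD
    have h1 := ih (s + 1) (2 * y)
      (fun n hn hmem => hB (n + 1) (by omega) ((mem_B_succ n s y).mpr (Or.inl hmem)))
      (fun h => hD h.of_two_mul)
    have h2 := ih (s - 1) (2 * (s - y))
      (fun n hn hmem => hB (n + 1) (by omega) ((mem_B_succ n s y).mpr (Or.inr hmem)))
      (fun h => hD h.of_reflect)
    have hsub : {u : ℝ | u ∈ Icc (0 : ℝ) 1 ∧ F s u = y} ⊆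
        (fun w : ℝ => w / 2) '' {u : ℝ | u ∈ Icc (0 : ℝ) 1 ∧ F (s + 1) u = 2 * y} ∪
        (fun w : ℝ => 1 - w / 2) '' {u : ℝ | u ∈ Icc (0 : ℝ) 1 ∧ F (s - 1) u = 2 * (s - y)} := by
      rintro u ⟨hu, hFu⟩
      rcases le_total u (1 / 2) with hu2 | hu2
      · left
        refine ⟨2 * u, ⟨⟨by linarith [hu.1], by linarith⟩, ?_⟩, by simp⟩
        rw [← hFu, F_left s hu.1 hu2]
      · right
        refine ⟨2 - 2 * u, ⟨⟨by linarith [hu.2], by linarith⟩, ?_⟩, by simp; ring⟩
        rw [← hFu, F_right s hu2 hu.2]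
    exact ((h1.image _).union (h2.image _)).subset hsub

lemma ae_not_dyadic : ∀ᵐ y : ℝ, ¬ Dyadic y := by
  have hc : {y : ℝ | Dyadic y}.Countable := by
    have : {y : ℝ | Dyadic y} ⊆ Set.range (fun p : ℤ × ℕ => (p.1 : ℝ) / 2 ^ p.2) := by
      rintro y ⟨k, n, h⟩
      refine ⟨(k, n), ?_⟩
      simp only
      rw [← h]
      field_simp
    exact (Set.countable_range _).mono this
  exact hc.ae_notMem volume

/-- **Almost every level set of the Gray Takagi function is finite.** -/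
theorem result : ∀ᵐ y : ℝ, {x : ℝ | x ∈ Set.Icc (0 : ℝ) 1 ∧ grayTakagi x = y}.Finite := by
  filter_upwards [ae_avoid_B, ae_not_dyadic] with y hy hD
  obtain ⟨N, hN⟩ := hy
  have h := finite_of_avoid N 0 y hN hD
  refine h.subset ?_
  rintro x ⟨hx, hfx⟩
  refine ⟨hx, ?_⟩
  unfold F
  simpa using hfx

end Pool.H30.MV.GrayTakagi
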