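import Mathlib

/-!
# Definitions used in the statement: definitions of the statement
-/

set_option autoImplicit false

set_option linter.unusedSimpArgs false

set_option linter.unusedTactic false

set_option linter.unreachableTactic false

namespace Pool.H30.MV.NearIntervalOuterplanar

/-- `G` is outerplanar: its vertices can be placed at distinct points of a line (equivalently, of a
circle) so that no two edges cross, i.e. there are no `f a < f b < f c < f d` with `ac` and `bd`
both edges. -/
def Outerplanar {V : Type*} (G : SimpleGraph V) : Prop :=
  ∃ f : V → ℤ, Function.Injective f ∧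
    ∀ a b c d : V, f a < f b → f b < f c → f c < f d → G.Adj a c → ¬ G.Adj b d

/-- `S` is an interval of integers `{a, a+1, ..., b}`, `a ≤ b`. -/
def IsInterval (S : Set ℤ) : Prop := ∃ a b : ℤ, a ≤ b ∧ S = Set.Icc a b

/-- `S` is an interval with exactly one interior integer removed. -/
def IsNearInterval (S : Set ℤ) : Prop := ∃ a m b : ℤ, a < m ∧ m < b ∧ S = Set.Icc a b \ {m}

/-- `c` is a near-interval coloring of `G`: adjacent edges get different colors, and the set of
colors on the edges at each non-isolated vertex is an interval or a near-interval. -/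
def IsNearIntervalColoring {V : Type*} (G : SimpleGraph V) (c : Sym2 V → ℤ) : Prop :=
  (∀ u v w : V, G.Adj u v → G.Adj u w → v ≠ w → c s(u, v) ≠ c s(u, w)) ∧
  ∀ u : V, (∃ v, G.Adj u v) →
    IsInterval {k | ∃ v, G.Adj u v ∧ c s(u, v) = k} ∨
    IsNearInterval {k | ∃ v, G.Adj u v ∧ c s(u, v) = k}

end Pool.H30.MV.NearIntervalOuterplanar
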