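import Mathlib
import Pool.Agent.H30.MV.NearIntervalOuterplanarDefs

/-!
# Definitions used in the statement: the proof
-/

set_option autoImplicit false

set_option linter.unusedSimpArgs false

set_option linter.unusedTactic false

set_option linter.unreachableTactic false

namespace Pool.H30.MV.NearIntervalOuterplanar

/-- non-crossing graph on the integers -/
def NC (G : SimpleGraph ℤ) : Prop :=
  ∀ a b c d : ℤ, a < b → b < c → c < d → G.Adj a c → ¬ G.Adj b d

/-- interior vertices of `[i,j]` only have neighbours in `[i,j]` -/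
def Closed (G : SimpleGraph ℤ) (i j : ℤ) : Prop :=
  ∀ x y : ℤ, i < x → x < j → G.Adj x y → i ≤ y ∧ y ≤ j

/-- a subset of an interval missing at most one element of it -/
def Near (S : Set ℤ) : Prop := ∃ a b h : ℤ, ∀ x, x ∈ S ↔ (a ≤ x ∧ x ≤ b ∧ x ≠ h)

/-- edges inside `[i,j]` other than `ij` can be coloured with colour sets `A` at `i`, `B` at `j`. -/
def Sol (G : SimpleGraph ℤ) (i j : ℤ) (A B : Set ℤ) : Prop :=
  ∃ col : ℤ → ℤ → ℤ, (∀ x y, col x y = col y x) ∧
    (∀ x, i < x → x < j → Set.InjOn (col x) {y | G.Adj x y} ∧ Near (col x '' {y | G.Adj x y})) ∧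
    Set.InjOn (col i) {y | G.Adj i y ∧ i < y ∧ y < j} ∧
    col i '' {y | G.Adj i y ∧ i < y ∧ y < j} = A ∧
    Set.InjOn (col j) {y | G.Adj j y ∧ i < y ∧ y < j} ∧
    col j '' {y | G.Adj j y ∧ i < y ∧ y < j} = B

/-- translate of a set -/
def sh (c : ℤ) (A : Set ℤ) : Set ℤ := {x | x - c ∈ A}

/-- negated set -/
def ng (A : Set ℤ) : Set ℤ := {x | -x ∈ A}

lemma Near.affine {S : Set ℤ} (h : Near S) (e c : ℤ) (he : e = 1 ∨ e = -1) :
    Near ((fun x => e * x + c) '' S) := by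
  obtain ⟨a, b, k, hS⟩ := h
  rcases he with rfl | rfl
  · refine ⟨a + c, b + c, k + c, fun x => ?_⟩
    constructor
    · rintro ⟨y, hy, rfl⟩
      rw [hS] at hy
      refine ⟨?_, ?_, ?_⟩
      · simp only; omega
      · simp only; omega
      · simp only; omega
    · intro hx
      refine ⟨x - c, ?_, ?_⟩
      · rw [hS]; omega
      · simp only; omega
  · refine ⟨-b + c, -a + c, -k + c, fun x => ?_⟩
    constructor
    · rintro ⟨y, hy, rfl⟩
      rw [hS] at hy
      refine ⟨?_, ?_, ?_⟩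
      · simp only; omega
      · simp only; omega
      · simp only; omega
    · intro hx
      refine ⟨c - x, ?_, ?_⟩
      · rw [hS]; omega
      · simp only; omega

lemma Sol.affine {G : SimpleGraph ℤ} {i j : ℤ} {A B : Set ℤ} (h : Sol G i j A B) (e c : ℤ)
    (he : e = 1 ∨ e = -1) :
    Sol G i j ((fun x => e * x + c) '' A) ((fun x => e * x + c) '' B) := by
  obtain ⟨col, hsym, hin, hA, hA', hB, hB'⟩ := h
  have hinj : Function.Injective (fun x : ℤ => e * x + c) := by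
    intro x y hxy
    simp only at hxy
    rcases he with rfl | rfl <;> omega
  refine ⟨fun x y => e * col x y + c, fun x y => by simp only [hsym x y], ?_, ?_, ?_, ?_, ?_⟩
  · intro x hx hx'
    obtain ⟨h1, h2⟩ := hin x hx hx'
    refine ⟨fun y hy z hz hyz => h1 hy hz (hinj hyz), ?_⟩
    have := h2.affine e c he
    rw [Set.image_image] at this
    exact this
  · exact fun y hy z hz hyz => hA hy hz (hinj hyz)
  · rw [← hA', Set.image_image]
  · exact fun y hy z hz hyz => hB hy hz (hinj hyz)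
  · rw [← hB', Set.image_image]

lemma Sol.sh {G : SimpleGraph ℤ} {i j : ℤ} {A B : Set ℤ} (h : Sol G i j A B) (c : ℤ) :
    Sol G i j (sh c A) (sh c B) := by
  have key : ∀ S : Set ℤ, NearIntervalOuterplanar.sh c S = (fun x => 1 * x + c) '' S := by
    intro S
    ext x
    simp only [NearIntervalOuterplanar.sh, Set.mem_image]
    constructor
    · intro hx
      exact ⟨x - c, hx, by ring⟩
    · rintro ⟨y, hy, rfl⟩
      have : 1 * y + c - c = y := by ring
      show 1 * y + c - c ∈ S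
      rw [this]; exact hy
  rw [key, key]
  exact h.affine 1 c (Or.inl rfl)

lemma Sol.ng {G : SimpleGraph ℤ} {i j : ℤ} {A B : Set ℤ} (h : Sol G i j A B) :
    Sol G i j (ng A) (ng B) := by
  have key : ∀ S : Set ℤ, NearIntervalOuterplanar.ng S = (fun x => (-1) * x + 0) '' S := by
    intro S
    ext x
    simp only [NearIntervalOuterplanar.ng, Set.mem_image]
    constructor
    · intro hx
      exact ⟨-x, hx, by ring⟩
    · rintro ⟨y, hy, rfl⟩
      show -((-1) * y + 0) ∈ S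
      have : -((-1) * y + 0) = y := by ring
      rw [this]; exact hy
  rw [key, key]
  exact h.affine (-1) 0 (Or.inr rfl)

lemma Sol.congr {G : SimpleGraph ℤ} {i j : ℤ} {A B A' B' : Set ℤ} (h : Sol G i j A B)
    (hA : ∀ x, x ∈ A ↔ x ∈ A') (hB : ∀ x, x ∈ B ↔ x ∈ B') : Sol G i j A' B' := by
  have h1 : A = A' := Set.ext hA
  have h2 : B = B' := Set.ext hB
  rw [← h1, ← h2]
  exact h

/-- the reflected graph -/
def rev (G : SimpleGraph ℤ) : SimpleGraph ℤ := G.comap (fun x => -x)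

lemma rev_adj {G : SimpleGraph ℤ} {x y : ℤ} : (rev G).Adj x y ↔ G.Adj (-x) (-y) := Iff.rfl

lemma Sol.of_rev {G : SimpleGraph ℤ} {i j : ℤ} {A B : Set ℤ} (h : Sol (rev G) (-j) (-i) B A) :
    Sol G i j A B := by
  obtain ⟨col, hsym, hin, hA, hA', hB, hB'⟩ := h
  have hset : ∀ x : ℤ, {y | G.Adj x y} = (fun y => -y) '' {y | (rev G).Adj (-x) y} := by
    intro x
    ext y
    simp only [Set.mem_image, rev_adj, neg_neg]
    constructor
    · intro hy
      exact ⟨-y, by simpa using hy, by simp⟩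
    · rintro ⟨z, hz, rfl⟩
      exact hz
  have hset2 : ∀ x : ℤ, {y | G.Adj x y ∧ i < y ∧ y < j} =
      (fun y => -y) '' {y | (rev G).Adj (-x) y ∧ -j < y ∧ y < -i} := by
    intro x
    ext y
    simp only [Set.mem_image, rev_adj, neg_neg]
    constructor
    · rintro ⟨hy, h1, h2⟩
      exact ⟨-y, ⟨by simpa using hy, by omega, by omega⟩, by simp⟩
    · rintro ⟨z, ⟨hz, h1, h2⟩, rfl⟩
      exact ⟨hz, by omega, by omega⟩
  refine ⟨fun x y => col (-x) (-y), fun x y => hsym _ _, ?_, ?_, ?_, ?_, ?_⟩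
  · intro x hx hx'
    obtain ⟨h1, h2⟩ := hin (-x) (by omega) (by omega)
    rw [hset x]
    refine ⟨?_, ?_⟩
    · rintro _ ⟨y, hy, rfl⟩ _ ⟨z, hz, rfl⟩ hyz
      simp only [neg_neg] at hyz
      rw [h1 hy hz hyz]
    · rw [Set.image_image]
      simpa using h2
  · rw [hset2 i]
    rintro _ ⟨y, hy, rfl⟩ _ ⟨z, hz, rfl⟩ hyz
    simp only [neg_neg] at hyz
    rw [hB hy hz hyz]
  · rw [hset2 i, Set.image_image]
    simpa using hB'
  · rw [hset2 j]
    rintro _ ⟨y, hy, rfl⟩ _ ⟨z, hz, rfl⟩ hyz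
    simp only [neg_neg] at hyz
    rw [hA hy hz hyz]
  · rw [hset2 j, Set.image_image]
    simpa using hA'

/-- `m` separates `[i,m]` from `[m,j]`, apart from a possible edge `ij` -/
def Sep (G : SimpleGraph ℤ) (i m j : ℤ) : Prop :=
  ∀ x y : ℤ, G.Adj x y → i ≤ x → x < m → m < y → y ≤ j → x = i ∧ y = j

lemma merge {G : SimpleGraph ℤ} {i m j : ℤ} (him : i < m) (hmj : m < j) (hsep : Sep G i m j)
    (hcl : Closed G i j) {A1 S1 S2 B2 A B : Set ℤ}
    (h1 : Sol G i m A1 S1) (h2 : Sol G m j S2 B2) (c1 c2 : ℤ)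
    (hA : ∀ x, x ∈ A ↔ (x ∈ A1 ∨ (x = c1 ∧ G.Adj i m))) (hA1 : G.Adj i m → c1 ∉ A1)
    (hB : ∀ x, x ∈ B ↔ (x ∈ B2 ∨ (x = c2 ∧ G.Adj m j))) (hB2 : G.Adj m j → c2 ∉ B2)
    (hd : ∀ x, x ∈ S1 → x ∉ S2) (hd1 : G.Adj i m → c1 ∉ S1 ∧ c1 ∉ S2)
    (hd2 : G.Adj m j → c2 ∉ S1 ∧ c2 ∉ S2) (hd3 : G.Adj i m → G.Adj m j → c1 ≠ c2)
    (a b h : ℤ)
    (hnear : ∀ x, (x ∈ S1 ∨ x ∈ S2 ∨ (x = c1 ∧ G.Adj i m) ∨ (x = c2 ∧ G.Adj m j)) ↔
      (a ≤ x ∧ x ≤ b ∧ x ≠ h)) : Sol G i j A B := by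
  obtain ⟨col1, hsym1, hin1, hiA, hiA', hmS1, hmS1'⟩ := h1
  obtain ⟨col2, hsym2, hin2, hmS2, hmS2', hjB, hjB'⟩ := h2
  -- the combined colouring
  set col : ℤ → ℤ → ℤ := fun x y =>
    if (x = i ∧ y = m) ∨ (x = m ∧ y = i) then c1
    else if (x = m ∧ y = j) ∨ (x = j ∧ y = m) then c2
    else if x ≤ m ∧ y ≤ m then col1 x y else col2 x y with hcol
  have hcolsym : ∀ x y, col x y = col y x := by
    intro x y
    have q1 : ((x = i ∧ y = m) ∨ (x = m ∧ y = i)) ↔ ((y = i ∧ x = m) ∨ (y = m ∧ x = i)) := by omega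
    have q2 : ((x = m ∧ y = j) ∨ (x = j ∧ y = m)) ↔ ((y = m ∧ x = j) ∨ (y = j ∧ x = m)) := by omega
    have q3 : (x ≤ m ∧ y ≤ m) ↔ (y ≤ m ∧ x ≤ m) := by omega
    simp only [hcol, q1, q2, q3, hsym1 x y, hsym2 x y]
  have colL : ∀ x y, x ≤ m → y ≤ m → ¬ (x = i ∧ y = m) → ¬ (x = m ∧ y = i) →
      col x y = col1 x y := by
    intro x y hx hy e1 e2
    simp only [hcol]
    rw [if_neg (by omega), if_neg (by omega), if_pos ⟨hx, hy⟩]
  have colR : ∀ x y, m ≤ x → m ≤ y → x ≠ y → ¬ (x = m ∧ y = j) → ¬ (x = j ∧ y = m) →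
      col x y = col2 x y := by
    intro x y hx hy hxy e1 e2
    simp only [hcol]
    rw [if_neg (by omega), if_neg (by omega), if_neg (by omega)]
  have colim : col i m = c1 := by simp only [hcol]; simp
  have colmi : col m i = c1 := by rw [hcolsym]; exact colim
  have colmj : col m j = c2 := by
    simp only [hcol]
    rw [if_neg (by omega), if_pos (by simp)]
  have coljm : col j m = c2 := by rw [hcolsym]; exact colmj
  have hleft : ∀ x y, i < x → x < m → G.Adj x y → i ≤ y ∧ y ≤ m := by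
    intro x y hx hxm hxy
    have := hcl x y hx (by omega) hxy
    refine ⟨this.1, ?_⟩
    by_contra hcon
    have := hsep x y hxy (by omega) hxm (by omega) this.2
    omega
  have hright : ∀ x y, m < x → x < j → G.Adj x y → m ≤ y ∧ y ≤ j := by
    intro x y hx hxj hxy
    have := hcl x y (by omega) hxj hxy
    refine ⟨?_, this.2⟩
    by_contra hcon
    have := hsep y x hxy.symm this.1 (by omega) hx (by omega)
    omega
  have hinot : ∀ y, G.Adj i y → i < y → y < j → y ≤ m := by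
    intro y hy _ hyj
    by_contra hcon
    have := hsep i y hy le_rfl him (by omega) hyj.le
    omega
  have hjnot : ∀ y, G.Adj j y → i < y → y < j → m ≤ y := by
    intro y hy hiy _
    by_contra hcon
    have := hsep y j hy.symm hiy.le (by omega) hmj le_rfl
    omega
  refine ⟨col, hcolsym, ?_, ?_, ?_, ?_, ?_⟩
  · intro x hx hxj
    rcases lt_trichotomy x m with hxm | rfl | hxm
    · obtain ⟨e1, e2⟩ := hin1 x hx hxm
      have hc : ∀ y ∈ {y | G.Adj x y}, col x y = col1 x y := by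
        intro y hy
        have := hleft x y hx hxm hy
        exact colL x y hxm.le this.2 (by omega) (by omega)
      refine ⟨?_, ?_⟩
      · intro y hy z hz hyz
        rw [hc y hy, hc z hz] at hyz
        exact e1 hy hz hyz
      · rw [Set.image_congr hc]; exact e2
    · -- the apex
      have hc1 : ∀ y, G.Adj x y → i < y → y < x → col x y = col1 x y := by
        intro y _ h1 h2
        exact colL x y le_rfl h2.le (by omega) (by omega)
      have hc2 : ∀ y, G.Adj x y → x < y → y < j → col x y = col2 x y := by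
        intro y _ h1 h2
        exact colR x y le_rfl h1.le (by omega) (by omega) (by omega)
      have hS1 : ∀ y, G.Adj x y → i < y → y < x → col x y ∈ S1 := by
        intro y hy h1 h2
        rw [hc1 y hy h1 h2, ← hmS1']
        exact ⟨y, ⟨hy, h1, h2⟩, rfl⟩
      have hS2 : ∀ y, G.Adj x y → x < y → y < j → col x y ∈ S2 := by
        intro y hy h1 h2
        rw [hc2 y hy h1 h2, ← hmS2']
        exact ⟨y, ⟨hy, h1, h2⟩, rfl⟩
      have hcases : ∀ y, G.Adj x y → (i < y ∧ y < x) ∨ (x < y ∧ y < j) ∨ y = i ∨ y = j := by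
        intro y hy
        have h1 := hcl x y hx hxj hy
        have h2 := hy.ne
        omega
      refine ⟨?_, ?_⟩
      · intro y hy z hz hyz
        rcases hcases y hy with h1 | h1 | h1 | h1 <;> rcases hcases z hz with h2 | h2 | h2 | h2
        · rw [hc1 y hy h1.1 h1.2, hc1 z hz h2.1 h2.2] at hyz
          exact hmS1 ⟨hy, h1.1, h1.2⟩ ⟨hz, h2.1, h2.2⟩ hyz
        · exact absurd (hyz ▸ hS2 z hz h2.1 h2.2) (hd _ (hS1 y hy h1.1 h1.2))
        · subst h2
          rw [colmi] at hyz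
          exact absurd (hyz ▸ hS1 y hy h1.1 h1.2) (hd1 (G.adj_symm hz)).1
        · subst h2
          rw [colmj] at hyz
          exact absurd (hyz ▸ hS1 y hy h1.1 h1.2) (hd2 hz).1
        · exact absurd (hyz ▸ hS2 y hy h1.1 h1.2) (hd _ (hS1 z hz h2.1 h2.2))
        · rw [hc2 y hy h1.1 h1.2, hc2 z hz h2.1 h2.2] at hyz
          exact hmS2 ⟨hy, h1.1, h1.2⟩ ⟨hz, h2.1, h2.2⟩ hyz
        · subst h2
          rw [colmi] at hyz
          exact absurd (hyz ▸ hS2 y hy h1.1 h1.2) (hd1 (G.adj_symm hz)).2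
        · subst h2
          rw [colmj] at hyz
          exact absurd (hyz ▸ hS2 y hy h1.1 h1.2) (hd2 hz).2
        · subst h1
          rw [colmi] at hyz
          exact absurd (hyz ▸ hS1 z hz h2.1 h2.2) (hd1 (G.adj_symm hy)).1
        · subst h1
          rw [colmi] at hyz
          exact absurd (hyz ▸ hS2 z hz h2.1 h2.2) (hd1 (G.adj_symm hy)).2
        · rw [h1, h2]
        · subst h1 h2
          rw [colmi, colmj] at hyz
          exact absurd hyz (hd3 (G.adj_symm hy) hz)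
        · subst h1
          rw [colmj] at hyz
          exact absurd (hyz ▸ hS1 z hz h2.1 h2.2) (hd2 hy).1
        · subst h1
          rw [colmj] at hyz
          exact absurd (hyz ▸ hS2 z hz h2.1 h2.2) (hd2 hy).2
        · subst h1 h2
          rw [colmi, colmj] at hyz
          exact absurd hyz.symm (hd3 (G.adj_symm hz) hy)
        · rw [h1, h2]
      · refine ⟨a, b, h, fun k => ?_⟩
        rw [← hnear k]
        constructor
        · rintro ⟨y, hy, rfl⟩
          rcases hcases y hy with h1 | h1 | h1 | h1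
          · exact Or.inl (hS1 y hy h1.1 h1.2)
          · exact Or.inr (Or.inl (hS2 y hy h1.1 h1.2))
          · subst h1
            exact Or.inr (Or.inr (Or.inl ⟨colmi, G.adj_symm hy⟩))
          · subst h1
            exact Or.inr (Or.inr (Or.inr ⟨colmj, hy⟩))
        · rintro (hk | hk | ⟨rfl, hk⟩ | ⟨rfl, hk⟩)
          · rw [← hmS1'] at hk
            obtain ⟨y, ⟨hy, h1, h2⟩, rfl⟩ := hk
            exact ⟨y, hy, hc1 y hy h1 h2⟩
          · rw [← hmS2'] at hk
            obtain ⟨y, ⟨hy, h1, h2⟩, rfl⟩ := hk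
            exact ⟨y, hy, hc2 y hy h1 h2⟩
          · exact ⟨i, hk.symm, colmi⟩
          · exact ⟨j, hk, colmj⟩
    · obtain ⟨e1, e2⟩ := hin2 x hxm hxj
      have hc : ∀ y ∈ {y | G.Adj x y}, col x y = col2 x y := by
        intro y hy
        have h3 := hright x y hxm hxj hy
        have h4 : x ≠ y := G.ne_of_adj hy
        exact colR x y hxm.le h3.1 h4 (by omega) (by omega)
      refine ⟨?_, ?_⟩
      · intro y hy z hz hyz
        rw [hc y hy, hc z hz] at hyz
        exact e1 hy hz hyz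
      · rw [Set.image_congr hc]; exact e2
  · -- injectivity at `i`
    intro y hy z hz hyz
    have h1 := hinot y hy.1 hy.2.1 hy.2.2
    have h2 := hinot z hz.1 hz.2.1 hz.2.2
    have e1 : ∀ y, G.Adj i y → i < y → y < m → col i y ∈ A1 ∧ col i y = col1 i y := by
      intro y hy h1 h2
      have : col i y = col1 i y := colL i y him.le h2.le (by omega) (by omega)
      refine ⟨?_, this⟩
      rw [this, ← hiA']
      exact ⟨y, ⟨hy, h1, h2⟩, rfl⟩
    rcases lt_or_eq_of_le h1 with h1 | h1 <;> rcases lt_or_eq_of_le h2 with h2 | h2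
    · rw [(e1 y hy.1 hy.2.1 h1).2, (e1 z hz.1 hz.2.1 h2).2] at hyz
      exact hiA ⟨hy.1, hy.2.1, h1⟩ ⟨hz.1, hz.2.1, h2⟩ hyz
    · subst h2
      rw [colim] at hyz
      exact absurd (hyz ▸ (e1 y hy.1 hy.2.1 h1).1) (hA1 hz.1)
    · subst h1
      rw [colim] at hyz
      exact absurd (hyz ▸ (e1 z hz.1 hz.2.1 h2).1) (hA1 hy.1)
    · rw [h1, h2]
  · ext k
    rw [hA k]
    constructor
    · rintro ⟨y, ⟨hy, h1, h2⟩, rfl⟩
      rcases lt_or_eq_of_le (hinot y hy h1 h2) with h3 | h3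
      · left
        rw [colL i y him.le h3.le (by omega) (by omega), ← hiA']
        exact ⟨y, ⟨hy, h1, h3⟩, rfl⟩
      · subst h3
        exact Or.inr ⟨colim, hy⟩
    · rintro (hk | ⟨rfl, hk⟩)
      · rw [← hiA'] at hk
        obtain ⟨y, ⟨hy, h1, h2⟩, rfl⟩ := hk
        exact ⟨y, ⟨hy, h1, by omega⟩, colL i y him.le h2.le (by omega) (by omega)⟩
      · exact ⟨m, ⟨hk, him, hmj⟩, colim⟩
  · -- injectivity at `j`
    intro y hy z hz hyz
    have h1 := hjnot y hy.1 hy.2.1 hy.2.2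
    have h2 := hjnot z hz.1 hz.2.1 hz.2.2
    have e1 : ∀ y, G.Adj j y → m < y → y < j → col j y ∈ B2 ∧ col j y = col2 j y := by
      intro y hy h1 h2
      have : col j y = col2 j y := colR j y hmj.le h1.le (by omega) (by omega) (by omega)
      refine ⟨?_, this⟩
      rw [this, ← hjB']
      exact ⟨y, ⟨hy, h1, h2⟩, rfl⟩
    rcases lt_or_eq_of_le h1 with h1 | h1 <;> rcases lt_or_eq_of_le h2 with h2 | h2
    · rw [(e1 y hy.1 h1 hy.2.2).2, (e1 z hz.1 h2 hz.2.2).2] at hyz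
      exact hjB ⟨hy.1, h1, hy.2.2⟩ ⟨hz.1, h2, hz.2.2⟩ hyz
    · subst h2
      rw [coljm] at hyz
      exact absurd (hyz ▸ (e1 y hy.1 h1 hy.2.2).1) (hB2 hz.1.symm)
    · subst h1
      rw [coljm] at hyz
      exact absurd (hyz ▸ (e1 z hz.1 h2 hz.2.2).1) (hB2 hy.1.symm)
    · rw [← h1, ← h2]
  · ext k
    rw [hB k]
    constructor
    · rintro ⟨y, ⟨hy, h1, h2⟩, rfl⟩
      rcases lt_or_eq_of_le (hjnot y hy h1 h2) with h3 | h3
      · left
        rw [colR j y hmj.le h3.le (by omega) (by omega) (by omega), ← hjB']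
        exact ⟨y, ⟨hy, h3, h2⟩, rfl⟩
      · subst h3
        exact Or.inr ⟨coljm, hy.symm⟩
    · rintro (hk | ⟨rfl, hk⟩)
      · rw [← hjB'] at hk
        obtain ⟨y, ⟨hy, h1, h2⟩, rfl⟩ := hk
        exact ⟨y, ⟨hy, by omega, h2⟩, colR j y hmj.le h1.le (by omega) (by omega) (by omega)⟩
      · exact ⟨m, ⟨hk.symm, him, hmj⟩, coljm⟩

/-- number of neighbours of `i` strictly between `i` and `j` -/
noncomputable def P (G : SimpleGraph ℤ) (i j : ℤ) : ℕ :=
  {y | G.Adj i y ∧ i < y ∧ y < j}.ncard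

/-- number of neighbours of `j` strictly between `i` and `j` -/
noncomputable def Q (G : SimpleGraph ℤ) (i j : ℤ) : ℕ :=
  {y | G.Adj j y ∧ i < y ∧ y < j}.ncard

lemma finite_nb (G : SimpleGraph ℤ) (x i j : ℤ) : {y | G.Adj x y ∧ i < y ∧ y < j}.Finite :=
  (Set.finite_Ioo i j).subset (fun _ hy => ⟨hy.2.1, hy.2.2⟩)

lemma Q_rev (G : SimpleGraph ℤ) (i j : ℤ) : Q (rev G) (-j) (-i) = P G i j := by
  have : {y | G.Adj i y ∧ i < y ∧ y < j} =
      (fun y => -y) '' {y | (rev G).Adj (-i) y ∧ -j < y ∧ y < -i} := by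
    ext y
    simp only [Set.mem_image, rev_adj, neg_neg]
    constructor
    · rintro ⟨hy, h1, h2⟩
      exact ⟨-y, ⟨by simpa using hy, by omega, by omega⟩, by simp⟩
    · rintro ⟨z, ⟨hz, h1, h2⟩, rfl⟩
      exact ⟨hz, by omega, by omega⟩
  rw [P, this, Set.ncard_image_of_injective _ neg_injective, Q]

lemma P_rev (G : SimpleGraph ℤ) (i j : ℤ) : P (rev G) (-j) (-i) = Q G i j := by
  have : {y | G.Adj j y ∧ i < y ∧ y < j} =
      (fun y => -y) '' {y | (rev G).Adj (-j) y ∧ -j < y ∧ y < -i} := by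
    ext y
    simp only [Set.mem_image, rev_adj, neg_neg]
    constructor
    · rintro ⟨hy, h1, h2⟩
      exact ⟨-y, ⟨by simpa using hy, by omega, by omega⟩, by simp⟩
    · rintro ⟨z, ⟨hz, h1, h2⟩, rfl⟩
      exact ⟨hz, by omega, by omega⟩
  rw [Q, this, Set.ncard_image_of_injective _ neg_injective, P]

lemma NC_rev {G : SimpleGraph ℤ} (h : NC G) : NC (rev G) := by
  intro a b c d hab hbc hcd h1 h2
  rw [rev_adj] at h1 h2
  exact h (-d) (-c) (-b) (-a) (by omega) (by omega) (by omega) h2.symm h1.symm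

lemma Closed_rev {G : SimpleGraph ℤ} {i j : ℤ} (h : Closed G i j) : Closed (rev G) (-j) (-i) := by
  intro x y hx hx' hxy
  rw [rev_adj] at hxy
  have := h (-x) (-y) (by omega) (by omega) hxy
  omega

lemma P_split {G : SimpleGraph ℤ} {i m j : ℤ} (him : i < m) (hmj : m < j) (hsep : Sep G i m j)
    (hadj : G.Adj i m) : P G i j = P G i m + 1 := by
  have h1 : {y | G.Adj i y ∧ i < y ∧ y < j} = insert m {y | G.Adj i y ∧ i < y ∧ y < m} := by
    ext y
    simp only [Set.mem_insert_iff]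
    constructor
    · rintro ⟨hy, h1, h2⟩
      rcases lt_trichotomy y m with h3 | h3 | h3
      · exact Or.inr ⟨hy, h1, h3⟩
      · exact Or.inl h3
      · have := hsep i y hy le_rfl him h3 h2.le
        omega
    · rintro (rfl | ⟨hy, h1, h2⟩)
      · exact ⟨hadj, him, hmj⟩
      · exact ⟨hy, h1, by omega⟩
  rw [P, h1, Set.ncard_insert_of_notMem _ (finite_nb G i i m), P]
  rintro ⟨_, _, h2⟩
  omega

lemma P_split' {G : SimpleGraph ℤ} {i m j : ℤ} (him : i < m) (hmj : m < j) (hsep : Sep G i m j)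
    (hadj : ¬ G.Adj i m) : P G i j = P G i m := by
  have h1 : {y | G.Adj i y ∧ i < y ∧ y < j} = {y | G.Adj i y ∧ i < y ∧ y < m} := by
    ext y
    constructor
    · rintro ⟨hy, h1, h2⟩
      rcases lt_trichotomy y m with h3 | h3 | h3
      · exact ⟨hy, h1, h3⟩
      · exact absurd (h3 ▸ hy) hadj
      · have := hsep i y hy le_rfl him h3 h2.le
        omega
    · rintro ⟨hy, h1, h2⟩
      exact ⟨hy, h1, by omega⟩
  rw [P, h1, P]

lemma Sep_rev {G : SimpleGraph ℤ} {i m j : ℤ} (hsep : Sep G i m j) :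
    Sep (rev G) (-j) (-m) (-i) := by
  intro x y hxy h1 h2 h3 h4
  rw [rev_adj] at hxy
  have := hsep (-y) (-x) hxy.symm (by omega) (by omega) (by omega) (by omega)
  omega

lemma Q_split {G : SimpleGraph ℤ} {i m j : ℤ} (him : i < m) (hmj : m < j) (hsep : Sep G i m j)
    (hadj : G.Adj m j) : Q G i j = Q G m j + 1 := by
  rw [← P_rev, ← P_rev]
  exact P_split (by omega) (by omega) (Sep_rev hsep) (by rw [rev_adj, neg_neg, neg_neg]; exact hadj.symm)

lemma Q_split' {G : SimpleGraph ℤ} {i m j : ℤ} (him : i < m) (hmj : m < j) (hsep : Sep G i m j)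
    (hadj : ¬ G.Adj m j) : Q G i j = Q G m j := by
  rw [← P_rev, ← P_rev]
  exact P_split' (by omega) (by omega) (Sep_rev hsep)
    (by rw [rev_adj, neg_neg, neg_neg]; exact fun h => hadj h.symm)

lemma Closed_left {G : SimpleGraph ℤ} {i m j : ℤ} (hmj : m < j) (hsep : Sep G i m j)
    (hcl : Closed G i j) : Closed G i m := by
  intro x y hx hxm hxy
  have := hcl x y hx (by omega) hxy
  refine ⟨this.1, ?_⟩
  by_contra hcon
  have := hsep x y hxy (by omega) hxm (by omega) this.2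
  omega

lemma Closed_right {G : SimpleGraph ℤ} {i m j : ℤ} (him : i < m) (hsep : Sep G i m j)
    (hcl : Closed G i j) : Closed G m j := by
  intro x y hx hxj hxy
  have := hcl x y (by omega) hxj hxy
  refine ⟨?_, this.2⟩
  by_contra hcon
  have := hsep y x hxy.symm this.1 (by omega) hx (by omega)
  omega

/-- `{1,...,p}` -/
def U (p : ℤ) : Set ℤ := {x | 1 ≤ x ∧ x ≤ p}

/-- `{-1,...,-p}` -/
def D (p : ℤ) : Set ℤ := {x | -p ≤ x ∧ x ≤ -1}

/-- `{-1,1,...,p-1}` -/
def W1 (p : ℤ) : Set ℤ := {x | -1 ≤ x ∧ x ≤ p - 1 ∧ x ≠ 0}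

/-- `{1,-1,...,-(p-1)}` -/
def W1' (p : ℤ) : Set ℤ := {x | 1 - p ≤ x ∧ x ≤ 1 ∧ x ≠ 0}

/-- `{2,...,p+1}` -/
def W2 (p : ℤ) : Set ℤ := {x | 2 ≤ x ∧ x ≤ p + 1}

/-- `{-2,...,-(p+1)}` -/
def W2' (p : ℤ) : Set ℤ := {x | -p - 1 ≤ x ∧ x ≤ -2}

/-- The inductive statement. -/
def Stmt (G : SimpleGraph ℤ) (i j : ℤ) : Prop :=
  Sol G i j (U (P G i j)) (D (Q G i j)) ∧
  (¬ (P G i j = 1 ∧ Q G i j = 1) → Sol G i j (U (P G i j)) (U (Q G i j))) ∧
  (1 ≤ Q G i j → Sol G i j (U (P G i j)) (W1 (Q G i j))) ∧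
  Sol G i j (U (P G i j)) (W2 (Q G i j)) ∧
  (1 ≤ P G i j → Sol G i j (W1' (P G i j)) (W2 (Q G i j)))

/-- everything available for a smaller piece -/
structure Full (G : SimpleGraph ℤ) (i j : ℤ) (p q : ℤ) : Prop where
  UD : Sol G i j (U p) (D q)
  UU : ¬ (p = 1 ∧ q = 1) → Sol G i j (U p) (U q)
  DD : ¬ (p = 1 ∧ q = 1) → Sol G i j (D p) (D q)
  UV : 1 ≤ q → Sol G i j (U p) (W1 q)
  UW : Sol G i j (U p) (W2 q)
  WU : Sol G i j (W2 p) (U q)
  Dw : Sol G i j (D p) (W2' q)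
  wD : Sol G i j (W2' p) (D q)
  vW : 1 ≤ p → Sol G i j (W1' p) (W2 q)

lemma mem_sh {c x : ℤ} {A : Set ℤ} : x ∈ sh c A ↔ x - c ∈ A := Iff.rfl

lemma mem_ng {x : ℤ} {A : Set ℤ} : x ∈ ng A ↔ -x ∈ A := Iff.rfl

lemma mem_U {p x : ℤ} : x ∈ U p ↔ 1 ≤ x ∧ x ≤ p := Iff.rfl

lemma mem_D {p x : ℤ} : x ∈ D p ↔ -p ≤ x ∧ x ≤ -1 := Iff.rfl

lemma mem_W1 {p x : ℤ} : x ∈ W1 p ↔ -1 ≤ x ∧ x ≤ p - 1 ∧ x ≠ 0 := Iff.rfl

lemma mem_W1' {p x : ℤ} : x ∈ W1' p ↔ 1 - p ≤ x ∧ x ≤ 1 ∧ x ≠ 0 := Iff.rfl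

lemma mem_W2 {p x : ℤ} : x ∈ W2 p ↔ 2 ≤ x ∧ x ≤ p + 1 := Iff.rfl

lemma mem_W2' {p x : ℤ} : x ∈ W2' p ↔ -p - 1 ≤ x ∧ x ≤ -2 := Iff.rfl

lemma Full.of_stmt {G : SimpleGraph ℤ} {i j : ℤ} (h : Stmt G i j)
    (h' : Stmt (rev G) (-j) (-i)) : Full G i j (P G i j) (Q G i j) := by
  obtain ⟨h1, h2, h3, h4, h5⟩ := h
  obtain ⟨-, -, -, k4, -⟩ := h'
  rw [P_rev, Q_rev] at k4
  have n1 : ¬ (((P G i j : ℕ) : ℤ) = 1 ∧ ((Q G i j : ℕ) : ℤ) = 1) →
      ¬ (P G i j = 1 ∧ Q G i j = 1) := by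
    intro h ⟨e1, e2⟩
    apply h
    omega
  refine ⟨h1, fun h => h2 (n1 h), fun h => ?_, fun h => h3 (by omega), h4, k4.of_rev, ?_, ?_,
    fun h => h5 (by omega)⟩
  · refine (h2 (n1 h)).ng.congr ?_ ?_ <;> intro x <;> simp only [mem_ng, mem_U, mem_D] <;> omega
  · refine h4.ng.congr ?_ ?_ <;> intro x <;>
      simp only [mem_ng, mem_U, mem_D, mem_W2, mem_W2'] <;> omega
  · refine k4.of_rev.ng.congr ?_ ?_ <;> intro x <;>
      simp only [mem_ng, mem_U, mem_D, mem_W2, mem_W2'] <;> omega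

/-- induction hypothesis: everything holds for all shorter pieces of all graphs -/
def Hyp (n : ℤ) : Prop := ∀ (G : SimpleGraph ℤ) (i j : ℤ), NC G → Closed G i j → i < j →
  j - i < n → Full G i j (P G i j) (Q G i j)

lemma merge_AA {G : SimpleGraph ℤ} {i m j : ℤ} (him : i < m) (hmj : m < j) (hsep : Sep G i m j)
    (hcl : Closed G i j) (ha : G.Adj i m) (hb : G.Adj m j) {A1 S1 S2 B2 A B : Set ℤ}
    (h1 : Sol G i m A1 S1) (h2 : Sol G m j S2 B2) (c1 c2 : ℤ)
    (hA : ∀ x, x ∈ A ↔ (x ∈ A1 ∨ x = c1)) (hA1 : c1 ∉ A1)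
    (hB : ∀ x, x ∈ B ↔ (x ∈ B2 ∨ x = c2)) (hB2 : c2 ∉ B2)
    (hd : ∀ x, x ∈ S1 → x ∉ S2) (hd1 : c1 ∉ S1 ∧ c1 ∉ S2)
    (hd2 : c2 ∉ S1 ∧ c2 ∉ S2) (hd3 : c1 ≠ c2) (a b h : ℤ)
    (hnear : ∀ x, (x ∈ S1 ∨ x ∈ S2 ∨ x = c1 ∨ x = c2) ↔ (a ≤ x ∧ x ≤ b ∧ x ≠ h)) :
    Sol G i j A B :=
  merge him hmj hsep hcl h1 h2 c1 c2 (by simpa [ha] using hA) (fun _ => hA1)
    (by simpa [hb] using hB) (fun _ => hB2) hd (fun _ => hd1) (fun _ => hd2) (fun _ _ => hd3)
    a b h (by simpa [ha, hb] using hnear)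

lemma merge_AN {G : SimpleGraph ℤ} {i m j : ℤ} (him : i < m) (hmj : m < j) (hsep : Sep G i m j)
    (hcl : Closed G i j) (ha : G.Adj i m) (hb : ¬ G.Adj m j) {A1 S1 S2 B A : Set ℤ}
    (h1 : Sol G i m A1 S1) (h2 : Sol G m j S2 B) (c1 : ℤ)
    (hA : ∀ x, x ∈ A ↔ (x ∈ A1 ∨ x = c1)) (hA1 : c1 ∉ A1)
    (hd : ∀ x, x ∈ S1 → x ∉ S2) (hd1 : c1 ∉ S1 ∧ c1 ∉ S2) (a b h : ℤ)
    (hnear : ∀ x, (x ∈ S1 ∨ x ∈ S2 ∨ x = c1) ↔ (a ≤ x ∧ x ≤ b ∧ x ≠ h)) :
    Sol G i j A B :=
  merge him hmj hsep hcl h1 h2 c1 0 (by simpa [ha] using hA) (fun _ => hA1)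
    (by simp [hb]) (fun h => absurd h hb) hd (fun _ => hd1) (fun h => absurd h hb)
    (fun _ h => absurd h hb) a b h (by simpa [ha, hb] using hnear)

lemma merge_NA {G : SimpleGraph ℤ} {i m j : ℤ} (him : i < m) (hmj : m < j) (hsep : Sep G i m j)
    (hcl : Closed G i j) (ha : ¬ G.Adj i m) (hb : G.Adj m j) {S1 S2 B2 A B : Set ℤ}
    (h1 : Sol G i m A S1) (h2 : Sol G m j S2 B2) (c2 : ℤ)
    (hB : ∀ x, x ∈ B ↔ (x ∈ B2 ∨ x = c2)) (hB2 : c2 ∉ B2)
    (hd : ∀ x, x ∈ S1 → x ∉ S2) (hd2 : c2 ∉ S1 ∧ c2 ∉ S2) (a b h : ℤ)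
    (hnear : ∀ x, (x ∈ S1 ∨ x ∈ S2 ∨ x = c2) ↔ (a ≤ x ∧ x ≤ b ∧ x ≠ h)) :
    Sol G i j A B :=
  merge him hmj hsep hcl h1 h2 0 c2 (by simp [ha]) (fun h => absurd h ha)
    (by simpa [hb] using hB) (fun _ => hB2) hd (fun h => absurd h ha) (fun _ => hd2)
    (fun h => absurd h ha) a b h (by simpa [ha, hb] using hnear)

lemma merge_NN {G : SimpleGraph ℤ} {i m j : ℤ} (him : i < m) (hmj : m < j) (hsep : Sep G i m j)
    (hcl : Closed G i j) (ha : ¬ G.Adj i m) (hb : ¬ G.Adj m j) {S1 S2 A B : Set ℤ}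
    (h1 : Sol G i m A S1) (h2 : Sol G m j S2 B)
    (hd : ∀ x, x ∈ S1 → x ∉ S2) (a b h : ℤ)
    (hnear : ∀ x, (x ∈ S1 ∨ x ∈ S2) ↔ (a ≤ x ∧ x ≤ b ∧ x ≠ h)) :
    Sol G i j A B :=
  merge him hmj hsep hcl h1 h2 0 0 (by simp [ha]) (fun h => absurd h ha)
    (by simp [hb]) (fun h => absurd h hb) hd (fun h => absurd h ha) (fun h => absurd h hb)
    (fun h => absurd h ha) a b h (by simpa [ha, hb] using hnear)

lemma last_nb {G : SimpleGraph ℤ} {i j : ℤ} (hnc : NC G) (h : 1 ≤ P G i j) :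
    ∃ m, i < m ∧ m < j ∧ G.Adj i m ∧ Sep G i m j := by
  have hfin := finite_nb G i i j
  have hne : {y | G.Adj i y ∧ i < y ∧ y < j}.Nonempty := by
    rw [← Set.ncard_pos hfin]; exact h
  obtain ⟨m, hm, hmax⟩ := Set.exists_max_image _ id hfin hne
  refine ⟨m, hm.2.1, hm.2.2, hm.1, ?_⟩
  intro x y hxy h1 h2 h3 h4
  rcases eq_or_lt_of_le h1 with rfl | h5
  · refine ⟨rfl, ?_⟩
    by_contra hcon
    have := hmax y ⟨hxy, by omega, by omega⟩
    simp only [id] at this
    omega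
  · exact absurd hxy (hnc i x m y h5 h2 h3 hm.1)

lemma first_nb {G : SimpleGraph ℤ} {i j : ℤ} (hnc : NC G) (h : 1 ≤ Q G i j) :
    ∃ m, i < m ∧ m < j ∧ G.Adj m j ∧ Sep G i m j := by
  rw [← P_rev] at h
  obtain ⟨m, h1, h2, h3, h4⟩ := last_nb (NC_rev hnc) h
  refine ⟨-m, by omega, by omega, ?_, ?_⟩
  · rw [rev_adj, neg_neg] at h3
    exact h3.symm
  · intro x y hxy k1 k2 k3 k4
    have := h4 (-y) (-x) (by rw [rev_adj, neg_neg, neg_neg]; exact hxy.symm) (by omega) (by omega)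
      (by omega) (by omega)
    omega

section rules

variable {G : SimpleGraph ℤ} {i j : ℤ}

lemma alpha_pos (hnc : NC G) (hcl : Closed G i j) (hH : Hyp (j - i)) (hp : 1 ≤ P G i j) :
    Sol G i j (U (P G i j)) (D (Q G i j)) := by
  obtain ⟨m, him, hmj, ha, hsep⟩ := last_nb hnc hp
  have hP := P_split him hmj hsep ha
  have F1 := hH G i m hnc (Closed_left hmj hsep hcl) him (by omega)
  have F2 := hH G m j hnc (Closed_right him hsep hcl) hmj (by omega)
  by_cases hb : G.Adj m j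
  · have hQ := Q_split him hmj hsep hb
    by_cases e1 : ((P G i m : ℤ) = 1 ∧ (Q G i m : ℤ) = 1) <;>
    by_cases e2 : ((P G m j : ℤ) = 1 ∧ (Q G m j : ℤ) = 1)
    · refine merge_AA him hmj hsep hcl ha hb (F1.UD.sh 1) (F2.wD.sh (-1)) 1 (-1)
        ?_ ?_ ?_ ?_ ?_ ?_ ?_ ?_ (-3) 1 (-2) ?_ <;>
      first
        | exact fun _ => Iff.rfl
        | omega
        | (simp only [mem_sh, mem_U, mem_D, mem_W1, mem_W1', mem_W2, mem_W2']; omega)
        | (intro x; simp only [mem_sh, mem_U, mem_D, mem_W1, mem_W1', mem_W2, mem_W2']; omega)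
    · refine merge_AA him hmj hsep hcl ha hb (F1.UD.sh 1) ((F2.DD e2).sh (-1)) 1 (-1)
        ?_ ?_ ?_ ?_ ?_ ?_ ?_ ?_ (-1 - P G m j) 1 2 ?_ <;>
      first
        | exact fun _ => Iff.rfl
        | omega
        | (simp only [mem_sh, mem_U, mem_D, mem_W1, mem_W1', mem_W2, mem_W2']; omega)
        | (intro x; simp only [mem_sh, mem_U, mem_D, mem_W1, mem_W1', mem_W2, mem_W2']; omega)
    · refine merge_AA him hmj hsep hcl ha hb ((F1.UU e1).sh 1) (F2.UD.sh (-1)) 1 (-1)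
        ?_ ?_ ?_ ?_ ?_ ?_ ?_ ?_ (-1) (1 + Q G i m) (-2) ?_ <;>
      first
        | exact fun _ => Iff.rfl
        | omega
        | (simp only [mem_sh, mem_U, mem_D, mem_W1, mem_W1', mem_W2, mem_W2']; omega)
        | (intro x; simp only [mem_sh, mem_U, mem_D, mem_W1, mem_W1', mem_W2, mem_W2']; omega)
    · refine merge_AA him hmj hsep hcl ha hb ((F1.UU e1).sh 1) ((F2.DD e2).sh (-1)) 1 (-1)
        ?_ ?_ ?_ ?_ ?_ ?_ ?_ ?_ (-1 - P G m j) (1 + Q G i m) 0 ?_ <;>
      first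
        | exact fun _ => Iff.rfl
        | omega
        | (simp only [mem_sh, mem_U, mem_D, mem_W1, mem_W1', mem_W2, mem_W2']; omega)
        | (intro x; simp only [mem_sh, mem_U, mem_D, mem_W1, mem_W1', mem_W2, mem_W2']; omega)
  · have hQ := Q_split' him hmj hsep hb
    by_cases e1 : ((P G i m : ℤ) = 1 ∧ (Q G i m : ℤ) = 1)
    · refine (merge_AN him hmj hsep hcl ha hb (F1.UW.sh 1) (F2.Dw.sh 1) 1
        (A := U (P G i j)) ?_ ?_ ?_ ?_ (1 - P G m j) 3 2 ?_).congr ?_ ?_ <;>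
      first
        | exact fun _ => Iff.rfl
        | omega
        | (simp only [mem_sh, mem_U, mem_D, mem_W1, mem_W1', mem_W2, mem_W2']; omega)
        | (intro x; simp only [mem_sh, mem_U, mem_D, mem_W1, mem_W1', mem_W2, mem_W2']; omega)
    · refine (merge_AN him hmj hsep hcl ha hb ((F1.UU e1).sh 1) (F2.Dw.sh 1) 1
        (A := U (P G i j)) ?_ ?_ ?_ ?_ (1 - P G m j) (1 + Q G i m) (2 + Q G i m) ?_).congr ?_ ?_ <;>
      first
        | exact fun _ => Iff.rfl
        | omega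
        | (simp only [mem_sh, mem_U, mem_D, mem_W1, mem_W1', mem_W2, mem_W2']; omega)
        | (intro x; simp only [mem_sh, mem_U, mem_D, mem_W1, mem_W1', mem_W2, mem_W2']; omega)

lemma no_mid_sep (him : i + 1 < j) (hP : P G i j = 0) : Sep G i (i+1) j := by
  intro x y hxy h1 h2 h3 h4
  have hx : x = i := by omega
  subst hx
  refine ⟨rfl, ?_⟩
  by_contra hcon
  have : {y | G.Adj x y ∧ x < y ∧ y < j} = ∅ := by
    rwa [← Set.ncard_eq_zero (finite_nb G x x j)]
  have h5 : y ∈ {y | G.Adj x y ∧ x < y ∧ y < j} := ⟨hxy, by omega, by omega⟩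
  rw [this] at h5
  exact h5

lemma base_case (hij : j = i + 1) {A B : Set ℤ} (hA : ∀ x, x ∉ A) (hB : ∀ x, x ∉ B) :
    Sol G i j A B := by
  have h1 : ∀ x : ℤ, {y | G.Adj x y ∧ i < y ∧ y < j} = ∅ := by
    intro x
    ext y
    simp only [Set.mem_empty_iff_false, iff_false]
    rintro ⟨_, h1, h2⟩
    omega
  refine ⟨fun _ _ => 0, fun _ _ => rfl, fun x h1 h2 => by omega, ?_, ?_, ?_, ?_⟩
  · rw [h1]; simp
  · rw [h1, Set.image_empty]
    ext x; simp [hA x]
  · rw [h1]; simp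
  · rw [h1, Set.image_empty]
    ext x; simp [hB x]

lemma alpha (hnc : NC G) (hcl : Closed G i j) (hij : i < j) (hH : Hyp (j - i)) :
    Sol G i j (U (P G i j)) (D (Q G i j)) := by
  by_cases hp : 1 ≤ P G i j
  · exact alpha_pos hnc hcl hH hp
  by_cases hq : 1 ≤ Q G i j
  · have h1 := alpha_pos (NC_rev hnc) (Closed_rev hcl) (by
      have : -i - -j = j - i := by ring
      rw [this]; exact hH) (by rw [P_rev]; exact hq)
    rw [P_rev, Q_rev] at h1
    apply Sol.of_rev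
    refine h1.ng.congr ?_ ?_ <;> intro x <;> simp only [mem_ng, mem_U, mem_D] <;> omega
  · by_cases hm : i + 1 < j
    · have hsep := no_mid_sep (G := G) hm (by omega)
      have ha : ¬ G.Adj i (i+1) := by
        intro ha
        have := P_split (by omega) hm hsep ha
        omega
      have hb : ¬ G.Adj (i+1) j := by
        intro hb
        have := Q_split (by omega) hm hsep hb
        omega
      have hP := P_split' (by omega) hm hsep ha
      have hQ := Q_split' (by omega) hm hsep hb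
      have F1 := hH G i (i+1) hnc (Closed_left hm hsep hcl) (by omega) (by omega)
      have F2 := hH G (i+1) j hnc (Closed_right (by omega) hsep hcl) hm (by omega)
      rw [hP, hQ]
      refine merge_NN (by omega) hm hsep hcl ha hb F1.UD F2.UD ?_ (-(Q G i (i+1))) (P G (i+1) j) 0 ?_ <;>
      first
        | exact fun _ => Iff.rfl
        | omega
        | (simp only [mem_sh, mem_U, mem_D, mem_W1, mem_W1', mem_W2, mem_W2']; omega)
        | (intro x; simp only [mem_sh, mem_U, mem_D, mem_W1, mem_W1', mem_W2, mem_W2']; omega)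
    · apply base_case (by omega)
      · intro x; rw [mem_U]; omega
      · intro x; rw [mem_D]; omega

lemma beta1 (hnc : NC G) (hcl : Closed G i j) (hH : Hyp (j - i)) (hp : 1 ≤ P G i j)
    (hq : Q G i j ≠ 1) : Sol G i j (U (P G i j)) (U (Q G i j)) := by
  obtain ⟨m, him, hmj, ha, hsep⟩ := last_nb hnc hp
  have hP := P_split him hmj hsep ha
  have F1 := hH G i m hnc (Closed_left hmj hsep hcl) him (by omega)
  have F2 := hH G m j hnc (Closed_right him hsep hcl) hmj (by omega)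
  by_cases hb : G.Adj m j
  · have hQ := Q_split him hmj hsep hb
    refine merge_AA him hmj hsep hcl ha hb (F1.UD.sh 1) ((F2.UV (by omega)).sh 2) 1 2
      ?_ ?_ ?_ ?_ ?_ ?_ ?_ ?_ (1 - Q G i m) (2 + P G m j) (3 + P G m j) ?_ <;>
      first
        | exact fun _ => Iff.rfl
        | omega
        | (simp only [mem_sh, mem_U, mem_D, mem_W1, mem_W1', mem_W2, mem_W2']; omega)
        | (intro x; simp only [mem_sh, mem_U, mem_D, mem_W1, mem_W1', mem_W2, mem_W2']; omega)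
  · have hQ := Q_split' him hmj hsep hb
    rw [hQ]
    refine merge_AN him hmj hsep hcl ha hb (F1.UD.sh 1) F2.WU 1
      ?_ ?_ ?_ ?_ (1 - Q G i m) (1 + P G m j) (2 + P G m j) ?_ <;>
      first
        | exact fun _ => Iff.rfl
        | omega
        | (simp only [mem_sh, mem_U, mem_D, mem_W1, mem_W1', mem_W2, mem_W2']; omega)
        | (intro x; simp only [mem_sh, mem_U, mem_D, mem_W1, mem_W1', mem_W2, mem_W2']; omega)

lemma beta (hnc : NC G) (hcl : Closed G i j) (hij : i < j) (hH : Hyp (j - i))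
    (hpq : ¬ (P G i j = 1 ∧ Q G i j = 1)) : Sol G i j (U (P G i j)) (U (Q G i j)) := by
  by_cases h1 : 1 ≤ P G i j ∧ Q G i j ≠ 1
  · exact beta1 hnc hcl hH h1.1 h1.2
  by_cases h2 : 1 ≤ Q G i j ∧ P G i j ≠ 1
  · have h3 := beta1 (NC_rev hnc) (Closed_rev hcl) (by
      have : -i - -j = j - i := by ring
      rw [this]; exact hH) (by rw [P_rev]; exact h2.1) (by rw [Q_rev]; exact h2.2)
    rw [P_rev, Q_rev] at h3
    exact h3.of_rev
  · refine (alpha hnc hcl hij hH).congr (fun _ => Iff.rfl) ?_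
    intro x
    simp only [mem_U, mem_D]
    omega

lemma gamma (hnc : NC G) (hcl : Closed G i j) (hH : Hyp (j - i)) (hq : 1 ≤ Q G i j) :
    Sol G i j (U (P G i j)) (W1 (Q G i j)) := by
  obtain ⟨m, him, hmj, hb, hsep⟩ := first_nb hnc hq
  have hQ := Q_split him hmj hsep hb
  have F1 := hH G i m hnc (Closed_left hmj hsep hcl) him (by omega)
  have F2 := hH G m j hnc (Closed_right him hsep hcl) hmj (by omega)
  by_cases ha : G.Adj i m
  · have hP := P_split him hmj hsep ha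
    by_cases hs : P G m j = 0
    · by_cases e1 : ((P G i m : ℤ) = 1 ∧ (Q G i m : ℤ) = 1)
      · refine merge_AA him hmj hsep hcl ha hb (F1.UD.sh 1) (F2.UW.sh (-1)) 1 (-1)
          ?_ ?_ ?_ ?_ ?_ ?_ ?_ ?_ (-1) 1 2 ?_ <;>
      first
        | exact fun _ => Iff.rfl
        | omega
        | (simp only [mem_sh, mem_U, mem_D, mem_W1, mem_W1', mem_W2, mem_W2']; omega)
        | (intro x; simp only [mem_sh, mem_U, mem_D, mem_W1, mem_W1', mem_W2, mem_W2']; omega)
      · refine merge_AA him hmj hsep hcl ha hb ((F1.UU e1).sh 1) (F2.UW.sh (-1)) 1 (-1)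
          ?_ ?_ ?_ ?_ ?_ ?_ ?_ ?_ (-1) (1 + Q G i m) 0 ?_ <;>
      first
        | exact fun _ => Iff.rfl
        | omega
        | (simp only [mem_sh, mem_U, mem_D, mem_W1, mem_W1', mem_W2, mem_W2']; omega)
        | (intro x; simp only [mem_sh, mem_U, mem_D, mem_W1, mem_W1', mem_W2, mem_W2']; omega)
    · by_cases e1 : ((P G i m : ℤ) = 1 ∧ (Q G i m : ℤ) = 1)
      · refine merge_AA him hmj hsep hcl ha hb (F1.UW.sh 1) ((F2.vW (by omega)).sh (-1)) 1 (-1)
          ?_ ?_ ?_ ?_ ?_ ?_ ?_ ?_ (-(P G m j)) 3 2 ?_ <;>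
      first
        | exact fun _ => Iff.rfl
        | omega
        | (simp only [mem_sh, mem_U, mem_D, mem_W1, mem_W1', mem_W2, mem_W2']; omega)
        | (intro x; simp only [mem_sh, mem_U, mem_D, mem_W1, mem_W1', mem_W2, mem_W2']; omega)
      · refine merge_AA him hmj hsep hcl ha hb ((F1.UU e1).sh 1) ((F2.vW (by omega)).sh (-1)) 1 (-1)
          ?_ ?_ ?_ ?_ ?_ ?_ ?_ ?_ (-(P G m j)) (1 + Q G i m) (2 + Q G i m) ?_ <;>
      first
        | exact fun _ => Iff.rfl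
        | omega
        | (simp only [mem_sh, mem_U, mem_D, mem_W1, mem_W1', mem_W2, mem_W2']; omega)
        | (intro x; simp only [mem_sh, mem_U, mem_D, mem_W1, mem_W1', mem_W2, mem_W2']; omega)
  · have hP := P_split' him hmj hsep ha
    by_cases hs : P G m j = 0
    · refine (merge_NA him hmj hsep hcl ha hb (F1.WU.sh (-1)) (F2.UW.sh (-1)) (-1)
        (B := W1 (Q G i j)) ?_ ?_ ?_ ?_ (-1) (Q G i m - 1) (Q G i m) ?_).congr ?_ ?_ <;>
      first
        | exact fun _ => Iff.rfl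
        | omega
        | (simp only [mem_sh, mem_U, mem_D, mem_W1, mem_W1', mem_W2, mem_W2']; omega)
        | (intro x; simp only [mem_sh, mem_U, mem_D, mem_W1, mem_W1', mem_W2, mem_W2']; omega)
    · rw [hP]
      refine merge_NA him hmj hsep hcl ha hb F1.UW ((F2.vW (by omega)).sh (-1)) (-1)
        ?_ ?_ ?_ ?_ (-(P G m j)) (Q G i m + 1) 1 ?_ <;>
      first
        | exact fun _ => Iff.rfl
        | omega
        | (simp only [mem_sh, mem_U, mem_D, mem_W1, mem_W1', mem_W2, mem_W2']; omega)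
        | (intro x; simp only [mem_sh, mem_U, mem_D, mem_W1, mem_W1', mem_W2, mem_W2']; omega)

lemma eps (hnc : NC G) (hcl : Closed G i j) (hij : i < j) (hH : Hyp (j - i)) :
    Sol G i j (U (P G i j)) (W2 (Q G i j)) := by
  by_cases hp : 1 ≤ P G i j
  · obtain ⟨m, him, hmj, ha, hsep⟩ := last_nb hnc hp
    have hP := P_split him hmj hsep ha
    have F1 := hH G i m hnc (Closed_left hmj hsep hcl) him (by omega)
    have F2 := hH G m j hnc (Closed_right him hsep hcl) hmj (by omega)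
    by_cases hb : G.Adj m j
    · have hQ := Q_split him hmj hsep hb
      by_cases e2 : ((P G m j : ℤ) = 1 ∧ (Q G m j : ℤ) = 1)
      · refine merge_AA him hmj hsep hcl ha hb (F1.UD.sh 1) (F2.WU.sh 2) 1 2
          ?_ ?_ ?_ ?_ ?_ ?_ ?_ ?_ (1 - Q G i m) 4 3 ?_ <;>
      first
        | exact fun _ => Iff.rfl
        | omega
        | (simp only [mem_sh, mem_U, mem_D, mem_W1, mem_W1', mem_W2, mem_W2']; omega)
        | (intro x; simp only [mem_sh, mem_U, mem_D, mem_W1, mem_W1', mem_W2, mem_W2']; omega)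
      · refine merge_AA him hmj hsep hcl ha hb (F1.UD.sh 1) ((F2.UU e2).sh 2) 1 2
          ?_ ?_ ?_ ?_ ?_ ?_ ?_ ?_ (1 - Q G i m) (2 + P G m j) (3 + P G m j) ?_ <;>
      first
        | exact fun _ => Iff.rfl
        | omega
        | (simp only [mem_sh, mem_U, mem_D, mem_W1, mem_W1', mem_W2, mem_W2']; omega)
        | (intro x; simp only [mem_sh, mem_U, mem_D, mem_W1, mem_W1', mem_W2, mem_W2']; omega)
    · have hQ := Q_split' him hmj hsep hb
      refine (merge_AN him hmj hsep hcl ha hb (F1.UD.sh 1) (F2.WU.sh 1) 1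
        (A := U (P G i j)) ?_ ?_ ?_ ?_ (1 - Q G i m) (P G m j + 2) 2 ?_).congr ?_ ?_ <;>
      first
        | exact fun _ => Iff.rfl
        | omega
        | (simp only [mem_sh, mem_U, mem_D, mem_W1, mem_W1', mem_W2, mem_W2']; omega)
        | (intro x; simp only [mem_sh, mem_U, mem_D, mem_W1, mem_W1', mem_W2, mem_W2']; omega)
  · refine ((beta hnc hcl hij hH (by omega)).sh 1).congr ?_ ?_ <;> intro x <;>
      simp only [mem_sh, mem_U, mem_W2] <;> omega

lemma zeta (hnc : NC G) (hcl : Closed G i j) (hH : Hyp (j - i)) (hp : 1 ≤ P G i j) :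
    Sol G i j (W1' (P G i j)) (W2 (Q G i j)) := by
  obtain ⟨m, him, hmj, ha, hsep⟩ := last_nb hnc hp
  have hP := P_split him hmj hsep ha
  have F1 := hH G i m hnc (Closed_left hmj hsep hcl) him (by omega)
  have F2 := hH G m j hnc (Closed_right him hsep hcl) hmj (by omega)
  by_cases hb : G.Adj m j
  · have hQ := Q_split him hmj hsep hb
    by_cases e2 : ((P G m j : ℤ) = 1 ∧ (Q G m j : ℤ) = 1)
    · refine merge_AA him hmj hsep hcl ha hb (F1.wD.sh 1) (F2.WU.sh 2) 1 2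
        ?_ ?_ ?_ ?_ ?_ ?_ ?_ ?_ (1 - Q G i m) 4 3 ?_ <;>
      first
        | exact fun _ => Iff.rfl
        | omega
        | (simp only [mem_sh, mem_U, mem_D, mem_W1, mem_W1', mem_W2, mem_W2']; omega)
        | (intro x; simp only [mem_sh, mem_U, mem_D, mem_W1, mem_W1', mem_W2, mem_W2']; omega)
    · refine merge_AA him hmj hsep hcl ha hb (F1.wD.sh 1) ((F2.UU e2).sh 2) 1 2
        ?_ ?_ ?_ ?_ ?_ ?_ ?_ ?_ (1 - Q G i m) (2 + P G m j) (3 + P G m j) ?_ <;>
      first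
        | exact fun _ => Iff.rfl
        | omega
        | (simp only [mem_sh, mem_U, mem_D, mem_W1, mem_W1', mem_W2, mem_W2']; omega)
        | (intro x; simp only [mem_sh, mem_U, mem_D, mem_W1, mem_W1', mem_W2, mem_W2']; omega)
  · have hQ := Q_split' him hmj hsep hb
    refine (merge_AN him hmj hsep hcl ha hb (F1.wD.sh 1) (F2.WU.sh 1) 1
      (A := W1' (P G i j)) ?_ ?_ ?_ ?_ (1 - Q G i m) (P G m j + 2) 2 ?_).congr ?_ ?_ <;>
      first
        | exact fun _ => Iff.rfl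
        | omega
        | (simp only [mem_sh, mem_U, mem_D, mem_W1, mem_W1', mem_W2, mem_W2']; omega)
        | (intro x; simp only [mem_sh, mem_U, mem_D, mem_W1, mem_W1', mem_W2, mem_W2']; omega)

end rules

lemma stmt_of_hyp {G : SimpleGraph ℤ} {i j : ℤ} (hnc : NC G) (hcl : Closed G i j) (hij : i < j)
    (hH : Hyp (j - i)) : Stmt G i j :=
  ⟨alpha hnc hcl hij hH, beta hnc hcl hij hH, gamma hnc hcl hH, eps hnc hcl hij hH,
    zeta hnc hcl hH⟩

lemma hyp_all : ∀ n : ℕ, Hyp n := by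
  intro n
  induction n with
  | zero =>
    intro G i j _ _ hij h
    simp at h
    omega
  | succ n ih =>
    intro G i j hnc hcl hij h
    have hH : Hyp (j - i) := by
      intro G' i' j' h1 h2 h3 h4
      exact ih G' i' j' h1 h2 h3 (by push_cast at h; omega)
    have hH' : Hyp (-i - -j) := by
      have : -i - -j = j - i := by ring
      rw [this]; exact hH
    exact Full.of_stmt (stmt_of_hyp hnc hcl hij hH)
      (stmt_of_hyp (NC_rev hnc) (Closed_rev hcl) (by omega) hH')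

/-- Every finite outerplanar graph has a near-interval coloring. -/
theorem result {V : Type*} [Finite V] (G : SimpleGraph V) (hG : Outerplanar G) :
    ∃ c : Sym2 V → ℤ, IsNearIntervalColoring G c := by
  obtain ⟨f, hf, hcross⟩ := hG
  -- the graph on the integers
  set G' : SimpleGraph ℤ := G.map f with hG'
  have hadj : ∀ x y, G'.Adj x y ↔ ∃ u v, G.Adj u v ∧ f u = x ∧ f v = y := by
    intro x y
    rw [hG', SimpleGraph.map_adj']
    constructor
    · exact fun h => h.2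
    · rintro ⟨u, v, h, rfl, rfl⟩
      exact ⟨fun hcon => h.ne (hf hcon), u, v, h, rfl, rfl⟩
  have hadj' : ∀ u v, G'.Adj (f u) (f v) ↔ G.Adj u v := by
    intro u v
    rw [hadj]
    constructor
    · rintro ⟨u', v', h, h1, h2⟩
      rw [← hf h1, ← hf h2]; exact h
    · intro h; exact ⟨u, v, h, rfl, rfl⟩
  have hnc : NC G' := by
    intro a b c d hab hbc hcd h1 h2
    rw [hadj] at h1 h2
    obtain ⟨u, v, huv, rfl, rfl⟩ := h1
    obtain ⟨u', v', huv', rfl, rfl⟩ := h2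
    exact hcross u u' v v' hab hbc hcd huv huv'
  have hfin : (Set.range f).Finite := Set.finite_range f
  obtain ⟨N, hN⟩ : ∃ N : ℤ, ∀ v, -N < f v ∧ f v < N := by
    obtain ⟨a, ha⟩ := hfin.bddAbove
    obtain ⟨b, hb⟩ := hfin.bddBelow
    refine ⟨max (|a| + 1) (|b| + 1), fun v => ?_⟩
    have h1 := ha ⟨v, rfl⟩
    have h2 := hb ⟨v, rfl⟩
    have h3 := le_abs_self a
    have h4 := neg_abs_le b
    have h5 := le_max_left (|a| + 1) (|b| + 1)
    have h6 := le_max_right (|a| + 1) (|b| + 1)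
    constructor <;> omega
  by_cases hV : Nonempty V
  · obtain ⟨v0⟩ := hV
    have hNpos : -N < N := (hN v0).1.trans (hN v0).2
    have hcl : Closed G' (-N) N := by
      intro x y _ _ hxy
      rw [hadj] at hxy
      obtain ⟨u, v, _, rfl, rfl⟩ := hxy
      exact ⟨(hN v).1.le, (hN v).2.le⟩
    have hH : Hyp (N - -N) := by
      have h1 := hyp_all (N - -N).toNat
      rwa [Int.toNat_of_nonneg (by omega)] at h1
    obtain ⟨col, hsym, hin, -⟩ := (stmt_of_hyp hnc hcl hNpos hH).1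
    refine ⟨Sym2.lift ⟨fun u v => col (f u) (f v), fun u v => hsym _ _⟩, ?_, ?_⟩
    · intro u v w huv huw hvw hcon
      simp only [Sym2.lift_mk] at hcon
      have h1 := (hin (f u) (hN u).1 (hN u).2).1
      have h2 := h1 ((hadj' u v).2 huv) ((hadj' u w).2 huw) hcon
      exact hvw (hf h2)
    · intro u ⟨v, huv⟩
      obtain ⟨a, b, h, hS⟩ := (hin (f u) (hN u).1 (hN u).2).2
      have hset : ∀ k, k ∈ {k | ∃ v, G.Adj u v ∧
          Sym2.lift ⟨fun u v => col (f u) (f v), fun u v => hsym _ _⟩ s(u, v) = k} ↔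
          (a ≤ k ∧ k ≤ b ∧ k ≠ h) := by
        intro k
        rw [← hS k]
        simp only [Sym2.lift_mk]
        constructor
        · rintro ⟨w, hw, rfl⟩
          exact ⟨f w, (hadj' u w).2 hw, rfl⟩
        · rintro ⟨y, hy, rfl⟩
          have hy' := hy
          rw [Set.mem_ofPred_eq, hadj] at hy'
          obtain ⟨u', w, _, _, rfl⟩ := hy'
          exact ⟨w, (hadj' u w).1 hy, rfl⟩
      have hne := (hset _).1 ⟨v, huv, rfl⟩
      set k0 := Sym2.lift ⟨fun u v => col (f u) (f v), fun u v => hsym _ _⟩ s(u, v)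
      by_cases h1 : a < h ∧ h < b
      · right
        refine ⟨a, h, b, h1.1, h1.2, ?_⟩
        ext k
        rw [hset k]
        simp only [Set.mem_sdiff, Set.mem_Icc, Set.mem_singleton_iff]
        tauto
      · left
        by_cases h2 : h = a
        · refine ⟨a + 1, b, by omega, ?_⟩
          ext k
          rw [hset k, Set.mem_Icc]
          omega
        · by_cases h3 : h = b
          · refine ⟨a, b - 1, by omega, ?_⟩
            ext k
            rw [hset k, Set.mem_Icc]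
            omega
          · refine ⟨a, b, by omega, ?_⟩
            ext k
            rw [hset k, Set.mem_Icc]
            omega
  · refine ⟨fun _ => 0, ?_, ?_⟩
    · intro u
      exact absurd ⟨u⟩ hV
    · intro u
      exact absurd ⟨u⟩ hV

end Pool.H30.MV.NearIntervalOuterplanar
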