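import Mathlib

set_option autoImplicit false
open scoped ComplexOrder

namespace Pool.H30.MV.RankThree

open Matrix

abbrev M3 := Matrix (Fin 3) (Fin 3) ℂ

/-! ### The polarised determinant -/

/-- six times the mixed discriminant of three 3x3 matrices -/
noncomputable def g (X Y Z : M3) : ℂ :=
  (X + Y + Z).det - (X + Y).det - (X + Z).det - (Y + Z).det + X.det + Y.det + Z.det

lemma g_comm12 (X Y Z : M3) : g X Y Z = g Y X Z := by
  simp only [g, det_fin_three, Matrix.add_apply]; ring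

lemma g_comm23 (X Y Z : M3) : g X Y Z = g X Z Y := by
  simp only [g, det_fin_three, Matrix.add_apply]; ring

lemma g_add (X X' Y Z : M3) : g (X + X') Y Z = g X Y Z + g X' Y Z := by
  simp only [g, det_fin_three, Matrix.add_apply]; ring

lemma g_smul (c : ℂ) (X Y Z : M3) : g (c • X) Y Z = c * g X Y Z := by
  simp only [g, det_fin_three, Matrix.add_apply, Matrix.smul_apply, smul_eq_mul]; ring

lemma g_sum (f : Fin 3 → M3) (Y Z : M3) : g (∑ i, f i) Y Z = ∑ i, g (f i) Y Z := by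
  simp only [Fin.sum_univ_three, g_add]

lemma g_sum2 (f : Fin 3 → M3) (X Z : M3) : g X (∑ i, f i) Z = ∑ i, g X (f i) Z := by
  rw [g_comm12, g_sum]; exact Finset.sum_congr rfl fun i _ => g_comm12 _ _ _

lemma g_smul2 (c : ℂ) (X Y Z : M3) : g X (c • Y) Z = c * g X Y Z := by
  rw [g_comm12, g_smul, g_comm12]

lemma g_sum3 (f : Fin 3 → M3) (X Y : M3) : g X Y (∑ i, f i) = ∑ i, g X Y (f i) := by
  rw [g_comm23, g_sum2]; exact Finset.sum_congr rfl fun i _ => g_comm23 _ _ _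

lemma g_smul3 (c : ℂ) (X Y Z : M3) : g X Y (c • Z) = c * g X Y Z := by
  rw [g_comm23, g_smul2, g_comm23]

lemma g_one_one_one : g 1 1 1 = 6 := by
  simp [g, det_fin_three]; norm_num

lemma det_eq_g (X : M3) : X.det = g X X X / 6 := by
  simp only [g, det_fin_three, Matrix.add_apply]; ring

/-! ### The pointwise inequality -/

lemma schur_strict (a b c : ℝ) (ha : 0 < a) (hb : 0 < b) (hc : 0 < c) :
    0 < (a + b + c) ^ 3 - 4 * (a + b + c) * (a * b + b * c + c * a) + 10 * (a * b * c) := by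
  have habc : 0 < a * b * c := by positivity
  nlinarith [mul_nonneg ha.le (sq_nonneg (a - b)), mul_nonneg hb.le (sq_nonneg (a - b)),
    mul_nonneg hc.le (sq_nonneg (a - b)), mul_nonneg ha.le (sq_nonneg (b - c)),
    mul_nonneg hb.le (sq_nonneg (b - c)), mul_nonneg hc.le (sq_nonneg (b - c)),
    mul_nonneg ha.le (sq_nonneg (c - a)), mul_nonneg hb.le (sq_nonneg (c - a)),
    mul_nonneg hc.le (sq_nonneg (c - a)), sq_nonneg (a - b), sq_nonneg (b - c), sq_nonneg (c - a)]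

lemma g_one (X : M3) : g 1 X X = X.trace ^ 2 - (X * X).trace := by
  simp only [g, det_fin_three, Matrix.add_apply, Matrix.trace, Matrix.diag, Matrix.mul_apply,
    Fin.sum_univ_three, Matrix.one_apply]
  simp
  ring

lemma trace_sq (X : M3) (h : X.IsHermitian) :
    (X * X).trace = ∑ i, ((h.eigenvalues i : ℂ)) ^ 2 := by
  have hs := h.spectral_theorem
  rw [Unitary.conjStarAlgAut_apply] at hs
  set U : M3 := (h.eigenvectorUnitary : M3) with hU
  set D : M3 := diagonal (RCLike.ofReal ∘ h.eigenvalues) with hD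
  have hUU : star U * U = 1 := by
    rw [hU]; exact Unitary.coe_star_mul_self _
  have : X * X = U * (D * D) * star U := by
    calc X * X = (U * D * star U) * (U * D * star U) := by
          conv_lhs => rw [hs]
      _ = U * D * (star U * U) * D * star U := by simp only [Matrix.mul_assoc]
      _ = U * (D * D) * star U := by rw [hUU]; simp only [Matrix.mul_assoc, Matrix.mul_one]
  rw [this, Matrix.trace_mul_comm, ← Matrix.mul_assoc, hUU, Matrix.one_mul, hD,
    Matrix.diagonal_mul_diagonal, Matrix.trace_diagonal]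
  simp [sq]

lemma F_pos (X : M3) (h : X.PosDef) :
    0 < X.trace ^ 3 - 2 * X.trace * g 1 X X + 10 * X.det := by
  have hH := h.isHermitian
  rw [g_one, trace_sq X hH, hH.trace_eq_sum_eigenvalues, hH.det_eq_prod_eigenvalues]
  have h0 := h.eigenvalues_pos 0
  have h1 := h.eigenvalues_pos 1
  have h2 := h.eigenvalues_pos 2
  have := schur_strict _ _ _ h0 h1 h2
  simp only [Fin.sum_univ_three, Fin.prod_univ_three]
  have e : ((hH.eigenvalues 0 : ℂ) + (hH.eigenvalues 1 : ℂ) + (hH.eigenvalues 2 : ℂ)) ^ 3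
      - 2 * ((hH.eigenvalues 0 : ℂ) + (hH.eigenvalues 1 : ℂ) + (hH.eigenvalues 2 : ℂ)) *
        (((hH.eigenvalues 0 : ℂ) + (hH.eigenvalues 1 : ℂ) + (hH.eigenvalues 2 : ℂ)) ^ 2 -
          ((hH.eigenvalues 0 : ℂ) ^ 2 + (hH.eigenvalues 1 : ℂ) ^ 2 + (hH.eigenvalues 2 : ℂ) ^ 2))
      + 10 * ((hH.eigenvalues 0 : ℂ) * (hH.eigenvalues 1 : ℂ) * (hH.eigenvalues 2 : ℂ))
      = (((hH.eigenvalues 0 + hH.eigenvalues 1 + hH.eigenvalues 2) ^ 3 -
        4 * (hH.eigenvalues 0 + hH.eigenvalues 1 + hH.eigenvalues 2) *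
        (hH.eigenvalues 0 * hH.eigenvalues 1 + hH.eigenvalues 1 * hH.eigenvalues 2 +
          hH.eigenvalues 2 * hH.eigenvalues 0) +
        10 * (hH.eigenvalues 0 * hH.eigenvalues 1 * hH.eigenvalues 2) : ℝ) : ℂ) := by
    push_cast; ring
  have hc : ∀ z : ℝ, RCLike.ofReal (K := ℂ) z = (z : ℂ) := fun z => rfl
  simp only [hc]
  rw [e]
  exact_mod_cast this

/-! ### The signed sum in terms of `g` -/

lemma univ_perm3 : (Finset.univ : Finset (Equiv.Perm (Fin 3))) =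
    {1, Equiv.swap 0 1, Equiv.swap 0 2, Equiv.swap 1 2,
      Equiv.swap 0 1 * Equiv.swap 1 2, Equiv.swap 1 2 * Equiv.swap 0 1} := by decide

lemma sum_perm3 (f : Equiv.Perm (Fin 3) → ℂ) :
    ∑ σ, ((Equiv.Perm.sign σ : ℤ) : ℂ) * f σ = f 1 - f (Equiv.swap 0 1) - f (Equiv.swap 0 2)
      - f (Equiv.swap 1 2) + f (Equiv.swap 0 1 * Equiv.swap 1 2)
      + f (Equiv.swap 1 2 * Equiv.swap 0 1) := by
  rw [univ_perm3]
  rw [Finset.sum_insert (by decide), Finset.sum_insert (by decide), Finset.sum_insert (by decide),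
    Finset.sum_insert (by decide), Finset.sum_insert (by decide), Finset.sum_singleton]
  have h1 : (Equiv.Perm.sign (1 : Equiv.Perm (Fin 3)) : ℤ) = 1 := by decide
  have h2 : (Equiv.Perm.sign (Equiv.swap 0 1 : Equiv.Perm (Fin 3)) : ℤ) = -1 := by decide
  have h3 : (Equiv.Perm.sign (Equiv.swap 0 2 : Equiv.Perm (Fin 3)) : ℤ) = -1 := by decide
  have h4 : (Equiv.Perm.sign (Equiv.swap 1 2 : Equiv.Perm (Fin 3)) : ℤ) = -1 := by decide
  have h5 : (Equiv.Perm.sign (Equiv.swap 0 1 * Equiv.swap 1 2 : Equiv.Perm (Fin 3)) : ℤ) = 1 := by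
    decide
  have h6 : (Equiv.Perm.sign (Equiv.swap 1 2 * Equiv.swap 0 1 : Equiv.Perm (Fin 3)) : ℤ) = 1 := by
    decide
  rw [h1, h2, h3, h4, h5, h6]
  push_cast
  ring

lemma perm_sum_eq_g (X : Fin 3 → M3) :
    ∑ α : Equiv.Perm (Fin 3), ∑ ρ : Equiv.Perm (Fin 3),
      ((Equiv.Perm.sign α : ℤ) : ℂ) * ((Equiv.Perm.sign ρ : ℤ) : ℂ) *
        ∏ k : Fin 3, X k (α k) (ρ k) = g (X 0) (X 1) (X 2) := by
  simp only [mul_assoc, ← Finset.mul_sum]
  rw [sum_perm3]
  simp only [sum_perm3]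
  have a1 : (Equiv.swap 0 1 * Equiv.swap 1 2 : Equiv.Perm (Fin 3)) 0 = 1 := by decide
  have a2 : (Equiv.swap 0 1 * Equiv.swap 1 2 : Equiv.Perm (Fin 3)) 1 = 2 := by decide
  have a3 : (Equiv.swap 0 1 * Equiv.swap 1 2 : Equiv.Perm (Fin 3)) 2 = 0 := by decide
  have b1 : (Equiv.swap 1 2 * Equiv.swap 0 1 : Equiv.Perm (Fin 3)) 0 = 2 := by decide
  have b2 : (Equiv.swap 1 2 * Equiv.swap 0 1 : Equiv.Perm (Fin 3)) 1 = 0 := by decide
  have b3 : (Equiv.swap 1 2 * Equiv.swap 0 1 : Equiv.Perm (Fin 3)) 2 = 1 := by decide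
  have c1 : (Equiv.swap 0 1 : Equiv.Perm (Fin 3)) 0 = 1 := by decide
  have c2 : (Equiv.swap 0 1 : Equiv.Perm (Fin 3)) 1 = 0 := by decide
  have c3 : (Equiv.swap 0 1 : Equiv.Perm (Fin 3)) 2 = 2 := by decide
  have d1 : (Equiv.swap 0 2 : Equiv.Perm (Fin 3)) 0 = 2 := by decide
  have d2 : (Equiv.swap 0 2 : Equiv.Perm (Fin 3)) 1 = 1 := by decide
  have d3 : (Equiv.swap 0 2 : Equiv.Perm (Fin 3)) 2 = 0 := by decide
  have e1 : (Equiv.swap 1 2 : Equiv.Perm (Fin 3)) 0 = 0 := by decide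
  have e2 : (Equiv.swap 1 2 : Equiv.Perm (Fin 3)) 1 = 2 := by decide
  have e3 : (Equiv.swap 1 2 : Equiv.Perm (Fin 3)) 2 = 1 := by decide
  simp only [Fin.prod_univ_three, a1, a2, a3, b1, b2, b3, c1, c2, c3, d1, d2, d3, e1, e2, e3,
    Equiv.Perm.one_apply, g, det_fin_three, Matrix.add_apply]
  ring

lemma phi_eq_g (B : Fin 3 → Fin 3 → M3) :
    ∑ σ : Equiv.Perm (Fin 3),
      ((Equiv.Perm.sign σ : ℤ) : ℂ) *
        ((1 / (Nat.factorial 3 : ℂ)) *
          ∑ α : Equiv.Perm (Fin 3), ∑ ρ : Equiv.Perm (Fin 3),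
            ((Equiv.Perm.sign α : ℤ) : ℂ) * ((Equiv.Perm.sign ρ : ℤ) : ℂ) *
              ∏ k : Fin 3, B k (σ k) (α k) (ρ k)) =
    (g (B 0 0) (B 1 1) (B 2 2) - g (B 0 1) (B 1 0) (B 2 2) - g (B 0 2) (B 1 1) (B 2 0)
      - g (B 0 0) (B 1 2) (B 2 1) + g (B 0 1) (B 1 2) (B 2 0) + g (B 0 2) (B 1 0) (B 2 1)) / 6 := by
  rw [sum_perm3]
  simp only [perm_sum_eq_g (fun k => B k _)]
  have a1 : (Equiv.swap 0 1 * Equiv.swap 1 2 : Equiv.Perm (Fin 3)) 0 = 1 := by decide
  have a2 : (Equiv.swap 0 1 * Equiv.swap 1 2 : Equiv.Perm (Fin 3)) 1 = 2 := by decide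
  have a3 : (Equiv.swap 0 1 * Equiv.swap 1 2 : Equiv.Perm (Fin 3)) 2 = 0 := by decide
  have b1 : (Equiv.swap 1 2 * Equiv.swap 0 1 : Equiv.Perm (Fin 3)) 0 = 2 := by decide
  have b2 : (Equiv.swap 1 2 * Equiv.swap 0 1 : Equiv.Perm (Fin 3)) 1 = 0 := by decide
  have b3 : (Equiv.swap 1 2 * Equiv.swap 0 1 : Equiv.Perm (Fin 3)) 2 = 1 := by decide
  have c1 : (Equiv.swap 0 1 : Equiv.Perm (Fin 3)) 0 = 1 := by decide
  have c2 : (Equiv.swap 0 1 : Equiv.Perm (Fin 3)) 1 = 0 := by decide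
  have c3 : (Equiv.swap 0 1 : Equiv.Perm (Fin 3)) 2 = 2 := by decide
  have d1 : (Equiv.swap 0 2 : Equiv.Perm (Fin 3)) 0 = 2 := by decide
  have d2 : (Equiv.swap 0 2 : Equiv.Perm (Fin 3)) 1 = 1 := by decide
  have d3 : (Equiv.swap 0 2 : Equiv.Perm (Fin 3)) 2 = 0 := by decide
  have e1 : (Equiv.swap 1 2 : Equiv.Perm (Fin 3)) 0 = 0 := by decide
  have e2 : (Equiv.swap 1 2 : Equiv.Perm (Fin 3)) 1 = 2 := by decide
  have e3 : (Equiv.swap 1 2 : Equiv.Perm (Fin 3)) 2 = 1 := by decide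
  simp only [a1, a2, a3, b1, b2, b3, c1, c2, c3, d1, d2, d3, e1, e2, e3, Equiv.Perm.one_apply]
  have : (Nat.factorial 3 : ℂ) = 6 := by norm_num [Nat.factorial]
  rw [this]
  ring

lemma phi_unconditional (B : Fin 3 → Fin 3 → M3) :
    6 * (g (B 0 0) (B 1 1) (B 2 2) - g (B 0 1) (B 1 0) (B 2 2) - g (B 0 2) (B 1 1) (B 2 0)
      - g (B 0 0) (B 1 2) (B 2 1) + g (B 0 1) (B 1 2) (B 2 0) + g (B 0 2) (B 1 0) (B 2 1)) =
    ∑ i, ∑ j, ∑ k, g (B i i) (B j j) (B k k) - 3 * ∑ i, ∑ j, ∑ k, g (B i i) (B j k) (B k j)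
      + 2 * ∑ i, ∑ j, ∑ k, g (B i j) (B j k) (B k i) := by
  simp only [Fin.sum_univ_three]
  simp only [g_comm12, g_comm23]
  ring

/-! ### A finite weighted design -/

/-- Gaussian integers as pairs -/
abbrev G := ℤ × ℤ

def gmul (a b : G) : G := (a.1 * b.1 - a.2 * b.2, a.1 * b.2 + a.2 * b.1)
def gadd (a b : G) : G := (a.1 + b.1, a.2 + b.2)
def gconj (a : G) : G := (a.1, -a.2)

/-- the unit i^k -/
def iu : Fin 4 → G := ![(1,0), (0,1), (-1,0), (0,-1)]

def delta (a b : Fin 3) : ℤ := if a = b then 1 else 0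

def rhs (i j k l m n : Fin 3) : ℤ :=
  delta i j * delta k l * delta m n + delta i l * delta k j * delta m n +
  delta i n * delta k l * delta m j + delta i j * delta k n * delta m l +
  delta i l * delta k n * delta m j + delta i n * delta k j * delta m l

def yv (a b c : G) : Fin 3 → G := ![a, b, c]

def mon (y : Fin 3 → G) (i j k l m n : Fin 3) : G :=
  gmul (gmul (gmul (y i) (gconj (y j))) (gmul (y k) (gconj (y l)))) (gmul (y m) (gconj (y n)))

/-- the weighted points: weights 48, 4, 1 -/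
def pts : List (ℤ × (Fin 3 → G)) :=
  [(48, yv (1,0) (0,0) (0,0)), (48, yv (0,0) (1,0) (0,0)), (48, yv (0,0) (0,0) (1,0))] ++
  ((List.finRange 4).map fun s => (4, yv (1,0) (iu s) (0,0))) ++
  ((List.finRange 4).map fun s => (4, yv (1,0) (0,0) (iu s))) ++
  ((List.finRange 4).map fun s => (4, yv (0,0) (1,0) (iu s))) ++
  ((List.finRange 4).flatMap fun s => (List.finRange 4).map fun t => (1, yv (1,0) (iu s) (iu t)))

def mom (i j k l m n : Fin 3) : G :=
  (pts.map fun p => ((p.1 * (mon p.2 i j k l m n).1, p.1 * (mon p.2 i j k l m n).2) : G)).foldr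
    gadd (0,0)

set_option maxRecDepth 100000 in
theorem mom_eq : ∀ i j k l m n : Fin 3, mom i j k l m n = (16 * rhs i j k l m n, 0) := by
  decide

theorem pts_pos : ∀ p ∈ pts, 0 < p.1 ∧ ∃ i, p.2 i ≠ (0, 0) := by
  decide

noncomputable def toC (a : G) : ℂ := (a.1 : ℂ) + (a.2 : ℂ) * Complex.I

lemma toC_mul (a b : G) : toC (gmul a b) = toC a * toC b := by
  simp only [toC, gmul]
  push_cast
  linear_combination (-(a.2 : ℂ) * b.2) * Complex.I_mul_I

lemma toC_conj (a : G) : toC (gconj a) = star (toC a) := by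
  simp [toC, gconj]

lemma toC_add (a b : G) : toC (gadd a b) = toC a + toC b := by
  simp only [toC, gadd]; push_cast; ring

lemma toC_ne_zero (a : G) (h : a ≠ (0, 0)) : toC a ≠ 0 := by
  intro h0
  apply h
  have hr := congrArg Complex.re h0
  have hi := congrArg Complex.im h0
  simp [toC] at hr hi
  exact Prod.ext hr hi

lemma toC_foldr (l : List G) : toC (l.foldr gadd (0,0)) = (l.map toC).sum := by
  induction l with
  | nil => simp [toC]
  | cons a l ih => simp [toC_add, ih]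

/-- the monomial y_i conj(y_j) y_k conj(y_l) y_m conj(y_n) -/
noncomputable def cmon (y : Fin 3 → ℂ) (i j k l m n : Fin 3) : ℂ :=
  (y i * star (y j)) * (y k * star (y l)) * (y m * star (y n))

lemma toC_mon (y : Fin 3 → G) (i j k l m n : Fin 3) :
    toC (mon y i j k l m n) = cmon (fun s => toC (y s)) i j k l m n := by
  simp only [mon, toC_mul, toC_conj, cmon]

lemma moments (i j k l m n : Fin 3) :
    (pts.map fun p => (p.1 : ℂ) * cmon (fun s => toC (p.2 s)) i j k l m n).sum =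
      16 * (rhs i j k l m n : ℂ) := by
  have h := congrArg toC (mom_eq i j k l m n)
  rw [mom, toC_foldr, List.map_map] at h
  have h2 : (toC ∘ fun p : ℤ × (Fin 3 → G) =>
      ((p.1 * (mon p.2 i j k l m n).1, p.1 * (mon p.2 i j k l m n).2) : G)) =
      fun p => (p.1 : ℂ) * cmon (fun s => toC (p.2 s)) i j k l m n := by
    funext p
    rw [← toC_mon]
    simp only [Function.comp, toC]
    push_cast
    ring
  rw [h2] at h
  rw [h]
  simp [toC]

lemma list_swap {α β : Type} (L : List α) (s : Finset β) (f : α → β → ℂ) :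
    (L.map fun p => ∑ x ∈ s, f p x).sum = ∑ x ∈ s, (L.map fun p => f p x).sum := by
  induction L with
  | nil => simp
  | cons a L ih => simp [ih, Finset.sum_add_distrib]

lemma design (c : Fin 3 → Fin 3 → Fin 3 → Fin 3 → Fin 3 → Fin 3 → ℂ) :
    (pts.map fun p => (p.1 : ℂ) * ∑ i, ∑ j, ∑ k, ∑ l, ∑ m, ∑ n,
      cmon (fun s => toC (p.2 s)) i j k l m n * c i j k l m n).sum =
    16 * ∑ i, ∑ j, ∑ k, ∑ l, ∑ m, ∑ n, (rhs i j k l m n : ℂ) * c i j k l m n := by
  simp only [Finset.mul_sum, list_swap]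
  refine Finset.sum_congr rfl fun i _ => Finset.sum_congr rfl fun j _ =>
    Finset.sum_congr rfl fun k _ => Finset.sum_congr rfl fun l _ =>
    Finset.sum_congr rfl fun m _ => Finset.sum_congr rfl fun n _ => ?_
  have h := moments i j k l m n
  calc (pts.map fun p => (p.1 : ℂ) *
        (cmon (fun s => toC (p.2 s)) i j k l m n * c i j k l m n)).sum
      = (pts.map fun p => ((p.1 : ℂ) *
        cmon (fun s => toC (p.2 s)) i j k l m n) * c i j k l m n).sum := by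
        simp only [mul_assoc]
    _ = (pts.map fun p => (p.1 : ℂ) *
        cmon (fun s => toC (p.2 s)) i j k l m n).sum * c i j k l m n := by
        rw [List.sum_map_mul_right]
    _ = _ := by rw [h]; ring

lemma reorder (f : Fin 3 → Fin 3 → Fin 3 → Fin 3 → Fin 3 → Fin 3 → ℂ) :
    ∑ i, ∑ j, ∑ k, ∑ l, ∑ m, ∑ n, f i j k l m n =
    ∑ i, ∑ k, ∑ m, ∑ j, ∑ l, ∑ n, f i j k l m n := by
  refine Finset.sum_congr rfl fun i _ => ?_
  rw [Finset.sum_comm]
  refine Finset.sum_congr rfl fun k _ => ?_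
  rw [Finset.sum_comm]
  conv_rhs => rw [Finset.sum_comm]
  conv_lhs => rw [Finset.sum_comm]
  refine Finset.sum_congr rfl fun j _ => ?_
  rw [Finset.sum_comm]

lemma rhs_sum (c : Fin 3 → Fin 3 → Fin 3 → Fin 3 → Fin 3 → Fin 3 → ℂ) :
    ∑ i, ∑ j, ∑ k, ∑ l, ∑ m, ∑ n, (rhs i j k l m n : ℂ) * c i j k l m n =
    ∑ i, ∑ k, ∑ m, (c i i k k m m + c i k k i m m + c i m k k m i + c i i k m m k
      + c i m k i m k + c i k k m m i) := by
  rw [reorder]
  refine Finset.sum_congr rfl fun i _ => Finset.sum_congr rfl fun k _ =>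
    Finset.sum_congr rfl fun m _ => ?_
  simp only [rhs, delta]
  push_cast
  simp [add_mul, Finset.sum_add_distrib, mul_ite, ite_mul]

/-! ### Conclusion -/

/-- the value of the associated linear map at the rank one matrix of y -/
noncomputable def bet (B : Fin 3 → Fin 3 → M3) (y : Fin 3 → ℂ) : M3 :=
  ∑ i : Fin 3, ∑ j : Fin 3, (y i * star (y j)) • B i j

lemma g_rev (X Y Z : M3) : g X Y Z = g Z Y X := by
  rw [g_comm12, g_comm23, g_comm12]

lemma g_bet (B C D : Fin 3 → Fin 3 → M3) (y : Fin 3 → ℂ) :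
    g (bet B y) (bet C y) (bet D y) =
      ∑ i, ∑ j, ∑ k, ∑ l, ∑ m, ∑ n, cmon y i j k l m n * g (B i j) (C k l) (D m n) := by
  unfold bet
  rw [g_sum]
  refine Finset.sum_congr rfl fun i _ => ?_
  rw [g_sum]
  refine Finset.sum_congr rfl fun j _ => ?_
  rw [g_sum2]
  refine Finset.sum_congr rfl fun k _ => ?_
  rw [g_sum2]
  refine Finset.sum_congr rfl fun l _ => ?_
  rw [g_sum3]
  refine Finset.sum_congr rfl fun m _ => ?_
  rw [g_sum3]
  refine Finset.sum_congr rfl fun n _ => ?_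
  rw [g_smul, g_smul2, g_smul3, cmon]
  ring

/-- the scalar family -/
def DD (i j : Fin 3) : M3 := if i = j then 1 else 0

lemma g_zero (Y Z : M3) : g 0 Y Z = 0 := by
  have := g_smul 0 0 Y Z
  simpa using this

lemma g_zero3 (X Y : M3) : g X Y 0 = 0 := by
  rw [g_rev, g_zero]

lemma bet_DD (y : Fin 3 → ℂ) : bet DD y = (∑ i, y i * star (y i)) • (1 : M3) := by
  simp only [bet, DD, Finset.sum_smul]
  refine Finset.sum_congr rfl fun i _ => ?_
  simp

/-- coefficients of the cubic form -/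
noncomputable def cc (B : Fin 3 → Fin 3 → M3) (i j k l m n : Fin 3) : ℂ :=
  (27 / 6) * g (DD i j) (DD k l) (DD m n) - 6 * g (B i j) (B k l) (DD m n)
    + (10 / 6) * g (B i j) (B k l) (B m n)

lemma trace_bet (B : Fin 3 → Fin 3 → M3) (y : Fin 3 → ℂ)
    (h3 : ∀ i j : Fin 3, (B i j).trace = if i = j then ((3 : ℕ) : ℂ) else 0) :
    (bet B y).trace = 3 * ∑ i, y i * star (y i) := by
  simp only [bet, Matrix.trace_sum, Matrix.trace_smul, h3, Finset.mul_sum]
  refine Finset.sum_congr rfl fun i _ => ?_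
  simp
  ring

lemma F_bet (B : Fin 3 → Fin 3 → M3) (y : Fin 3 → ℂ)
    (h3 : ∀ i j : Fin 3, (B i j).trace = if i = j then ((3 : ℕ) : ℂ) else 0) :
    (bet B y).trace ^ 3 - 2 * (bet B y).trace * g 1 (bet B y) (bet B y) + 10 * (bet B y).det =
    ∑ i, ∑ j, ∑ k, ∑ l, ∑ m, ∑ n, cmon y i j k l m n * cc B i j k l m n := by
  have e1 : ∑ i, ∑ j, ∑ k, ∑ l, ∑ m, ∑ n, cmon y i j k l m n * cc B i j k l m n =
      (27 / 6) * g (bet DD y) (bet DD y) (bet DD y) - 6 * g (bet B y) (bet B y) (bet DD y)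
        + (10 / 6) * g (bet B y) (bet B y) (bet B y) := by
    rw [g_bet, g_bet, g_bet]
    simp only [Finset.mul_sum, ← Finset.sum_sub_distrib, ← Finset.sum_add_distrib]
    refine Finset.sum_congr rfl fun i _ => Finset.sum_congr rfl fun j _ =>
      Finset.sum_congr rfl fun k _ => Finset.sum_congr rfl fun l _ =>
      Finset.sum_congr rfl fun m _ => Finset.sum_congr rfl fun n _ => ?_
    rw [cc]
    ring
  rw [e1, trace_bet B y h3, bet_DD, det_eq_g]
  set N := ∑ i, y i * star (y i)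
  rw [g_smul, g_smul2, g_smul3, g_smul3, g_one_one_one, g_rev (bet B y) (bet B y) 1]
  ring

lemma cc_sum (B : Fin 3 → Fin 3 → M3)
    (h2 : (∑ i : Fin 3, B i i) = ((3 : ℕ) : ℂ) • (1 : M3)) :
    ∑ i, ∑ k, ∑ m, (cc B i i k k m m + cc B i k k i m m + cc B i m k k m i + cc B i i k m m k
      + cc B i m k i m k + cc B i k k m m i) =
    10 * (g (B 0 0) (B 1 1) (B 2 2) - g (B 0 1) (B 1 0) (B 2 2) - g (B 0 2) (B 1 1) (B 2 0)
      - g (B 0 0) (B 1 2) (B 2 1) + g (B 0 1) (B 1 2) (B 2 0) + g (B 0 2) (B 1 0) (B 2 1)) := by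
  have gS : ∀ X Y : M3, ∑ i, g (B i i) X Y = 3 * g 1 X Y := by
    intro X Y
    rw [← g_sum, h2, g_smul]
    norm_num
  have gS' : ∀ X Y : M3, g (B 0 0) X Y + g (B 1 1) X Y + g (B 2 2) X Y = 3 * g 1 X Y := by
    intro X Y
    have := gS X Y
    rwa [Fin.sum_univ_three] at this
  have hphi := phi_unconditional B
  -- sum of the two evaluations
  have hV : ∑ i, ∑ j, ∑ k, g (B i i) (B j k) (B k j) = 3 * ∑ j, ∑ k, g 1 (B j k) (B k j) := by
    rw [Finset.sum_comm]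
    simp only [Finset.mul_sum]
    refine Finset.sum_congr rfl fun j _ => ?_
    rw [Finset.sum_comm]
    refine Finset.sum_congr rfl fun k _ => ?_
    exact gS _ _
  have hE : ∑ i, ∑ j, ∑ k, g (B i i) (B j j) (B k k) = 162 := by
    rw [Finset.sum_comm]
    have : ∀ j : Fin 3, ∑ i, ∑ k, g (B i i) (B j j) (B k k) = ∑ k, 3 * g 1 (B j j) (B k k) := by
      intro j
      rw [Finset.sum_comm]
      exact Finset.sum_congr rfl fun k _ => gS _ _
    simp only [this]
    have h4 : ∑ j, ∑ k, 3 * g 1 (B j j) (B k k) = ∑ k, 9 * g 1 1 (B k k) := by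
      rw [Finset.sum_comm]
      refine Finset.sum_congr rfl fun k _ => ?_
      rw [← Finset.mul_sum]
      simp only [g_comm12 1 _ _]
      rw [gS]
      ring
    rw [h4, ← Finset.mul_sum]
    simp only [g_rev 1 1 _]
    rw [gS, g_one_one_one]
    norm_num
  have h54 : ∑ j, ∑ k, g 1 (B j j) (B k k) = 54 := by
    have h5 : ∑ i, ∑ j, ∑ k, g (B i i) (B j j) (B k k) =
        3 * ∑ j, ∑ k, g 1 (B j j) (B k k) := by
      rw [Finset.sum_comm]
      simp only [Finset.mul_sum]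
      refine Finset.sum_congr rfl fun j _ => ?_
      rw [Finset.sum_comm]
      exact Finset.sum_congr rfl fun k _ => gS _ _
    rw [hE] at h5
    linear_combination (-1 / 3) * h5
  have hD : ∑ i : Fin 3, ∑ k : Fin 3, ∑ m : Fin 3, (g (DD i i) (DD k k) (DD m m)
      + g (DD i k) (DD k i) (DD m m) + g (DD i m) (DD k k) (DD m i)
      + g (DD i i) (DD k m) (DD m k) + g (DD i m) (DD k i) (DD m k)
      + g (DD i k) (DD k m) (DD m i)) = 360 := by
    simp [Fin.sum_univ_three, DD, g_zero, g_zero3, g_comm12 1 0, g_one_one_one]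
    norm_num
  have hM : ∑ i : Fin 3, ∑ k : Fin 3, ∑ m : Fin 3, (g (B i i) (B k k) (DD m m)
      + g (B i k) (B k i) (DD m m) + g (B i m) (B k k) (DD m i)
      + g (B i i) (B k m) (DD m k) + g (B i m) (B k i) (DD m k)
      + g (B i k) (B k m) (DD m i)) = 5 * (54 + ∑ j, ∑ k, g 1 (B j k) (B k j)) := by
    rw [← h54]
    simp [Fin.sum_univ_three, DD, g_zero, g_zero3]
    simp only [g_comm12, g_comm23]
    ring
  have hB : ∑ i : Fin 3, ∑ k : Fin 3, ∑ m : Fin 3, (g (B i i) (B k k) (B m m)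
      + g (B i k) (B k i) (B m m) + g (B i m) (B k k) (B m i)
      + g (B i i) (B k m) (B m k) + g (B i m) (B k i) (B m k)
      + g (B i k) (B k m) (B m i)) =
      ∑ i, ∑ j, ∑ k, g (B i i) (B j j) (B k k) + 3 * ∑ i, ∑ j, ∑ k, g (B i i) (B j k) (B k j)
      + 2 * ∑ i, ∑ j, ∑ k, g (B i j) (B j k) (B k i) := by
    simp only [Fin.sum_univ_three]
    simp only [g_comm12, g_comm23]
    ring
  rw [hE, hV] at hB
  rw [hE, hV] at hphi
  have hsplit : ∑ i, ∑ k, ∑ m, (cc B i i k k m m + cc B i k k i m m + cc B i m k k m i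
      + cc B i i k m m k + cc B i m k i m k + cc B i k k m m i) =
      (27 / 6) * ∑ i : Fin 3, ∑ k : Fin 3, ∑ m : Fin 3, (g (DD i i) (DD k k) (DD m m)
      + g (DD i k) (DD k i) (DD m m) + g (DD i m) (DD k k) (DD m i)
      + g (DD i i) (DD k m) (DD m k) + g (DD i m) (DD k i) (DD m k)
      + g (DD i k) (DD k m) (DD m i))
      - 6 * ∑ i : Fin 3, ∑ k : Fin 3, ∑ m : Fin 3, (g (B i i) (B k k) (DD m m)
      + g (B i k) (B k i) (DD m m) + g (B i m) (B k k) (DD m i)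
      + g (B i i) (B k m) (DD m k) + g (B i m) (B k i) (DD m k)
      + g (B i k) (B k m) (DD m i))
      + (10 / 6) * ∑ i : Fin 3, ∑ k : Fin 3, ∑ m : Fin 3, (g (B i i) (B k k) (B m m)
      + g (B i k) (B k i) (B m m) + g (B i m) (B k k) (B m i)
      + g (B i i) (B k m) (B m k) + g (B i m) (B k i) (B m k)
      + g (B i k) (B k m) (B m i)) := by
    simp only [Finset.mul_sum, ← Finset.sum_sub_distrib, ← Finset.sum_add_distrib]
    refine Finset.sum_congr rfl fun i _ => Finset.sum_congr rfl fun k _ =>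
      Finset.sum_congr rfl fun m _ => ?_
    simp only [cc]
    ring
  rw [hsplit, hD, hM, hB]
  linear_combination (-10 / 6) * hphi

theorem result :
    ∀ B : Fin 3 → Fin 3 → Matrix (Fin 3) (Fin 3) ℂ,
      (∀ ξ : Fin 3 → ℂ, ξ ≠ 0 →
          (∑ i : Fin 3, ∑ j : Fin 3, (ξ i * star (ξ j)) • B i j).PosDef) →
      (∑ i : Fin 3, B i i) = ((3 : ℕ) : ℂ) • (1 : Matrix (Fin 3) (Fin 3) ℂ) →
      (∀ i j : Fin 3, (B i j).trace = if i = j then ((3 : ℕ) : ℂ) else 0) →
      0 < ∑ σ : Equiv.Perm (Fin 3),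
            ((Equiv.Perm.sign σ : ℤ) : ℂ) *
              ((1 / (Nat.factorial 3 : ℂ)) *
                ∑ α : Equiv.Perm (Fin 3), ∑ ρ : Equiv.Perm (Fin 3),
                  ((Equiv.Perm.sign α : ℤ) : ℂ) * ((Equiv.Perm.sign ρ : ℤ) : ℂ) *
                    ∏ k : Fin 3, B k (σ k) (α k) (ρ k)) := by
  intro B h1 h2 h3
  rw [phi_eq_g]
  have hF : ∀ y : Fin 3 → ℂ, y ≠ 0 → 0 < ∑ i, ∑ j, ∑ k, ∑ l, ∑ m, ∑ n,
      cmon y i j k l m n * cc B i j k l m n := by
    intro y hy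
    rw [← F_bet B y h3]
    exact F_pos _ (h1 y hy)
  have hd := design (cc B)
  rw [rhs_sum, cc_sum B h2] at hd
  have hpos : 0 < (pts.map fun p => (p.1 : ℂ) * ∑ i, ∑ j, ∑ k, ∑ l, ∑ m, ∑ n,
      cmon (fun s => toC (p.2 s)) i j k l m n * cc B i j k l m n).sum := by
    apply List.sum_pos
    · intro x hx
      rw [List.mem_map] at hx
      obtain ⟨p, hp, rfl⟩ := hx
      obtain ⟨hp1, s, hs⟩ := pts_pos p hp
      refine mul_pos (by exact_mod_cast hp1) (hF _ ?_)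
      intro h0
      exact toC_ne_zero _ hs (congrFun h0 s)
    · simp [pts]
  rw [hd] at hpos
  have h6 : (g (B 0 0) (B 1 1) (B 2 2) - g (B 0 1) (B 1 0) (B 2 2) - g (B 0 2) (B 1 1) (B 2 0)
      - g (B 0 0) (B 1 2) (B 2 1) + g (B 0 1) (B 1 2) (B 2 0) + g (B 0 2) (B 1 0) (B 2 1)) / 6
      = (1 / 960 : ℝ) * (16 * (10 * (g (B 0 0) (B 1 1) (B 2 2) - g (B 0 1) (B 1 0) (B 2 2)
      - g (B 0 2) (B 1 1) (B 2 0) - g (B 0 0) (B 1 2) (B 2 1) + g (B 0 1) (B 1 2) (B 2 0)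
      + g (B 0 2) (B 1 0) (B 2 1)))) := by
    push_cast
    ring
  rw [h6]
  exact mul_pos (by exact_mod_cast (by norm_num : (0 : ℝ) < 1 / 960)) hpos

end Pool.H30.MV.RankThree
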