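import Mathlib

/-!
# Boolean Ramsey numbers of the symmetric V-shaped posets: definitions of the statement
-/

namespace Pool.H30.MV.VRamsey

open Finset

/-- The poset `V_{m,n}`: a least element (`⊥`) below two disjoint, mutually incomparable chains
with `m` and `n` elements. -/
abbrev V (m n : ℕ) : Type := WithBot (Fin m ⊕ Fin n)

/-- Every colouring of the Boolean lattice `B_n` with `k` colours has, for some `i`, a subposet
(induced) copy of `P i` all of whose elements have colour `i`. -/
def Forces {k : ℕ} (P : Fin k → Type) [∀ i, PartialOrder (P i)] (n : ℕ) : Prop :=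
  ∀ c : Finset (Fin n) → Fin k, ∃ i, ∃ φ : P i → Finset (Fin n),
    Function.Injective φ ∧ (∀ x y, x ≤ y ↔ φ x ≤ φ y) ∧ ∀ x, c (φ x) = i

/-- The same with weak subposet copies. -/
def ForcesWeak {k : ℕ} (P : Fin k → Type) [∀ i, PartialOrder (P i)] (n : ℕ) : Prop :=
  ∀ c : Finset (Fin n) → Fin k, ∃ i, ∃ φ : P i → Finset (Fin n),
    Function.Injective φ ∧ (∀ x y, x ≤ y → φ x ≤ φ y) ∧ ∀ x, c (φ x) = i

/-- The Boolean Ramsey number `R(P_1, ..., P_k)`. -/
noncomputable def boolRamsey {k : ℕ} (P : Fin k → Type) [∀ i, PartialOrder (P i)] : ℕ :=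
  sInf {n | Forces P n}

/-- The weak Boolean Ramsey number `R_w(P_1, ..., P_k)`. -/
noncomputable def weakBoolRamsey {k : ℕ} (P : Fin k → Type) [∀ i, PartialOrder (P i)] : ℕ :=
  sInf {n | ForcesWeak P n}

end Pool.H30.MV.VRamsey
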