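import Mathlib
import Pool.Agent.H30.MV.VRamseyDefs

/-!
# Boolean Ramsey numbers of the symmetric V-shaped posets: the proof
-/

namespace Pool.H30.MV.VRamsey

open Finset

section key

variable {ι α : Type} [DecidableEq ι] [DecidableEq α]

open Classical in
/-- Sink reduction. `E j w β` is antitone in `w`; if `x` has colour `j` then not both
`E j (x + α) β` and `E j (x + β) α`. Then, if fewer than `|R|` colours can be bad, there are a
target `β` and a monotone path all of whose points are not bad for `β`. -/
theorem key (c : Finset α → ι) (E : ι → Finset α → α → Prop)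
    (hA : ∀ j w w' β, w ⊆ w' → E j w' β → E j w β)
    (hB : ∀ x a b, a ∉ x → b ∉ x → E (c x) (insert a x) b → E (c x) (insert b x) a → False)
    (s : ℕ) :
    ∀ (S : Finset ι) (R : Finset α) (T : ℕ) (g : Finset α → ℕ → Finset α),
      S.card = s → s < R.card →
      (∀ K K' t t', K ⊆ K' → t ≤ t' → g K t ⊆ g K' t') →
      (∀ K t, K ⊆ g K t) →
      (∀ K t b, K ⊆ R → b ∈ R → b ∉ K → b ∉ g K t) →
      (∀ K t b, K ⊆ R → t ≤ T → b ∈ R → b ∉ K → E (c (g K t)) (g K t) b → c (g K t) ∈ S) →
      ∃ b ∈ R, ∃ p : ℕ → Finset α, (∀ t t', t ≤ t' → p t ⊆ p t') ∧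
        (∀ t, p t ⊆ R.erase b) ∧ ∀ t, t ≤ T → ¬ E (c (g (p t) t)) (g (p t) t) b := by
  induction s with
  | zero =>
    intro S R T g hS hR hmono hsub havoid hbad
    obtain ⟨b, hb⟩ := Finset.card_pos.1 hR
    refine ⟨b, hb, fun _ => ∅, fun _ _ _ => Finset.Subset.refl _, fun _ => Finset.empty_subset _, ?_⟩
    intro t ht hE
    have := hbad ∅ t b (Finset.empty_subset _) ht hb (Finset.notMem_empty b) hE
    rw [Finset.card_eq_zero] at hS
    rw [hS] at this
    exact Finset.notMem_empty _ this
  | succ s ih =>
    intro S R T g hS hR hmono hsub havoid hbad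
    by_cases hnone : ∀ t, t ≤ T → ∀ z ∈ R,
        ¬ E (c (g (R.erase z) t)) (g (R.erase z) t) z
    · obtain ⟨b, hb⟩ : R.Nonempty := Finset.card_pos.1 (by omega)
      exact ⟨b, hb, fun _ => R.erase b, fun _ _ _ => Finset.Subset.refl _,
        fun _ => Finset.Subset.refl _, fun t ht => hnone t ht b hb⟩
    · -- the last bad time `t1`
      obtain ⟨t1, ht1, ⟨z, hz, hEz⟩, hlast⟩ : ∃ t1, t1 ≤ T ∧
          (∃ z ∈ R, E (c (g (R.erase z) t1)) (g (R.erase z) t1) z) ∧
          ∀ t, t1 < t → t ≤ T → ∀ z ∈ R, ¬ E (c (g (R.erase z) t)) (g (R.erase z) t) z := by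
        push Not at hnone
        obtain ⟨t0, ht0, h0⟩ := hnone
        let P : ℕ → Prop := fun t => ∃ z ∈ R, E (c (g (R.erase z) t)) (g (R.erase z) t) z
        refine ⟨Nat.findGreatest P T, Nat.findGreatest_le T,
          Nat.findGreatest_spec (P := P) ht0 h0, ?_⟩
        intro t h1 h2 z hz hE
        exact Nat.findGreatest_is_greatest h1 h2 ⟨z, hz, hE⟩
      set j1 := c (g (R.erase z) t1) with hj1
      have hj1S : j1 ∈ S :=
        hbad (R.erase z) t1 z (Finset.erase_subset _ _) ht1 hz (Finset.notMem_erase z R) hEz
      -- activation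
      let act : Finset α → ℕ → Prop := fun K t =>
        ∃ K0 t0, K0 ⊆ K ∧ t0 ≤ t ∧ K0 ⊆ R.erase z ∧ c (g K0 t0) = j1
      have hact : ∀ K K' t t', K ⊆ K' → t ≤ t' → act K t → act K' t' := by
        rintro K K' t t' hK ht ⟨K0, t0, h1, h2, h3, h4⟩
        exact ⟨K0, t0, h1.trans hK, h2.trans ht, h3, h4⟩
      let φ : Finset α → ℕ → Finset α := fun K t => if act K t then insert z K else K
      have hφmono : ∀ K K' t t', K ⊆ K' → t ≤ t' → φ K t ⊆ φ K' t' := by
        intro K K' t t' hK ht
        by_cases h : act K t
        · have h' := hact K K' t t' hK ht h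
          simp only [φ, if_pos h, if_pos h']
          exact Finset.insert_subset_insert z hK
        · by_cases h' : act K' t'
          · simp only [φ, if_neg h, if_pos h']
            exact hK.trans (Finset.subset_insert _ _)
          · simp only [φ, if_neg h, if_neg h']
            exact hK
      have hφsub : ∀ K t, K ⊆ φ K t := by
        intro K t
        by_cases h : act K t
        · simp only [φ, if_pos h]; exact Finset.subset_insert _ _
        · simp only [φ, if_neg h]; exact Finset.Subset.refl _
      have hφle : ∀ K t, φ K t ⊆ insert z K := by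
        intro K t
        by_cases h : act K t
        · simp only [φ, if_pos h]; exact Finset.Subset.refl _
        · simp only [φ, if_neg h]; exact Finset.subset_insert _ _
      have hφR : ∀ K t, K ⊆ R.erase z → φ K t ⊆ R := by
        intro K t hK
        refine (hφle K t).trans ?_
        exact Finset.insert_subset hz (hK.trans (Finset.erase_subset _ _))
      have hφb : ∀ K t b, b ∈ R.erase z → b ∉ K → b ∉ φ K t := by
        intro K t b hb hbK h
        have := hφle K t h
        rw [Finset.mem_insert] at this
        rcases this with h1 | h1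
        · exact (Finset.ne_of_mem_erase hb) h1
        · exact hbK h1
      obtain ⟨b, hb, p, hp1, hp2, hp3⟩ := ih (S.erase j1) (R.erase z) t1 (fun K t => g (φ K t) t)
        (by rw [Finset.card_erase_of_mem hj1S, hS]; rfl)
        (by rw [Finset.card_erase_of_mem hz]; omega)
        (fun K K' t t' hK ht => hmono _ _ _ _ (hφmono K K' t t' hK ht) ht)
        (fun K t => (hφsub K t).trans (hsub _ _))
        (fun K t b hK hb hbK => havoid _ _ _ (hφR K t hK) (Finset.mem_of_mem_erase hb)
          (hφb K t b hb hbK))
        (by
          intro K t b hK ht hb hbK hE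
          have hS' : c (g (φ K t) t) ∈ S :=
            hbad _ t b (hφR K t hK) (ht.trans ht1) (Finset.mem_of_mem_erase hb)
              (hφb K t b hb hbK) hE
          refine Finset.mem_erase.2 ⟨?_, hS'⟩
          intro hcj
          by_cases h : act K t
          · have hφ : φ K t = insert z K := by simp only [φ, if_pos h]
            obtain ⟨K0, t0, h1, h2, h3, h4⟩ := h
            simp only [hφ] at hE hcj
            rw [hcj] at hE
            refine hB (g K0 t0) z b ?_ ?_ ?_ ?_
            · exact havoid K0 t0 z (h3.trans (Finset.erase_subset _ _)) hz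
                (fun hz' => Finset.notMem_erase z R (h3 hz'))
            · exact havoid K0 t0 b (h3.trans (Finset.erase_subset _ _))
                (Finset.mem_of_mem_erase hb) (fun hb' => hbK (h1 hb'))
            · rw [h4]
              refine hA j1 _ _ b ?_ hE
              refine Finset.insert_subset (hsub _ _ (Finset.mem_insert_self z K)) ?_
              exact hmono _ _ _ _ (h1.trans (Finset.subset_insert _ _)) h2
            · rw [h4]
              refine hA j1 _ _ z ?_ hEz
              refine Finset.insert_subset (hsub _ _ hb) ?_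
              exact hmono _ _ _ _ h3 (h2.trans ht)
          · have hφ : φ K t = K := by simp only [φ, if_neg h]
            rw [hφ] at hcj
            exact h ⟨K, t, Finset.Subset.refl _, le_rfl, hK, hcj⟩)
      have hbR : b ∈ R := Finset.mem_of_mem_erase hb
      refine ⟨b, hbR, fun t => if t ≤ t1 then φ (p t) t else R.erase b, ?_, ?_, ?_⟩
      · intro t t' htt'
        have hsubR : φ (p t) t ⊆ R.erase b := by
          intro x hx
          refine Finset.mem_erase.2 ⟨?_, hφR (p t) t ((hp2 t).trans (Finset.erase_subset _ _)) hx⟩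
          rintro rfl
          exact hφb (p t) t x hb (fun h => Finset.notMem_erase x _ (hp2 t h)) hx
        by_cases h' : t' ≤ t1
        · have h : t ≤ t1 := htt'.trans h'
          simp only [if_pos h, if_pos h']
          exact hφmono _ _ _ _ (hp1 t t' htt') htt'
        · by_cases h : t ≤ t1
          · simp only [if_pos h, if_neg h']
            exact hsubR
          · simp only [if_neg h, if_neg h']
            exact Finset.Subset.refl _
      · intro t
        by_cases h : t ≤ t1
        · simp only [if_pos h]
          intro x hx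
          refine Finset.mem_erase.2 ⟨?_, hφR (p t) t ((hp2 t).trans (Finset.erase_subset _ _)) hx⟩
          rintro rfl
          exact hφb (p t) t x hb (fun h => Finset.notMem_erase x _ (hp2 t h)) hx
        · simp only [if_neg h]
          exact Finset.Subset.refl _
      · intro t ht
        by_cases h : t ≤ t1
        · simp only [if_pos h]
          exact hp3 t h
        · simp only [if_neg h]
          exact hlast t (by omega) ht b hbR

end key

section upper

variable {k n : ℕ}

/-- There is a chain of `m` sets of colour `j` between `w` and the complement of `b`. -/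
def Reach (c : Finset (Fin n) → Fin k) (m : Fin k → ℕ) (j : Fin k) (w : Finset (Fin n))
    (b : Fin n) : Prop :=
  ∃ h : Fin (m j) → Finset (Fin n), StrictMono h ∧ ∀ a, c (h a) = j ∧ w ⊆ h a ∧ b ∉ h a

theorem reach_anti (c : Finset (Fin n) → Fin k) (m : Fin k → ℕ) :
    ∀ j w w' b, w ⊆ w' → Reach c m j w' b → Reach c m j w b := by
  rintro j w w' b hw ⟨h, h1, h2⟩
  exact ⟨h, h1, fun a => ⟨(h2 a).1, hw.trans (h2 a).2.1, (h2 a).2.2⟩⟩

/-- Two crossing chains above a point of the same colour give a copy of `V_{m,m}`. -/
theorem exists_copy (c : Finset (Fin n) → Fin k) (m : Fin k → ℕ) (x : Finset (Fin n))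
    (a b : Fin n) (ha : a ∉ x) (hb : b ∉ x) (h1 : Reach c m (c x) (insert a x) b)
    (h2 : Reach c m (c x) (insert b x) a) :
    ∃ φ : V (m (c x)) (m (c x)) → Finset (Fin n),
      Function.Injective φ ∧ (∀ y z, y ≤ z ↔ φ y ≤ φ z) ∧ ∀ y, c (φ y) = c x := by
  obtain ⟨f, hf, hf'⟩ := h1
  obtain ⟨g, hg, hg'⟩ := h2
  have hfa : ∀ i, a ∈ f i := fun i => (hf' i).2.1 (Finset.mem_insert_self a x)
  have hfx : ∀ i, x ⊆ f i := fun i => (Finset.subset_insert a x).trans (hf' i).2.1
  have hgb : ∀ i, b ∈ g i := fun i => (hg' i).2.1 (Finset.mem_insert_self b x)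
  have hgx : ∀ i, x ⊆ g i := fun i => (Finset.subset_insert b x).trans (hg' i).2.1
  let φ : V (m (c x)) (m (c x)) → Finset (Fin n) := fun y => WithBot.recBotCoe x (Sum.elim f g) y
  have hle : ∀ y z, y ≤ z ↔ φ y ≤ φ z := by
    intro y z
    induction y using WithBot.recBotCoe with
    | bot =>
      simp only [bot_le, true_iff]
      induction z using WithBot.recBotCoe with
      | bot => exact le_refl _
      | coe z =>
        rcases z with i | i
        · exact hfx i
        · exact hgx i
    | coe y =>
      induction z using WithBot.recBotCoe with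
      | bot =>
        constructor
        · intro h
          exact absurd h (by simp)
        · intro h
          exfalso
          rcases y with i | i
          · exact ha (h (hfa i))
          · exact hb (h (hgb i))
      | coe z =>
        rcases y with i | i
        · rcases z with l | l
          · show _ ↔ f i ≤ f l
            rw [hf.le_iff_le]
            simp
          · show _ ↔ f i ≤ g l
            constructor
            · intro h
              exact absurd h (by simp)
            · intro h
              exact absurd (h (hfa i)) (hg' l).2.2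
        · rcases z with l | l
          · show _ ↔ g i ≤ f l
            constructor
            · intro h
              exact absurd h (by simp)
            · intro h
              exact absurd (h (hgb i)) (hf' l).2.2
          · show _ ↔ g i ≤ g l
            rw [hg.le_iff_le]
            simp
  refine ⟨φ, ?_, hle, ?_⟩
  · intro y z hyz
    exact le_antisymm ((hle y z).2 hyz.le) ((hle z y).2 hyz.ge)
  · intro y
    induction y using WithBot.recBotCoe with
    | bot => rfl
    | coe y =>
      rcases y with i | i
      · exact (hf' i).1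
      · exact (hg' i).1

/-- Every colouring of `B_{m_1+...+m_k+1}` has a monochromatic induced copy. -/
theorem forces (m : Fin k → ℕ) (hm : ∀ i, 1 ≤ m i) (n : ℕ) (hn : n = ∑ i, m i + 1) :
    Forces (fun i => V (m i) (m i)) n := by
  intro c
  by_contra hno
  obtain ⟨T, hT⟩ : ∃ T, T = ∑ i, (m i - 1) := ⟨_, rfl⟩
  have hsum : ∑ i, m i = T + k := by
    have : ∑ i, m i = ∑ i : Fin k, ((m i - 1) + 1) :=
      Finset.sum_congr rfl (fun i _ => by have := hm i; omega)
    rw [this, Finset.sum_add_distrib]
    simp [hT]
  have hnk : n = k + 1 + T := by omega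
  -- the set `R`
  let R : Finset (Fin n) := Finset.univ.filter (fun x => x.val < k + 1)
  have hRmem : ∀ x, x ∈ R ↔ x.val < k + 1 := by
    intro x; simp [R]
  have hRcard : R.card = k + 1 := by
    have : R = (Finset.range (k + 1)).attachFin (fun x hx => by
        rw [Finset.mem_range] at hx; omega) := by
      ext x
      simp [R, Finset.mem_attachFin]
    rw [this, Finset.card_attachFin, Finset.card_range]
  let g : Finset (Fin n) → ℕ → Finset (Fin n) := fun K t =>
    K ∪ Finset.univ.filter (fun x => k + 1 ≤ x.val ∧ x.val < k + 1 + t)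
  have hgmem : ∀ K t x, x ∈ g K t ↔ x ∈ K ∨ (k + 1 ≤ x.val ∧ x.val < k + 1 + t) := by
    intro K t x; simp [g]
  obtain ⟨b, hb, p, hp1, hp2, hp3⟩ := key c (Reach c m) (reach_anti c m)
    (fun x a b ha hb h1 h2 => hno ⟨c x, exists_copy c m x a b ha hb h1 h2⟩)
    k Finset.univ R T g (by simp) (by omega)
    (by
      intro K K' t t' hK ht x hx
      rw [hgmem] at hx ⊢
      rcases hx with hx | hx
      · exact Or.inl (hK hx)
      · right; omega)
    (by
      intro K t x hx
      rw [hgmem]
      exact Or.inl hx)
    (by
      intro K t b _ hb hbK h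
      rw [hgmem] at h
      rw [hRmem] at hb
      rcases h with h | h
      · exact hbK h
      · omega)
    (fun _ _ _ _ _ _ _ _ => Finset.mem_univ _)
  -- the points of the path
  have hbR : b.val < k + 1 := (hRmem b).1 hb
  have hbw : ∀ t, b ∉ g (p t) t := by
    intro t h
    rw [hgmem] at h
    rcases h with h | h
    · exact Finset.notMem_erase b R (hp2 t h)
    · omega
  have hmono : ∀ t t', t < t' → t' ≤ T → g (p t) t < g (p t') t' := by
    intro t t' htt' ht'
    rw [Finset.ssubset_iff_subset_ne]
    constructor
    · intro x hx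
      rw [hgmem] at hx ⊢
      rcases hx with hx | hx
      · exact Or.inl (hp1 t t' htt'.le hx)
      · right; omega
    · intro h
      have hlt : k + 1 + t < n := by omega
      have h1 : (⟨k + 1 + t, hlt⟩ : Fin n) ∈ g (p t') t' := by
        rw [hgmem]; right; constructor
        · simp
        · simp; exact htt'
      rw [← h, hgmem] at h1
      rcases h1 with h1 | h1
      · have := (hRmem _).1 (Finset.mem_of_mem_erase (hp2 t h1))
        simp only at this
        omega
      · simp at h1
  -- pigeonhole
  let A : Fin k → Finset ℕ := fun j => (Finset.range (T + 1)).filter (fun t => c (g (p t) t) = j)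
  obtain ⟨j, hj⟩ : ∃ j, m j ≤ (A j).card := by
    by_contra hcon
    push Not at hcon
    have h1 : (Finset.range (T + 1)).card = ∑ j : Fin k, (A j).card :=
      Finset.card_eq_sum_card_fiberwise (fun t _ => Finset.mem_univ (c (g (p t) t)))
    have h2 : ∑ j : Fin k, (A j).card ≤ ∑ j : Fin k, (m j - 1) :=
      Finset.sum_le_sum (fun j _ => by have := hcon j; omega)
    rw [Finset.card_range] at h1
    omega
  have hAmem : ∀ t, t ∈ A j ↔ t ≤ T ∧ c (g (p t) t) = j := by
    intro t
    simp [A]
  let e := Finset.orderEmbOfCardLe (A j) hj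
  have he : ∀ i, e i ∈ A j := fun i => Finset.orderEmbOfCardLe_mem (A j) hj i
  have hj0 : 0 < m j := hm j
  let t0 := e ⟨0, hj0⟩
  have ht0 := (hAmem t0).1 (he _)
  refine hp3 t0 ht0.1 ?_
  rw [ht0.2]
  refine ⟨fun i => g (p (e i)) (e i), ?_, ?_⟩
  · intro i l hil
    exact hmono _ _ (e.strictMono hil) ((hAmem _).1 (he l)).1
  · intro i
    refine ⟨((hAmem _).1 (he i)).2, ?_, hbw _⟩
    have h01 : t0 ≤ e i := e.monotone (by simp [Fin.le_def])
    rcases h01.eq_or_lt with h | h
    · rw [h]
    · exact (hmono _ _ h ((hAmem _).1 (he i)).1).le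

end upper

section lower

variable {k : ℕ}

/-- The level colouring: the first `m_1` levels get the first colour, the next `m_2` levels the
second colour, and so on. -/
theorem exists_levels (m : Fin k → ℕ) (hm : 0 < ∑ i, m i) :
    ∃ col : ℕ → Fin k,
      ∀ j, ((Finset.range (∑ i, m i)).filter (fun l => col l = j)).card = m j := by
  let M := ∑ i, m i
  let e : (i : Fin k) × Fin (m i) ≃ Fin M := finSigmaFinEquiv
  let d : ℕ → Fin k := fun l => if h : l < M then (e.symm ⟨l, h⟩).1 else (e.symm ⟨0, hm⟩).1
  have hd : ∀ l (h : l < M), d l = (e.symm ⟨l, h⟩).1 := fun l h => dif_pos h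
  refine ⟨d, ?_⟩
  intro j
  have h1 : ((Finset.range M).filter (fun l => d l = j)).card =
      ((Finset.univ : Finset (Fin M)).filter (fun l => (e.symm l).1 = j)).card := by
    symm
    apply Finset.card_bij (fun (l : Fin M) _ => l.val)
    · intro l hl
      simp only [Finset.mem_filter, Finset.mem_univ, true_and] at hl
      simp only [Finset.mem_filter, Finset.mem_range]
      exact ⟨l.2, (hd l.val l.2).trans hl⟩
    · intro a _ b _ h
      exact Fin.ext h
    · intro l hl
      simp only [Finset.mem_filter, Finset.mem_range] at hl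
      refine ⟨⟨l, hl.1⟩, ?_, rfl⟩
      simp only [Finset.mem_filter, Finset.mem_univ, true_and]
      exact (hd l hl.1).symm.trans hl.2
  have h2 : ((Finset.univ : Finset (Fin M)).filter (fun l => (e.symm l).1 = j)).card =
      ((Finset.univ : Finset ((i : Fin k) × Fin (m i))).filter (fun x => x.1 = j)).card := by
    symm
    apply Finset.card_bij (fun x _ => e x)
    · intro x hx
      simpa using hx
    · intro a _ b _ h
      exact e.injective h
    · intro l hl
      refine ⟨e.symm l, by simpa using hl, by simp⟩
  have h3 : ((Finset.univ : Finset ((i : Fin k) × Fin (m i))).filter (fun x => x.1 = j)).card =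
      (Finset.univ : Finset (Fin (m j))).card := by
    symm
    apply Finset.card_bij (fun x _ => (⟨j, x⟩ : (i : Fin k) × Fin (m i)))
    · intro x _
      simp
    · intro a _ b _ h
      simpa using h
    · rintro ⟨i, x⟩ hx
      simp only [Finset.mem_filter, Finset.mem_univ, true_and] at hx
      subst hx
      exact ⟨x, Finset.mem_univ _, rfl⟩
  rw [h1, h2, h3, Finset.card_univ, Fintype.card_fin]

/-- A strictly increasing chain of `m_j + 1` proper subsets cannot have colour `j` everywhere. -/
theorem no_chain (m : Fin k → ℕ) (col : ℕ → Fin k)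
    (hcol : ∀ j, ((Finset.range (∑ i, m i)).filter (fun l => col l = j)).card = m j)
    {n : ℕ} (hn : n ≤ ∑ i, m i) (j : Fin k) (f : Fin (m j + 1) → Finset (Fin n))
    (hf : StrictMono f) (hfc : ∀ a, col (f a).card = j) (htop : ∀ a, f a ≠ Finset.univ) :
    False := by
  have hcard : ∀ a, (f a).card < n := by
    intro a
    have h1 : (f a).card ≤ Fintype.card (Fin n) := Finset.card_le_univ _
    rw [Fintype.card_fin] at h1
    rcases h1.lt_or_eq with h | h
    · exact h
    · exact absurd (Finset.card_eq_iff_eq_univ (f a) |>.1 (by rw [h, Fintype.card_fin])) (htop a)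
  have h2 : (Finset.univ : Finset (Fin (m j + 1))).card ≤
      ((Finset.range (∑ i, m i)).filter (fun l => col l = j)).card := by
    apply Finset.card_le_card_of_injOn (fun a => (f a).card)
    · intro a _
      have := hcard a
      simp only [Finset.coe_filter, Finset.mem_range, Set.mem_ofPred_eq]
      exact ⟨by omega, hfc a⟩
    · intro a _ b _ hab
      by_contra hne
      rcases lt_or_gt_of_ne hne with h | h
      · have := Finset.card_lt_card (hf h)
        simp only at hab
        omega
      · have := Finset.card_lt_card (hf h)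
        simp only at hab
        omega
  rw [hcol j, Finset.card_univ, Fintype.card_fin] at h2
  omega

/-- `B_n` with `n ≤ m_1 + ... + m_k` has a colouring without weak copies. -/
theorem not_forcesWeak (m : Fin k → ℕ) (hk : 1 ≤ k) (hm : ∀ i, 1 ≤ m i) (n : ℕ)
    (hn : n ≤ ∑ i, m i) : ¬ ForcesWeak (fun i => V (m i) (m i)) n := by
  intro h
  have hM : 0 < ∑ i, m i := by
    have : m ⟨0, hk⟩ ≤ ∑ i, m i := Finset.single_le_sum (fun _ _ => Nat.zero_le _)
      (Finset.mem_univ _)
    have := hm ⟨0, hk⟩
    omega
  obtain ⟨col, hcol⟩ := exists_levels m hM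
  obtain ⟨j, φ, hinj, hmono, hc⟩ := h (fun A => col A.card)
  -- the two chains
  have hlast : m j - 1 < m j := by have := hm j; omega
  let yl : V (m j) (m j) := ((Sum.inl ⟨m j - 1, hlast⟩ : Fin (m j) ⊕ Fin (m j)) : WithBot _)
  let zl : V (m j) (m j) := ((Sum.inr ⟨m j - 1, hlast⟩ : Fin (m j) ⊕ Fin (m j)) : WithBot _)
  have hstrict : ∀ x y : V (m j) (m j), x < y → φ x < φ y := by
    intro x y hxy
    exact lt_of_le_of_ne (hmono x y hxy.le) (fun h => hxy.ne (hinj h))
  let fy : Fin (m j + 1) → V (m j) (m j) := fun a =>
    Fin.cases ⊥ (fun i => ((Sum.inl i : Fin (m j) ⊕ Fin (m j)) : WithBot _)) a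
  let fz : Fin (m j + 1) → V (m j) (m j) := fun a =>
    Fin.cases ⊥ (fun i => ((Sum.inr i : Fin (m j) ⊕ Fin (m j)) : WithBot _)) a
  have hfy : StrictMono fy := by
    intro a b hab
    induction a using Fin.cases with
    | zero =>
      induction b using Fin.cases with
      | zero => exact absurd hab (lt_irrefl _)
      | succ b => exact WithBot.bot_lt_coe _
    | succ a =>
      induction b using Fin.cases with
      | zero => exact absurd hab (by simp)
      | succ b =>
        have hab' : a < b := Fin.succ_lt_succ_iff.1 hab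
        exact WithBot.coe_lt_coe.2 (Sum.inl_lt_inl_iff.2 hab')
  have hfz : StrictMono fz := by
    intro a b hab
    induction a using Fin.cases with
    | zero =>
      induction b using Fin.cases with
      | zero => exact absurd hab (lt_irrefl _)
      | succ b => exact WithBot.bot_lt_coe _
    | succ a =>
      induction b using Fin.cases with
      | zero => exact absurd hab (by simp)
      | succ b =>
        have hab' : a < b := Fin.succ_lt_succ_iff.1 hab
        exact WithBot.coe_lt_coe.2 (Sum.inr_lt_inr_iff.2 hab')
  have hfyl : ∀ a, fy a ≤ yl := by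
    intro a
    induction a using Fin.cases with
    | zero => exact bot_le
    | succ a =>
      refine WithBot.coe_le_coe.2 (Sum.inl_le_inl_iff.2 ?_)
      rw [Fin.le_def]
      have := a.2
      simp only
      omega
  have hfzl : ∀ a, fz a ≤ zl := by
    intro a
    induction a using Fin.cases with
    | zero => exact bot_le
    | succ a =>
      refine WithBot.coe_le_coe.2 (Sum.inr_le_inr_iff.2 ?_)
      rw [Fin.le_def]
      have := a.2
      simp only
      omega
  have hne : yl ≠ zl := by
    intro h
    have := WithBot.coe_injective h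
    simp at this
  by_cases hy : φ yl = Finset.univ
  · have hz : φ zl ≠ Finset.univ := fun hz => hne (hinj (hy.trans hz.symm))
    refine no_chain m col hcol hn j (fun a => φ (fz a)) (fun a b hab => hstrict _ _ (hfz hab))
      (fun a => hc _) ?_
    intro a ha
    have h1 := hmono _ _ (hfzl a)
    rw [ha] at h1
    exact hz (Finset.eq_univ_of_forall (fun x => h1 (Finset.mem_univ x)))
  · refine no_chain m col hcol hn j (fun a => φ (fy a)) (fun a b hab => hstrict _ _ (hfy hab))
      (fun a => hc _) ?_
    intro a ha
    have h1 := hmono _ _ (hfyl a)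
    rw [ha] at h1
    exact hy (Finset.eq_univ_of_forall (fun x => h1 (Finset.mem_univ x)))

end lower

theorem Forces.weak {k : ℕ} {P : Fin k → Type} [∀ i, PartialOrder (P i)] {n : ℕ}
    (h : Forces P n) : ForcesWeak P n := by
  intro c
  obtain ⟨i, φ, h1, h2, h3⟩ := h c
  exact ⟨i, φ, h1, fun x y hxy => (h2 x y).1 hxy, h3⟩

/-- **Main theorem.** For all `k ≥ 1` and all `m_1, ..., m_k ≥ 1`, the weak and the induced Boolean
Ramsey numbers of `V_{m_1,m_1}, ..., V_{m_k,m_k}` both equal `m_1 + ... + m_k + 1` (and the least
`n` in their definitions exists). -/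
theorem result (k : ℕ) (hk : 1 ≤ k) (m : Fin k → ℕ) (hm : ∀ i, 1 ≤ m i) :
    weakBoolRamsey (fun i => V (m i) (m i)) = ∑ i, m i + 1 ∧
    boolRamsey (fun i => V (m i) (m i)) = ∑ i, m i + 1 ∧
    IsLeast {n | ForcesWeak (fun i => V (m i) (m i)) n} (∑ i, m i + 1) ∧
    IsLeast {n | Forces (fun i => V (m i) (m i)) n} (∑ i, m i + 1) := by
  have hF : Forces (fun i => V (m i) (m i)) (∑ i, m i + 1) := forces m hm _ rfl
  have hW : ForcesWeak (fun i => V (m i) (m i)) (∑ i, m i + 1) := hF.weak
  have h1 : IsLeast {n | ForcesWeak (fun i => V (m i) (m i)) n} (∑ i, m i + 1) := by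
    refine ⟨hW, ?_⟩
    intro n hn
    by_contra hlt
    exact not_forcesWeak m hk hm n (by omega) hn
  have h2 : IsLeast {n | Forces (fun i => V (m i) (m i)) n} (∑ i, m i + 1) := by
    refine ⟨hF, ?_⟩
    intro n hn
    by_contra hlt
    exact not_forcesWeak m hk hm n (by omega) (Forces.weak hn)
  exact ⟨h1.csInf_eq, h2.csInf_eq, h1, h2⟩

end Pool.H30.MV.VRamsey
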